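import Mathlib

set_option autoImplicit false
open scoped Topology ENNReal BigOperators
open MeasureTheory Filter Module

namespace Pool.Agent.Helper130.JB

/-- Euclidean space of dimension `n`. -/
abbrev Eu (n : ℕ) : Type := EuclideanSpace ℝ (Fin n)

/-- dilated symmetric hull of a finite family -/
def hullR {V : Type*} [AddCommGroup V] [Module ℝ V] {ι : Type*} [Fintype ι] (lam : ℝ)
    (w : ι → V) : Set V :=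
  {x | ∃ c : ι → ℝ, ∑ i, |c i| ≤ lam ∧ x = ∑ i, c i • w i}

/-- the operator `T` mixes `m` dimensions, with constant `R`. -/
def Mixing (n m : ℕ) (R : ℝ) (T : Eu n →ₗ[ℝ] Eu n) : Prop :=
  ∃ (J : Eu m →ₗᵢ[ℝ] Eu n) (Ψ : Eu n →ₗ[ℝ] Eu m),
    (∀ x, Ψ (J x) = 0) ∧ (∀ x, Ψ (T (J x)) = x) ∧ ∀ y, ‖Ψ y‖ ≤ R * ‖y‖

/-- The family `Γ` together with the vectors `√n e_i`. -/
noncomputable def full {N n : ℕ} (Γ : Fin N → Eu n) : Fin N ⊕ Fin n → Eu n :=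
  Sum.elim Γ (fun i => (√(n : ℝ)) • EuclideanSpace.single i (1 : ℝ))

/-- A finite-dimensional subspace is 2-Hilbertian. -/
def Hilb2 {Z : Type*} [NormedAddCommGroup Z] [NormedSpace ℝ Z] (W : Submodule ℝ Z) : Prop :=
  ∃ (r : ℕ) (L : W →ₗ[ℝ] Eu r), ∀ w : W, ‖L w‖ ≤ ‖w‖ ∧ ‖w‖ ≤ 2 * ‖L w‖

/-- obstruction to bases -/
def NoBasisIn (V : Type) [NormedAddCommGroup V] [NormedSpace ℝ V] (C : ℝ) (d : ℕ) : Prop :=
  ∀ (Z : Type) [NormedAddCommGroup Z] [NormedSpace ℝ Z] (i : V →ₗ[ℝ] Z) (π : Z →ₗ[ℝ] V),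
    (∀ x, π (i x) = x) → (∀ x, ‖i x‖ ≤ ‖x‖) → (∀ z, ‖π z‖ ≤ ‖z‖) →
    (∀ W : Submodule ℝ Z, FiniteDimensional ℝ W → finrank ℝ W ≤ finrank ℝ V →
      (∀ w ∈ W, π w = 0) → ∃ W' : Submodule ℝ Z, W' ≤ W ∧ finrank ℝ W ≤ finrank ℝ W' + d ∧
        Hilb2 W') →
    ∀ S : ℕ → Z →ₗ[ℝ] Z, (∀ x, S 0 x = 0) → (∀ m x, S m (S m x) = S m x) →
      (∀ m, ∃ (f : Z →ₗ[ℝ] ℝ) (z : Z), ∀ x, S (m + 1) x - S m x = f x • z) →
      (∀ m x, ‖S m x‖ ≤ C * ‖x‖) → (∀ x, Tendsto (fun m => S m x) atTop (𝓝 x)) → False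


end Pool.Agent.Helper130.JB
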