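import Mathlib
import Pool.Agent.Helper130.JB.Defs

set_option autoImplicit false
open scoped Topology ENNReal BigOperators
open MeasureTheory Filter Module

namespace Pool.Agent.Helper130.JB

/-- the sign attached to a Boolean -/
def sg (b : Bool) : ℝ := if b then 1 else -1

/-- the sign vector attached to a Boolean function -/
noncomputable def sgv {n : ℕ} (ε : Fin n → Bool) : Eu n :=
  ∑ l, sg (ε l) • EuclideanSpace.single l (1 : ℝ)

/-- `E` has Rademacher cotype `s` with constant `C` (quadratic averages). -/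
def HasCotype (s C : ℝ) (E : Type*) [NormedAddCommGroup E] [NormedSpace ℝ E] : Prop :=
  ∀ (r : ℕ) (x : Fin r → E), (∑ i, ‖x i‖ ^ s) ^ (1 / s) ≤
    C * ((∑ ε : Fin r → Bool, ‖∑ i, sg (ε i) • x i‖ ^ 2) / 2 ^ r) ^ (1 / 2 : ℝ)


end Pool.Agent.Helper130.JB
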