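import Mathlib
import Pool.Agent.Helper130.JB.Defs


set_option autoImplicit false
open scoped Topology ENNReal BigOperators
open MeasureTheory Filter Module

namespace Pool.Agent.Helper130.JB.D1














/-- the off-diagonal part -/
noncomputable def yy_8433 {n : ℕ} (T : Eu n →ₗ[ℝ] Eu n) (x : Eu n) : Eu n :=
  T x - (inner ℝ x (T x) : ℝ) • x

structure Good_8433 {n : ℕ} (T : Eu n →ₗ[ℝ] Eu n) (α : ℝ) {k : ℕ} (x : Fin k → Eu n) : Prop where
  nrm : ∀ i, ‖x i‖ = 1
  orth : ∀ i j, i ≠ j → (inner ℝ (x i) (x j) : ℝ) = 0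
  big : ∀ i, α < ‖yy_8433 T (x i)‖
  xy : ∀ i j, (inner ℝ (x i) (yy_8433 T (x j)) : ℝ) = 0
  yy : ∀ i j, i ≠ j → (inner ℝ (yy_8433 T (x i)) (yy_8433 T (x j)) : ℝ) = 0

theorem self_8433 {n : ℕ} (T : Eu n →ₗ[ℝ] Eu n) (x : Eu n) (hx : ‖x‖ = 1) :
    (inner ℝ x (yy_8433 T x) : ℝ) = 0 := by
  unfold yy_8433
  rw [inner_sub_right, inner_smul_right, real_inner_self_eq_norm_sq, hx]
  ring

theorem step_8433 {n m k : ℕ} {α : ℝ} {T : Eu n →ₗ[ℝ] Eu n} {x : Fin k → Eu n}
    (hx : Good_8433 T α x) (hk : k ≤ m) :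
    (∃ x' : Fin (k+1) → Eu n, Good_8433 T α x') ∨
      ∃ G : Submodule ℝ (Eu n), n ≤ finrank ℝ G + 4 * m ∧
        ∀ x ∈ G, ‖x‖ = 1 → ‖T x - (inner ℝ x (T x) : ℝ) • x‖ ≤ α := by
  classical
  let Ta := LinearMap.adjoint T
  let fam : (Fin k ⊕ Fin k) ⊕ (Fin k ⊕ Fin k) → Eu n :=
    Sum.elim (Sum.elim x (fun i => T (x i)))
      (Sum.elim (fun i => Ta (x i)) (fun i => Ta (yy_8433 T (x i))))
  let W : Submodule ℝ (Eu n) := Submodule.span ℝ (Set.range fam)
  have hW : finrank ℝ W ≤ 4 * k := by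
    have := finrank_range_le_card (R := ℝ) fam
    simp only [Fintype.card_sum, Fintype.card_fin] at this
    have h2 : finrank ℝ W = Set.finrank ℝ (Set.range fam) := rfl
    omega
  have hsum : finrank ℝ W + finrank ℝ (Wᗮ : Submodule ℝ (Eu n)) = n := by
    rw [Submodule.finrank_add_finrank_orthogonal]
    simp [Eu]
  have hfam : ∀ j, fam j ∈ W := fun j => Submodule.subset_span ⟨j, rfl⟩
  by_cases hall : ∀ x ∈ (Wᗮ : Submodule ℝ (Eu n)), ‖x‖ = 1 →
      ‖T x - (inner ℝ x (T x) : ℝ) • x‖ ≤ α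
  · right
    exact ⟨Wᗮ, by omega, hall⟩
  · left
    push Not at hall
    obtain ⟨x0, hx0, hn0, hb0⟩ := hall
    have hor : ∀ w ∈ W, (inner ℝ w x0 : ℝ) = 0 := (Submodule.mem_orthogonal W x0).1 hx0
    have e1 : ∀ i, (inner ℝ (x i) x0 : ℝ) = 0 := fun i => hor _ (hfam (Sum.inl (Sum.inl i)))
    have e2 : ∀ i, (inner ℝ (T (x i)) x0 : ℝ) = 0 := fun i => hor _ (hfam (Sum.inl (Sum.inr i)))
    have e3 : ∀ i, (inner ℝ (x i) (T x0) : ℝ) = 0 := by
      intro i
      have := hor _ (hfam (Sum.inr (Sum.inl i)))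
      simp only [fam, Sum.elim_inr, Sum.elim_inl] at this
      rwa [LinearMap.adjoint_inner_left] at this
    have e4 : ∀ i, (inner ℝ (yy_8433 T (x i)) (T x0) : ℝ) = 0 := by
      intro i
      have := hor _ (hfam (Sum.inr (Sum.inr i)))
      simp only [fam, Sum.elim_inr] at this
      rwa [LinearMap.adjoint_inner_left] at this
    have f1 : ∀ i, (inner ℝ (x i) (yy_8433 T x0) : ℝ) = 0 := by
      intro i
      unfold yy_8433
      rw [inner_sub_right, inner_smul_right, e3, e1]
      ring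
    have f2 : ∀ i, (inner ℝ x0 (yy_8433 T (x i)) : ℝ) = 0 := by
      intro i
      unfold yy_8433
      have g1 : (inner ℝ x0 (T (x i)) : ℝ) = 0 := by rw [real_inner_comm]; exact e2 i
      have g2 : (inner ℝ x0 (x i) : ℝ) = 0 := by rw [real_inner_comm]; exact e1 i
      rw [inner_sub_right, inner_smul_right, g1, g2]
      ring
    have f3 : ∀ i, (inner ℝ (yy_8433 T (x i)) (yy_8433 T x0) : ℝ) = 0 := by
      intro i
      have : yy_8433 T x0 = T x0 - (inner ℝ x0 (T x0) : ℝ) • x0 := rfl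
      have g1 : (inner ℝ (yy_8433 T (x i)) x0 : ℝ) = 0 := by rw [real_inner_comm]; exact f2 i
      rw [this, inner_sub_right, inner_smul_right, e4, g1]
      ring
    refine ⟨Fin.cons x0 x, ?_, ?_, ?_, ?_, ?_⟩
    · intro i
      refine Fin.cases ?_ (fun i => ?_) i
      · simpa using hn0
      · simpa using hx.nrm i
    · intro i j hij
      induction i using Fin.cases with
      | zero =>
        induction j using Fin.cases with
        | zero => exact absurd rfl hij
        | succ j => rw [Fin.cons_zero, Fin.cons_succ, real_inner_comm]; exact e1 j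
      | succ i =>
        induction j using Fin.cases with
        | zero => rw [Fin.cons_zero, Fin.cons_succ]; exact e1 i
        | succ j =>
          rw [Fin.cons_succ, Fin.cons_succ]
          exact hx.orth i j (fun h => hij (by rw [h]))
    · intro i
      refine Fin.cases ?_ (fun i => ?_) i
      · simpa [yy_8433] using hb0
      · simpa using hx.big i
    · intro i j
      induction i using Fin.cases with
      | zero =>
        induction j using Fin.cases with
        | zero => rw [Fin.cons_zero]; exact self_8433 T x0 hn0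
        | succ j => rw [Fin.cons_zero, Fin.cons_succ]; exact f2 j
      | succ i =>
        induction j using Fin.cases with
        | zero => rw [Fin.cons_zero, Fin.cons_succ]; exact f1 i
        | succ j =>
          rw [Fin.cons_succ, Fin.cons_succ]
          exact hx.xy i j
    · intro i j hij
      induction i using Fin.cases with
      | zero =>
        induction j using Fin.cases with
        | zero => exact absurd rfl hij
        | succ j => rw [Fin.cons_zero, Fin.cons_succ, real_inner_comm]; exact f3 j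
      | succ i =>
        induction j using Fin.cases with
        | zero => rw [Fin.cons_zero, Fin.cons_succ]; exact f3 i
        | succ j =>
          rw [Fin.cons_succ, Fin.cons_succ]
          exact hx.yy i j (fun h => hij (by rw [h]))

theorem mix_8433 {n m : ℕ} {α : ℝ} (hα : 0 < α) {T : Eu n →ₗ[ℝ] Eu n} {x : Fin m → Eu n}
    (hx : Good_8433 T α x) : Mixing n m (1 / α) T := by
  have ho : Orthonormal ℝ x := ⟨hx.nrm, fun i j hij => hx.orth i j hij⟩
  let B := (EuclideanSpace.basisFun (Fin m) ℝ)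
  have hB : Orthonormal ℝ B.toBasis := by
    rw [OrthonormalBasis.coe_toBasis]
    exact B.orthonormal
  let f : Eu m →ₗ[ℝ] Eu n := B.toBasis.constr ℝ x
  have hfB : ∀ i, f (B.toBasis i) = x i := fun i => B.toBasis.constr_basis ℝ x i
  have hf : Orthonormal ℝ (f ∘ B.toBasis) := by
    have : (f ∘ B.toBasis) = x := funext hfB
    rw [this]; exact ho
  let J : Eu m →ₗᵢ[ℝ] Eu n := f.isometryOfOrthonormal hB hf
  have hJ : ∀ v, J v = f v := fun v => rfl
  have hy : ∀ i, 0 < ‖yy_8433 T (x i)‖ := fun i => hα.trans (hx.big i)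
  let Ψ : Eu n →ₗ[ℝ] Eu m := (WithLp.linearEquiv 2 ℝ (Fin m → ℝ)).symm.toLinearMap ∘ₗ
    LinearMap.pi (fun i => (1 / ‖yy_8433 T (x i)‖ ^ 2) • (innerₛₗ ℝ (yy_8433 T (x i))))
  have hΨ : ∀ v i, Ψ v i = (1 / ‖yy_8433 T (x i)‖ ^ 2) * (inner ℝ (yy_8433 T (x i)) v : ℝ) := by
    intro v i
    rfl
  refine ⟨J, Ψ, ?_, ?_, ?_⟩
  · have h : Ψ ∘ₗ f = 0 := by
      refine B.toBasis.ext fun j => ?_
      rw [LinearMap.comp_apply, hfB]
      ext i
      rw [hΨ, real_inner_comm, hx.xy]
      simp
    intro v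
    rw [hJ]
    exact LinearMap.congr_fun h v
  · have h : Ψ ∘ₗ T ∘ₗ f = LinearMap.id := by
      refine B.toBasis.ext fun j => ?_
      have hc : (Ψ ∘ₗ T ∘ₗ f) (B.toBasis j) = Ψ (T (f (B.toBasis j))) := rfl
      rw [hc, hfB]
      ext i
      rw [hΨ]
      have hT : T (x j) = yy_8433 T (x j) + (inner ℝ (x j) (T (x j)) : ℝ) • x j := by
        unfold yy_8433; abel
      rw [hT, inner_add_right, inner_smul_right, real_inner_comm (x j), hx.xy]
      have hb : (LinearMap.id (R := ℝ) (M := Eu m)) (B.toBasis j) i = if i = j then 1 else 0 := by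
        rw [LinearMap.id_apply, OrthonormalBasis.coe_toBasis]
        simp [B, EuclideanSpace.basisFun_apply, Pi.single_apply]
      rw [hb]
      split_ifs with hij
      · subst hij
        rw [real_inner_self_eq_norm_sq]
        have := (hy i).ne'
        field_simp
        ring
      · rw [hx.yy i j hij]; ring
    intro v
    rw [hJ]
    exact LinearMap.congr_fun h v
  · intro v
    have hu : Orthonormal ℝ (fun i => (1 / ‖yy_8433 T (x i)‖) • yy_8433 T (x i)) := by
      refine ⟨fun i => ?_, fun i j hij => ?_⟩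
      · rw [norm_smul, Real.norm_eq_abs, abs_of_pos (by have := hy i; positivity)]
        have := (hy i).ne'
        field_simp
      · show (inner ℝ ((1 / ‖yy_8433 T (x i)‖) • yy_8433 T (x i))
          ((1 / ‖yy_8433 T (x j)‖) • yy_8433 T (x j)) : ℝ) = 0
        rw [inner_smul_left, inner_smul_right, hx.yy i j hij]
        simp
    have hbes := hu.sum_inner_products_le (x := v) (s := Finset.univ)
    have hsq : ‖Ψ v‖ ^ 2 ≤ (1 / α * ‖v‖) ^ 2 := by
      rw [EuclideanSpace.norm_sq_eq]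
      calc ∑ i, ‖Ψ v i‖ ^ 2 ≤ ∑ i, (1 / α) ^ 2 *
          ‖(inner ℝ ((1 / ‖yy_8433 T (x i)‖) • yy_8433 T (x i)) v : ℝ)‖ ^ 2 := by
            refine Finset.sum_le_sum fun i _ => ?_
            rw [hΨ, inner_smul_left, ← mul_pow]
            refine pow_le_pow_left₀ (norm_nonneg _) ?_ 2
            rw [norm_mul, norm_mul]
            have hyi := hy i
            have h1 : ‖(1 / ‖yy_8433 T (x i)‖ ^ 2 : ℝ)‖ =
                (1 / ‖yy_8433 T (x i)‖) * (1 / ‖yy_8433 T (x i)‖) := by
              rw [Real.norm_eq_abs, abs_of_pos (by positivity)]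
              field_simp
            have h2 : ‖(starRingEnd ℝ) (1 / ‖yy_8433 T (x i)‖)‖ = 1 / ‖yy_8433 T (x i)‖ := by
              simp
            rw [h1, h2, mul_assoc]
            refine mul_le_mul_of_nonneg_right ?_ (by positivity)
            exact one_div_le_one_div_of_le hα (hx.big i).le
        _ = (1 / α) ^ 2 * ∑ i, ‖(inner ℝ ((1 / ‖yy_8433 T (x i)‖) • yy_8433 T (x i)) v : ℝ)‖ ^ 2 := by
            rw [Finset.mul_sum]
        _ ≤ (1 / α) ^ 2 * ‖v‖ ^ 2 := mul_le_mul_of_nonneg_left hbes (by positivity)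
        _ = (1 / α * ‖v‖) ^ 2 := by ring
    exact abs_le_of_sq_le_sq' hsq (by positivity) |>.2

/-- greedy construction -/
theorem mixing_or_small (n m : ℕ) (α : ℝ) (hα : 0 < α) (T : Eu n →ₗ[ℝ] Eu n) :
    Mixing n m (1 / α) T ∨
      ∃ G : Submodule ℝ (Eu n), n ≤ finrank ℝ G + 4 * m ∧
        ∀ x ∈ G, ‖x‖ = 1 → ‖T x - (inner ℝ x (T x) : ℝ) • x‖ ≤ α := by
  have key : ∀ k, k ≤ m → (∃ x : Fin k → Eu n, Good_8433 T α x) ∨
      ∃ G : Submodule ℝ (Eu n), n ≤ finrank ℝ G + 4 * m ∧
        ∀ x ∈ G, ‖x‖ = 1 → ‖T x - (inner ℝ x (T x) : ℝ) • x‖ ≤ α := by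
    intro k
    induction k with
    | zero =>
      intro _
      left
      exact ⟨Fin.elim0, ⟨fun i => i.elim0, fun i => i.elim0, fun i => i.elim0, fun i => i.elim0,
        fun i => i.elim0⟩⟩
    | succ k ih =>
      intro hk
      rcases ih (by omega) with ⟨x, hx⟩ | h
      · exact step_8433 hx (by omega)
      · exact Or.inr h
  rcases key m le_rfl with ⟨x, hx⟩ | h
  · exact Or.inl (mix_8433 hα hx)
  · exact Or.inr h

end Pool.Agent.Helper130.JB.D1
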