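import Mathlib
import Pool.Agent.Helper130.JB.Defs


set_option autoImplicit false
open scoped Topology ENNReal BigOperators
open MeasureTheory Filter Module

namespace Pool.Agent.Helper130.JB.D1b













/-- if every unit vector of `G` is almost an eigenvector then `T` is almost scalar on `G` -/
theorem near_scalar (n : ℕ) (α : ℝ) (hα : 0 < α) (T : Eu n →ₗ[ℝ] Eu n)
    (G : Submodule ℝ (Eu n))
    (hG : ∀ x ∈ G, ‖x‖ = 1 → ‖T x - (inner ℝ x (T x) : ℝ) • x‖ ≤ α) :
    ∃ t : ℝ, ∀ x ∈ G, ‖T x - t • x‖ ≤ 8 * α * ‖x‖ := by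
  by_cases hbot : G = ⊥
  · refine ⟨0, fun x hx => ?_⟩
    rw [hbot, Submodule.mem_bot] at hx
    subst hx
    simp
  obtain ⟨w, hwG, hw0⟩ := Submodule.exists_mem_ne_zero_of_ne_bot hbot
  have hwn : ‖w‖ ≠ 0 := norm_ne_zero_iff.2 hw0
  -- normalise
  have hunit : ∀ z : Eu n, z ≠ 0 → ‖(‖z‖⁻¹) • z‖ = 1 := by
    intro z hz
    have : ‖z‖ ≠ 0 := norm_ne_zero_iff.2 hz
    rw [norm_smul, norm_inv, norm_norm, inv_mul_cancel₀ this]
  set x0 : Eu n := (‖w‖⁻¹) • w with hx0
  have hx0G : x0 ∈ G := G.smul_mem _ hwG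
  have hx01 : ‖x0‖ = 1 := hunit w hw0
  have step1 : ∀ x ∈ G, ∀ y ∈ G, ‖x‖ = 1 → ‖y‖ = 1 → inner ℝ x y = 0 →
      |inner ℝ x (T x) - inner ℝ y (T y)| ≤ 4 * α := by
    intro x hx y hy hx1 hy1 hxy
    have hyx : inner ℝ y x = 0 := by rw [real_inner_comm]; exact hxy
    have hxx : inner ℝ x x = 1 := by rw [real_inner_self_eq_norm_sq, hx1]; norm_num
    have hyy : inner ℝ y y = 1 := by rw [real_inner_self_eq_norm_sq, hy1]; norm_num
    have hs2 : (0 : ℝ) < √2 := by positivity
    have hs2s : √2 * √2 = 2 := Real.mul_self_sqrt (by norm_num)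
    set u : Eu n := (√2)⁻¹ • (x + y) with hu
    have huG : u ∈ G := G.smul_mem _ (G.add_mem hx hy)
    have hn1 : ‖x + y‖ = √2 := by
      rw [eq_comm, Real.sqrt_eq_iff_mul_self_eq (by norm_num) (norm_nonneg _),
        ← real_inner_self_eq_norm_mul_norm, inner_add_left, inner_add_right, inner_add_right,
        hxx, hyy, hxy, hyx]
      norm_num
    have hn2 : ‖x - y‖ = √2 := by
      rw [eq_comm, Real.sqrt_eq_iff_mul_self_eq (by norm_num) (norm_nonneg _),
        ← real_inner_self_eq_norm_mul_norm, inner_sub_left, inner_sub_right, inner_sub_right,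
        hxx, hyy, hxy, hyx]
      norm_num
    have hu1 : ‖u‖ = 1 := by
      rw [hu, norm_smul, hn1, norm_inv, Real.norm_of_nonneg hs2.le, inv_mul_cancel₀ hs2.ne']
    have h1 := hG u huG hu1
    have h2 : |inner ℝ (x - y) (T u - (inner ℝ u (T u) : ℝ) • u)| ≤ √2 * α := by
      refine (abs_real_inner_le_norm _ _).trans ?_
      rw [hn2]
      exact mul_le_mul_of_nonneg_left h1 hs2.le
    have h3 : inner ℝ (x - y) (T u - (inner ℝ u (T u) : ℝ) • u) =
        (√2)⁻¹ * (inner ℝ x (T x) - inner ℝ y (T y) + inner ℝ x (T y) - inner ℝ y (T x)) := by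
      have h4 : inner ℝ (x - y) u = 0 := by
        rw [hu, inner_smul_right, inner_sub_left, inner_add_right, inner_add_right, hxx, hyy,
          hxy, hyx]
        norm_num
      rw [inner_sub_right, inner_smul_right, h4, mul_zero, sub_zero, hu, map_smul, map_add,
        inner_smul_right, inner_sub_left, inner_add_right, inner_add_right]
      ring
    have h5 : |inner ℝ x (T y)| ≤ α := by
      have h6 : inner ℝ x (T y) = inner ℝ x (T y - (inner ℝ y (T y) : ℝ) • y) := by
        rw [inner_sub_right, inner_smul_right, hxy, mul_zero, sub_zero]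
      rw [h6]
      refine (abs_real_inner_le_norm _ _).trans ?_
      rw [hx1, one_mul]
      exact hG y hy hy1
    have h7 : |inner ℝ y (T x)| ≤ α := by
      have h6 : inner ℝ y (T x) = inner ℝ y (T x - (inner ℝ x (T x) : ℝ) • x) := by
        rw [inner_sub_right, inner_smul_right, hyx, mul_zero, sub_zero]
      rw [h6]
      refine (abs_real_inner_le_norm _ _).trans ?_
      rw [hy1, one_mul]
      exact hG x hx hx1
    rw [h3, abs_mul, abs_inv, abs_of_pos hs2, inv_mul_le_iff₀ hs2, ← mul_assoc, hs2s] at h2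
    rw [abs_le] at h2 h5 h7 ⊢
    constructor <;> linarith [h2.1, h2.2, h5.1, h5.2, h7.1, h7.2]
  refine ⟨inner ℝ x0 (T x0), fun y hy => ?_⟩
  set t : ℝ := inner ℝ x0 (T x0) with ht
  set a : ℝ := inner ℝ x0 y with ha
  set z' : Eu n := y - a • x0 with hz'
  have hyd : y = a • x0 + z' := by rw [hz']; abel
  have haY : |a| ≤ ‖y‖ := by
    have := abs_real_inner_le_norm x0 y
    rwa [hx01, one_mul] at this
  have h0 : ‖T x0 - t • x0‖ ≤ α := hG x0 hx0G hx01
  have hyn : 0 ≤ ‖y‖ := norm_nonneg y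
  have hsplit : T y - t • y = a • (T x0 - t • x0) + (T z' - t • z') := by
    have h : ∀ (X Z : Eu n) (a t : ℝ), T (a • X + Z) - t • (a • X + Z) =
        a • (T X - t • X) + (T Z - t • Z) := by
      intro X Z a t
      rw [map_add, map_smul]; module
    have h' := h x0 z' a t
    rw [← hyd] at h'
    exact h'
  have hfirst : ‖a • (T x0 - t • x0)‖ ≤ α * ‖y‖ := by
    rw [norm_smul, Real.norm_eq_abs, mul_comm]
    exact mul_le_mul h0 haY (abs_nonneg _) hα.le
  have hzG : z' ∈ G := G.sub_mem hy (G.smul_mem _ hx0G)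
  have hsecond : ‖T z' - t • z'‖ ≤ 5 * α * ‖z'‖ := by
    by_cases hz0 : z' = 0
    · rw [hz0]; simp
    have hzn : ‖z'‖ ≠ 0 := norm_ne_zero_iff.2 hz0
    have hzp : 0 < ‖z'‖ := norm_pos_iff.2 hz0
    set z : Eu n := (‖z'‖⁻¹) • z' with hz
    have hz1 : ‖z‖ = 1 := hunit z' hz0
    have hzG' : z ∈ G := G.smul_mem _ hzG
    have hort : inner ℝ x0 z = 0 := by
      rw [hz, inner_smul_right, hz', inner_sub_right, inner_smul_right,
        real_inner_self_eq_norm_sq, hx01, ← ha]
      ring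
    have h1 := step1 x0 hx0G z hzG' hx01 hz1 hort
    have h2 := hG z hzG' hz1
    have h3 : ‖T z - t • z‖ ≤ 5 * α := by
      have h4 : T z - t • z = (T z - (inner ℝ z (T z) : ℝ) • z) +
          ((inner ℝ z (T z) : ℝ) - t) • z := by
        rw [sub_smul]; abel
      rw [h4]
      refine (norm_add_le _ _).trans ?_
      rw [norm_smul, hz1, mul_one, Real.norm_eq_abs, abs_sub_comm]
      linarith
    have h5 : z' = ‖z'‖ • z := by
      rw [hz, smul_smul, mul_inv_cancel₀ hzn, one_smul]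
    have h6 : T z' - t • z' = ‖z'‖ • (T z - t • z) := by
      have h : ∀ (c : ℝ) (Z : Eu n), T (c • Z) - t • (c • Z) = c • (T Z - t • Z) := by
        intro c Z
        rw [map_smul]; module
      have h' := h ‖z'‖ z
      rw [← h5] at h'
      exact h'
    rw [h6, norm_smul, norm_norm, mul_comm]
    exact mul_le_mul_of_nonneg_right h3 hzp.le
  have hzY : ‖z'‖ ≤ ‖y‖ := by
    have h1 : ‖z'‖ ^ 2 = ‖y‖ ^ 2 - a ^ 2 := by
      rw [hz', norm_sub_sq_real, inner_smul_right, real_inner_comm, ← ha, norm_smul, hx01,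
        mul_one, Real.norm_eq_abs, sq_abs]
      ring
    have h2 : ‖z'‖ ^ 2 ≤ ‖y‖ ^ 2 := by rw [h1]; nlinarith [sq_nonneg a]
    exact (sq_le_sq₀ (norm_nonneg _) hyn).1 h2
  rw [hsplit]
  refine (norm_add_le _ _).trans ?_
  have h9 : 5 * α * ‖z'‖ ≤ 5 * α * ‖y‖ := mul_le_mul_of_nonneg_left hzY (by positivity)
  have h10 : 0 ≤ α * ‖y‖ := by positivity
  linarith

end Pool.Agent.Helper130.JB.D1b
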