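import Mathlib
import Pool.Agent.Helper130.JB.Defs


set_option autoImplicit false
open scoped Topology ENNReal BigOperators
open MeasureTheory Filter Module

namespace Pool.Agent.Helper130.JB.D2













theorem volume_hullR_le (m : ℕ) (lam r : ℝ) (hlam : 0 ≤ lam) (hr : 0 ≤ r)
    {ι : Type} [Fintype ι] (w : ι → Eu m) (hw : ∀ i, ‖w i‖ ≤ r)
    (hcar : ∀ x ∈ hullR lam w, ∃ (s : Finset ι) (c : ι → ℝ),
      LinearIndependent ℝ (fun i : s => w i) ∧
      (∀ i ∉ s, c i = 0) ∧ ∑ i, |c i| ≤ lam ∧ x = ∑ i, c i • w i)
    (hfin : ∀ v : Fin m → Eu m, (∀ i, ‖v i‖ ≤ r) →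
      volume (hullR lam v) ≤ ENNReal.ofReal ((2 * lam * r) ^ m / (m.factorial : ℝ))) :
    volume (hullR lam w) ≤
      ENNReal.ofReal (((Fintype.card ι).choose m : ℝ) * ((2 * lam * r) ^ m / (m.factorial : ℝ))) := by
  classical
  rcases lt_or_ge (Fintype.card ι) m with hlt | hge
  · have hsub : hullR lam w ⊆ (Submodule.span ℝ (Set.range w) : Set (Eu m)) := by
      rintro x ⟨c, _, rfl⟩
      exact Submodule.sum_mem _ (fun i _ => Submodule.smul_mem _ _
        (Submodule.subset_span (Set.mem_range_self i)))
    have hne : Submodule.span ℝ (Set.range w) ≠ ⊤ := by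
      intro h
      have h1 := finrank_range_le_card (R := ℝ) w
      have h2 : finrank ℝ (Submodule.span ℝ (Set.range w)) = m := by
        rw [h, finrank_top, finrank_euclideanSpace_fin]
      have h3 : Set.finrank ℝ (Set.range w) = finrank ℝ (Submodule.span ℝ (Set.range w)) := rfl
      omega
    have h0 : volume (hullR lam w) = 0 :=
      measure_mono_null hsub (Measure.addHaar_submodule volume _ hne)
    rw [h0]; exact zero_le
  · set v : Finset ι → Fin m → Eu m := fun s' =>
      if h : s'.card = m then fun i => w ((s'.equivFinOfCardEq h).symm i) else fun _ => 0 with hv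
    have hcov : hullR lam w ⊆ ⋃ s' ∈ Finset.powersetCard m (Finset.univ : Finset ι),
        hullR lam (v s') := by
      intro x hx
      obtain ⟨s, c, hli, hc0, hc, hxe⟩ := hcar x hx
      have hcard : s.card ≤ m := by
        have := hli.fintype_card_le_finrank
        rw [Fintype.card_coe, finrank_euclideanSpace_fin] at this
        exact this
      obtain ⟨s', hss', _, hs'c⟩ := Finset.exists_subsuperset_card_eq (Finset.subset_univ s)
        hcard (by rw [Finset.card_univ]; exact hge)
      rw [Set.mem_iUnion₂]
      refine ⟨s', Finset.mem_powersetCard.2 ⟨Finset.subset_univ _, hs'c⟩, ?_⟩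
      have hvs : v s' = fun i => w ((s'.equivFinOfCardEq hs'c).symm i) := by
        rw [hv]; simp only [hs'c, dif_pos]
      rw [hvs]
      refine ⟨fun i => c ((s'.equivFinOfCardEq hs'c).symm i), ?_, ?_⟩
      · have h1 : ∑ i : Fin m, |c ((s'.equivFinOfCardEq hs'c).symm i)| = ∑ i : s', |c i| :=
          Equiv.sum_comp (s'.equivFinOfCardEq hs'c).symm (fun i : s' => |c i|)
        rw [h1, Finset.sum_coe_sort s' (fun i => |c i|)]
        refine le_trans ?_ hc
        exact Finset.sum_le_sum_of_subset_of_nonneg (Finset.subset_univ _)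
          (fun i _ _ => abs_nonneg _)
      · have h1 : ∑ i : Fin m, c ((s'.equivFinOfCardEq hs'c).symm i) •
            w ((s'.equivFinOfCardEq hs'c).symm i) = ∑ i : s', c i • w i :=
          Equiv.sum_comp (s'.equivFinOfCardEq hs'c).symm (fun i : s' => c i • w i)
        rw [h1, Finset.sum_coe_sort s' (fun i => c i • w i), hxe]
        symm
        apply Finset.sum_subset (Finset.subset_univ _)
        intro i _ hi
        rw [hc0 i (fun h => hi (hss' h)), zero_smul]
    have hvn : ∀ s' i, ‖v s' i‖ ≤ r := by
      intro s' i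
      rw [hv]
      by_cases h : s'.card = m
      · simp only [h, dif_pos]; exact hw _
      · simp only [h, dif_neg, not_false_iff]; rw [norm_zero]; exact hr
    calc volume (hullR lam w)
        ≤ volume (⋃ s' ∈ Finset.powersetCard m (Finset.univ : Finset ι), hullR lam (v s')) :=
          measure_mono hcov
      _ ≤ ∑ s' ∈ Finset.powersetCard m (Finset.univ : Finset ι), volume (hullR lam (v s')) :=
          measure_biUnion_finset_le _ _
      _ ≤ ∑ s' ∈ Finset.powersetCard m (Finset.univ : Finset ι),
            ENNReal.ofReal ((2 * lam * r) ^ m / (m.factorial : ℝ)) :=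
          Finset.sum_le_sum (fun s' _ => hfin (v s') (hvn s'))
      _ = _ := by
          rw [Finset.sum_const, Finset.card_powersetCard, Finset.card_univ, nsmul_eq_mul,
            ENNReal.ofReal_mul (Nat.cast_nonneg _), ENNReal.ofReal_natCast]


end Pool.Agent.Helper130.JB.D2
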