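import Mathlib
import Pool.Agent.Helper130.JB.Defs


set_option autoImplicit false
open scoped Topology ENNReal BigOperators
open MeasureTheory Filter Module

namespace Pool.Agent.Helper130.JB.D2a













/-- symmetric Caratheodory -/
theorem hullR_caratheodory {V : Type*} [AddCommGroup V] [Module ℝ V] {ι : Type*} [Fintype ι]
    (lam : ℝ) (w : ι → V) (x : V) (hx : x ∈ hullR lam w) :
    ∃ (s : Finset ι) (c : ι → ℝ), LinearIndependent ℝ (fun i : s => w i) ∧
      (∀ i ∉ s, c i = 0) ∧ ∑ i, |c i| ≤ lam ∧ x = ∑ i, c i • w i := by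
  classical
  have hex : ∃ k : ℕ, ∃ c : ι → ℝ, (Finset.univ.filter (fun i => c i ≠ 0)).card = k ∧
      ∑ i, |c i| ≤ lam ∧ x = ∑ i, c i • w i := by
    obtain ⟨c, h1, h2⟩ := hx
    exact ⟨_, c, rfl, h1, h2⟩
  obtain ⟨c, hck, hc1, hc2⟩ := Nat.find_spec hex
  have hmin : ∀ c' : ι → ℝ, ∑ i, |c' i| ≤ lam → x = ∑ i, c' i • w i →
      (Finset.univ.filter (fun i => c i ≠ 0)).card ≤
        (Finset.univ.filter (fun i => c' i ≠ 0)).card := by
    intro c' h1 h2
    rw [hck]
    exact Nat.find_min' hex ⟨c', rfl, h1, h2⟩
  refine ⟨Finset.univ.filter (fun i => c i ≠ 0), c, ?_, ?_, hc1, hc2⟩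
  · by_contra hli
    rw [Fintype.not_linearIndependent_iff] at hli
    obtain ⟨g, hg, i1, hi1⟩ := hli
    -- extend to all indices
    obtain ⟨D0, hD0, hD0ne, hD0c⟩ : ∃ D : ι → ℝ, ∑ i, D i • w i = 0 ∧ (∃ i, D i ≠ 0) ∧
        ∀ i, c i = 0 → D i = 0 := by
      obtain ⟨D, hin, hout⟩ : ∃ D : ι → ℝ,
          (∀ i (h : i ∈ Finset.univ.filter (fun i => c i ≠ 0)), D i = g ⟨i, h⟩) ∧
          (∀ i, i ∉ Finset.univ.filter (fun i => c i ≠ 0) → D i = 0) :=
        ⟨fun i => if h : i ∈ Finset.univ.filter (fun i => c i ≠ 0) then g ⟨i, h⟩ else 0,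
          fun i h => dif_pos h, fun i h => dif_neg h⟩
      refine ⟨D, ?_, ⟨i1, ?_⟩, ?_⟩
      · rw [← hg]
        symm
        refine Fintype.sum_of_injective (Subtype.val) Subtype.val_injective _ _ ?_ ?_
        · intro i hi
          have h1 : ¬ i ∈ Finset.univ.filter (fun i => c i ≠ 0) := by
            intro h
            exact hi ⟨⟨i, h⟩, rfl⟩
          rw [hout i h1, zero_smul]
        · rintro ⟨i, hi⟩
          rw [hin i hi]
      · rw [hin i1 i1.2]
        exact hi1
      · intro i hi
        apply hout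
        intro h
        exact (Finset.mem_filter.1 h).2 hi
    obtain ⟨D, hD, hDne, hDc, hDs⟩ : ∃ D : ι → ℝ, ∑ i, D i • w i = 0 ∧ (∃ i, D i ≠ 0) ∧
        (∀ i, c i = 0 → D i = 0) ∧ ∑ i, (c i / |c i|) * D i ≤ 0 := by
      rcases le_total (∑ i, (c i / |c i|) * D0 i) 0 with h | h
      · exact ⟨D0, hD0, hD0ne, hD0c, h⟩
      · refine ⟨fun i => - D0 i, ?_, ?_, ?_, ?_⟩
        · simp only [neg_smul, Finset.sum_neg_distrib, hD0, neg_zero]
        · obtain ⟨i, hi⟩ := hD0ne
          exact ⟨i, neg_ne_zero.2 hi⟩
        · intro i hi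
          show - D0 i = 0
          rw [hD0c i hi, neg_zero]
        · simp only [mul_neg, Finset.sum_neg_distrib]
          linarith
    obtain ⟨P, hP⟩ : ∃ P : Finset ι, P = Finset.univ.filter (fun i => c i * D i < 0) := ⟨_, rfl⟩
    have hPne : P.Nonempty := by
      by_contra hne
      rw [Finset.not_nonempty_iff_eq_empty] at hne
      have h1 : ∀ i, 0 ≤ c i * D i := by
        intro i
        by_contra hlt
        push Not at hlt
        have : i ∈ P := by rw [hP]; exact Finset.mem_filter.2 ⟨Finset.mem_univ _, hlt⟩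
        rw [hne] at this
        exact absurd this (Finset.notMem_empty _)
      have h2 : ∀ i, 0 ≤ (c i / |c i|) * D i := by
        intro i
        have e : (c i / |c i|) * D i = (c i * D i) / |c i| := by ring
        rw [e]
        exact div_nonneg (h1 i) (abs_nonneg _)
      have h3 : ∑ i, (c i / |c i|) * D i = 0 :=
        le_antisymm hDs (Finset.sum_nonneg fun i _ => h2 i)
      have h4 := (Finset.sum_eq_zero_iff_of_nonneg fun i _ => h2 i).1 h3
      obtain ⟨i, hi⟩ := hDne
      have h5 := h4 i (Finset.mem_univ _)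
      have h6 : c i ≠ 0 := fun h => hi (hDc i h)
      have h7 : c i / |c i| ≠ 0 := div_ne_zero h6 (abs_ne_zero.2 h6)
      rcases mul_eq_zero.1 h5 with h | h
      · exact h7 h
      · exact hi h
    obtain ⟨i0, hi0, hmin0⟩ := Finset.exists_min_image P (fun i => |c i| / |D i|) hPne
    obtain ⟨t, ht⟩ : ∃ t, t = |c i0| / |D i0| := ⟨_, rfl⟩
    have ht0 : 0 ≤ t := by rw [ht]; positivity
    have hkey : ∀ i, (0 < c i → 0 ≤ c i + t * D i) ∧ (c i < 0 → c i + t * D i ≤ 0) := by
      intro i
      have hPi : c i * D i < 0 → t * |D i| ≤ |c i| := by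
        intro h
        have h1 : i ∈ P := by rw [hP]; exact Finset.mem_filter.2 ⟨Finset.mem_univ _, h⟩
        have h2 := hmin0 i h1
        rw [← ht] at h2
        have h3 : D i ≠ 0 := by
          intro h0
          rw [h0, mul_zero] at h
          exact lt_irrefl _ h
        have h4 : 0 < |D i| := abs_pos.2 h3
        rwa [le_div_iff₀ h4] at h2
      constructor
      · intro hci
        rcases le_or_gt 0 (D i) with h | h
        · positivity
        · have h5 := hPi (mul_neg_of_pos_of_neg hci h)
          rw [abs_of_neg h, abs_of_pos hci] at h5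
          linarith
      · intro hci
        rcases le_or_gt (D i) 0 with h | h
        · have := mul_nonneg ht0 (neg_nonneg.2 h)
          linarith
        · have h5 := hPi (mul_neg_of_neg_of_pos hci h)
          rw [abs_of_pos h, abs_of_neg hci] at h5
          linarith
    have habs : ∀ i, |c i + t * D i| = |c i| + t * ((c i / |c i|) * D i) := by
      intro i
      rcases lt_trichotomy (c i) 0 with h | h | h
      · rw [abs_of_nonpos ((hkey i).2 h), abs_of_neg h]
        have : c i / -c i = -1 := by rw [div_neg, div_self h.ne]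
        rw [this]
        ring
      · rw [hDc i h, h]
        simp
      · rw [abs_of_nonneg ((hkey i).1 h), abs_of_pos h, div_self h.ne']
        ring
    have hc'1 : ∑ i, |c i + t * D i| ≤ lam := by
      simp_rw [habs]
      rw [Finset.sum_add_distrib, ← Finset.mul_sum]
      have := mul_nonneg ht0 (neg_nonneg.2 hDs)
      linarith
    have hc'2 : x = ∑ i, (c i + t * D i) • w i := by
      simp_rw [add_smul, mul_smul]
      rw [Finset.sum_add_distrib, ← Finset.smul_sum, hD, smul_zero, add_zero]
      exact hc2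
    have hcard := hmin (fun i => c i + t * D i) hc'1 hc'2
    have hi0' : c i0 * D i0 < 0 := by
      rw [hP] at hi0
      exact (Finset.mem_filter.1 hi0).2
    have hci0 : c i0 ≠ 0 := by
      intro h
      rw [h, zero_mul] at hi0'
      exact lt_irrefl _ hi0'
    have hDi0 : D i0 ≠ 0 := by
      intro h
      rw [h, mul_zero] at hi0'
      exact lt_irrefl _ hi0'
    have hzero : c i0 + t * D i0 = 0 := by
      rcases lt_or_gt_of_ne hDi0 with h | h
      · have h1 : 0 < c i0 := by
          by_contra h2
          push Not at h2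
          have := mul_nonneg_of_nonpos_of_nonpos h2 h.le
          linarith
        rw [ht, abs_of_pos h1, abs_of_neg h]
        field_simp
        ring
      · have h1 : c i0 < 0 := by
          by_contra h2
          push Not at h2
          have := mul_nonneg h2 h.le
          linarith
        rw [ht, abs_of_neg h1, abs_of_pos h]
        field_simp
        ring
    have hss : (Finset.univ.filter (fun i => c i + t * D i ≠ 0)) ⊂
        (Finset.univ.filter (fun i => c i ≠ 0)) := by
      rw [Finset.ssubset_iff_of_subset]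
      · refine ⟨i0, Finset.mem_filter.2 ⟨Finset.mem_univ _, hci0⟩, ?_⟩
        intro h
        exact (Finset.mem_filter.1 h).2 hzero
      · intro i hi
        rw [Finset.mem_filter] at hi ⊢
        refine ⟨hi.1, fun h => hi.2 ?_⟩
        rw [h, hDc i h]
        ring
    have := Finset.card_lt_card hss
    omega
  · intro i hi
    by_contra h
    exact hi (Finset.mem_filter.2 ⟨Finset.mem_univ _, h⟩)

end Pool.Agent.Helper130.JB.D2a
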