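import Mathlib
import Pool.Agent.Helper130.JB.Defs


set_option autoImplicit false
open scoped Topology ENNReal BigOperators
open MeasureTheory Filter Module

namespace Pool.Agent.Helper130.JB.D2b













theorem volume_hullR_fin_det (m : ℕ) (A : Eu m →ₗ[ℝ] Eu m) (r : ℝ)
    (hw : ∀ i, ‖A (EuclideanSpace.single i (1 : ℝ))‖ ≤ r) :
    |LinearMap.det A| ≤ r ^ m := by
  have : Fact (finrank ℝ (Eu m) = m) := ⟨finrank_euclideanSpace_fin⟩
  let b : OrthonormalBasis (Fin m) ℝ (Eu m) := EuclideanSpace.basisFun (Fin m) ℝ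
  have h1 := (b.toBasis.orientation).abs_volumeForm_apply_le (A ∘ b.toBasis)
  rw [(b.toBasis.orientation).volumeForm_robust b rfl, Module.Basis.det_comp,
    Module.Basis.det_self, mul_one] at h1
  refine h1.trans ?_
  calc ∏ i, ‖(A ∘ b.toBasis) i‖ ≤ ∏ _i : Fin m, r := by
        apply Finset.prod_le_prod (fun i _ => norm_nonneg _)
        intro i _
        have : (A ∘ b.toBasis) i = A (EuclideanSpace.single i (1 : ℝ)) := by
          simp [b]
        rw [this]
        exact hw i
    _ = r ^ m := by simp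

theorem volume_hullR_fin_ball (m : ℕ) (lam : ℝ) (hlam : 0 ≤ lam) :
    volume {c : Eu m | ∑ i, |c i| ≤ lam} ≤
      ENNReal.ofReal ((2 * lam) ^ m / (m.factorial : ℝ)) := by
  have hmp := PiLp.volume_preserving_toLp (Fin m)
  have hmeas : MeasurableSet {c : Eu m | ∑ i, |c i| ≤ lam} := by
    apply IsClosed.measurableSet
    apply isClosed_le _ continuous_const
    fun_prop
  have h1 := hmp.measure_preimage hmeas.nullMeasurableSet
  rw [← h1]
  rcases Nat.eq_zero_or_pos m with hm | hm
  · subst hm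
    refine (measure_mono (Set.subset_univ _)).trans ?_
    rw [volume_pi, Measure.pi_empty_univ]
    simp
  · have : Nonempty (Fin m) := ⟨⟨0, hm⟩⟩
    have h2 := MeasureTheory.volume_sum_rpow_le (ι := Fin m) (p := 1) le_rfl lam
    have h3 : (WithLp.toLp 2) ⁻¹' {c : Eu m | ∑ i, |c i| ≤ lam}
        = {x : Fin m → ℝ | (∑ i, |x i| ^ (1 : ℝ)) ^ (1 / (1 : ℝ)) ≤ lam} := by
      ext x
      simp
    rw [h3, h2]
    rw [← ENNReal.ofReal_pow hlam, ← ENNReal.ofReal_mul (pow_nonneg hlam _)]
    apply ENNReal.ofReal_le_ofReal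
    have h4 : Real.Gamma (1 / (1 : ℝ) + 1) = 1 := by
      have := Real.Gamma_nat_eq_factorial 1
      simpa using this
    have h5 : Real.Gamma ((Fintype.card (Fin m) : ℝ) / 1 + 1) = (m.factorial : ℝ) := by
      rw [Fintype.card_fin, div_one]
      exact Real.Gamma_nat_eq_factorial m
    rw [h4, h5, Fintype.card_fin, mul_one, mul_pow]
    apply le_of_eq
    ring

/-- volume of a cross-polytope with `m` generators -/
theorem volume_hullR_fin (m : ℕ) (lam r : ℝ) (hlam : 0 ≤ lam) (hr : 0 ≤ r)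
    (w : Fin m → Eu m) (hw : ∀ i, ‖w i‖ ≤ r) :
    volume (hullR lam w) ≤ ENNReal.ofReal ((2 * lam * r) ^ m / (m.factorial : ℝ)) := by
  let A : Eu m →ₗ[ℝ] Eu m :=
    (Fintype.linearCombination ℝ w).comp (WithLp.linearEquiv 2 ℝ (Fin m → ℝ)).toLinearMap
  have hA : ∀ c : Eu m, A c = ∑ i, c i • w i := fun c => by
    simp [A, Fintype.linearCombination_apply]
  have himg : hullR lam w = A '' {c : Eu m | ∑ i, |c i| ≤ lam} := by
    ext x
    constructor
    · rintro ⟨c, hc, rfl⟩
      refine ⟨WithLp.toLp 2 c, ?_, ?_⟩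
      · simpa using hc
      · rw [hA]
    · rintro ⟨c, hc, rfl⟩
      exact ⟨fun i => c i, hc, hA c⟩
  rw [himg, Measure.addHaar_image_linearMap]
  have hdet : |LinearMap.det A| ≤ r ^ m := by
    apply volume_hullR_fin_det
    intro i
    rw [hA]
    have : ∑ j, (EuclideanSpace.single i (1 : ℝ) : Eu m) j • w j = w i := by
      rw [Finset.sum_eq_single i]
      · simp
      · intro j _ hj
        simp [hj]
      · intro h
        exact absurd (Finset.mem_univ i) h
    rw [this]
    exact hw i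
  calc ENNReal.ofReal |LinearMap.det A| * volume {c : Eu m | ∑ i, |c i| ≤ lam}
      ≤ ENNReal.ofReal (r ^ m) * ENNReal.ofReal ((2 * lam) ^ m / (m.factorial : ℝ)) :=
        mul_le_mul' (ENNReal.ofReal_le_ofReal hdet) (volume_hullR_fin_ball m lam hlam)
    _ = ENNReal.ofReal ((2 * lam * r) ^ m / (m.factorial : ℝ)) := by
        rw [← ENNReal.ofReal_mul (pow_nonneg hr _)]
        congr 1
        rw [mul_pow (2 * lam) r m]
        ring

end Pool.Agent.Helper130.JB.D2b
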