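import Mathlib
import Pool.Agent.Helper130.JB.Defs


set_option autoImplicit false
open scoped Topology ENNReal BigOperators
open MeasureTheory Filter Module

namespace Pool.Agent.Helper130.JB.D3













theorem vbl_split (n m : ℕ) (b : OrthonormalBasis (Fin m ⊕ Fin (n - m)) ℝ (Eu n)) :
    MeasurePreserving (fun y : Eu n =>
      ((WithLp.toLp 2 (fun i => b.repr y (Sum.inl i)) : Eu m),
        (WithLp.toLp 2 (fun i => b.repr y (Sum.inr i)) : Eu (n - m)))) volume
      ((volume : Measure (Eu m)).prod (volume : Measure (Eu (n - m)))) := by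
  have h1 := b.measurePreserving_repr
  have h2 := PiLp.volume_preserving_ofLp (Fin m ⊕ Fin (n - m))
  have h3 := volume_measurePreserving_sumPiEquivProdPi (fun _ : Fin m ⊕ Fin (n - m) => ℝ)
  have h4 := (PiLp.volume_preserving_toLp (Fin m)).prod (PiLp.volume_preserving_toLp (Fin (n - m)))
  exact h4.comp (h3.comp (h2.comp h1))

theorem vbl_closed {N n m : ℕ} (lam : ℝ) (A : (Fin N → Eu m) × (Fin N → Eu (n - m)) → Eu m)
    (hA : Continuous A)
    (w : (Fin N → Eu m) × (Fin N → Eu (n - m)) → Fin N ⊕ Fin n → Eu m)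
    (hw : ∀ i, Continuous fun p => w p i) :
    IsClosed {p | A p ∈ hullR lam (w p)} := by
  let K : Set (Fin N ⊕ Fin n → ℝ) := {c | ∑ i, |c i| ≤ lam}
  have hKc : IsClosed K := by
    apply isClosed_le _ continuous_const
    fun_prop
  have hKb : K ⊆ Set.pi Set.univ (fun _ => Set.Icc (-lam) lam) := by
    intro c hc i _
    have h1 : |c i| ≤ lam :=
      (Finset.single_le_sum (f := fun i => |c i|) (fun _ _ => abs_nonneg _)
        (Finset.mem_univ i)).trans hc
    exact abs_le.1 h1
  have hKk : IsCompact K :=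
    (isCompact_univ_pi fun _ => isCompact_Icc).of_isClosed_subset hKc hKb
  have : CompactSpace K := isCompact_iff_compactSpace.1 hKk
  have e : {p | A p ∈ hullR lam (w p)} =
      Prod.fst '' {q : ((Fin N → Eu m) × (Fin N → Eu (n - m))) × K |
        A q.1 = ∑ i, (q.2 : Fin N ⊕ Fin n → ℝ) i • w q.1 i} := by
    ext p
    constructor
    · rintro ⟨c, hc, hx⟩
      exact ⟨(p, ⟨c, hc⟩), hx, rfl⟩
    · rintro ⟨⟨p', c⟩, hx, rfl⟩
      exact ⟨c.1, c.2, hx⟩
  rw [e]
  apply isClosedMap_fst_of_compactSpace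
  apply isClosed_eq
  · exact hA.comp continuous_fst
  · apply continuous_finsetSum
    intro i _
    exact Continuous.smul (f := fun a : ((Fin N → Eu m) × (Fin N → Eu (n - m))) × K =>
        (a.2 : Fin N ⊕ Fin n → ℝ) i)
      (g := fun a : ((Fin N → Eu m) × (Fin N → Eu (n - m))) × K => w a.1 i)
      ((continuous_apply i).comp (continuous_subtype_val.comp continuous_snd))
      ((hw i).comp continuous_fst)

theorem volume_bad_le (n m N : ℕ) (hm : m ≤ n) (R lam : ℝ) (hR : 0 ≤ R) (hlam : 0 ≤ lam)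
    (T : Eu n →ₗ[ℝ] Eu n) (hT : Mixing n m R T) (V : ℝ≥0∞)
    (hV : ∀ w : Fin N ⊕ Fin n → Eu m, (∀ i, ‖w i‖ ≤ R * √(n : ℝ)) → volume (hullR lam w) ≤ V) :
    volume {Γ : Fin N → Eu n | (∀ j, ‖Γ j‖ ≤ √(n : ℝ)) ∧ ∀ j, T (Γ j) ∈ hullR lam (full Γ)} ≤
      (volume (Metric.closedBall (0 : Eu (n - m)) (√(n : ℝ))) * V) ^ N := by
  classical
  obtain ⟨J, Ψ, hΨJ, hΨT, hΨ⟩ := hT
  have hcard : finrank ℝ (Eu n) = Fintype.card (Fin m ⊕ Fin (n - m)) := by
    rw [finrank_euclideanSpace_fin, Fintype.card_sum, Fintype.card_fin, Fintype.card_fin]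
    omega
  let v : Fin m ⊕ Fin (n - m) → Eu n :=
    Sum.elim (fun i => J (EuclideanSpace.single i (1 : ℝ))) (fun _ => 0)
  have hv : Orthonormal ℝ ((Set.range Sum.inl).domRestrict v) := by
    have h1 : Orthonormal ℝ (fun i : Fin m => J (EuclideanSpace.single i (1 : ℝ))) := by
      have := (EuclideanSpace.orthonormal_single (ι := Fin m) (𝕜 := ℝ))
      exact this.comp_linearIsometry J
    rw [orthonormal_iff_ite] at h1 ⊢
    rintro ⟨_, ⟨i, rfl⟩⟩ ⟨_, ⟨j, rfl⟩⟩
    have := h1 i j
    simp only [Set.domRestrict_apply, v, Sum.elim_inl]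
    rw [this]
    by_cases hij : i = j
    · subst hij
      simp
    · rw [if_neg hij, if_neg]
      intro h
      exact hij (Sum.inl.inj (congrArg Subtype.val h))
  obtain ⟨b, hb⟩ := Orthonormal.exists_orthonormalBasis_extension_of_card_eq hcard hv
  have hbl : ∀ i, b (Sum.inl i) = J (EuclideanSpace.single i (1 : ℝ)) := fun i =>
    hb (Sum.inl i) ⟨i, rfl⟩
  -- the linear map J'
  let J' : Eu (n - m) →ₗ[ℝ] Eu n :=
    { toFun := fun z => ∑ i, z i • b (Sum.inr i)
      map_add' := fun x y => by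
        rw [← Finset.sum_add_distrib]
        apply Finset.sum_congr rfl
        intro i _
        rw [← add_smul]
        rfl
      map_smul' := fun a x => by
        rw [Finset.smul_sum]
        apply Finset.sum_congr rfl
        intro i _
        rw [smul_smul]
        rfl }
  have hJ'def : ∀ z, J' z = ∑ i, z i • b (Sum.inr i) := fun z => rfl
  have hJsum : ∀ x : Eu m, J x = ∑ i, x i • b (Sum.inl i) := by
    intro x
    conv_lhs => rw [← (EuclideanSpace.basisFun (Fin m) ℝ).sum_repr x]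
    rw [map_sum]
    apply Finset.sum_congr rfl
    intro i _
    rw [map_smul, hbl]
    simp
  let X : Eu n → Eu m := fun y => WithLp.toLp 2 (fun i => b.repr y (Sum.inl i))
  let Zc : Eu n → Eu (n - m) := fun y => WithLp.toLp 2 (fun i => b.repr y (Sum.inr i))
  have hdecomp : ∀ y, J (X y) + J' (Zc y) = y := by
    intro y
    rw [hJsum, hJ'def]
    conv_rhs => rw [← b.sum_repr y, Fintype.sum_sum_type]
  have hnormsq : ∀ y : Eu n, ‖y‖ ^ 2 = ∑ i, (b.repr y (Sum.inl i)) ^ 2 + ∑ i, (b.repr y (Sum.inr i)) ^ 2 := by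
    intro y
    rw [← b.repr.norm_map y, EuclideanSpace.real_norm_sq_eq, Fintype.sum_sum_type]
  have hZn : ∀ y, ‖Zc y‖ ≤ ‖y‖ := by
    intro y
    apply le_of_sq_le_sq _ (norm_nonneg _)
    rw [hnormsq y, EuclideanSpace.real_norm_sq_eq]
    have : 0 ≤ ∑ i, (b.repr y (Sum.inl i)) ^ 2 := Finset.sum_nonneg fun i _ => sq_nonneg _
    show ∑ i, (b.repr y (Sum.inr i)) ^ 2 ≤ _
    linarith
  have hJ'n : ∀ z, ‖J' z‖ ≤ ‖z‖ := by
    intro z
    apply le_of_sq_le_sq _ (norm_nonneg _)
    have e : b.repr (J' z) = WithLp.toLp 2 (Sum.elim (fun _ => 0) (fun i => z i)) := by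
      apply b.repr.symm.injective
      rw [LinearIsometryEquiv.symm_apply_apply, hJ'def, ← b.sum_repr_symm, Fintype.sum_sum_type]
      simp
    rw [hnormsq, EuclideanSpace.real_norm_sq_eq, e]
    simp
  -- measure preserving map
  have hmp1 : MeasurePreserving (fun y : Eu n => (X y, Zc y)) volume
      ((volume : Measure (Eu m)).prod (volume : Measure (Eu (n - m)))) := vbl_split n m b
  have hmp2 : MeasurePreserving (fun (Γ : Fin N → Eu n) (j : Fin N) => (X (Γ j), Zc (Γ j)))
      volume volume := volume_preserving_pi (fun _ => hmp1)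
  have hmp3 := volume_measurePreserving_arrowProdEquivProdArrow (Eu m) (Eu (n - m)) (Fin N)
  have hmp : MeasurePreserving (fun (Γ : Fin N → Eu n) =>
      ((fun j => X (Γ j), fun j => Zc (Γ j)) : (Fin N → Eu m) × (Fin N → Eu (n - m))))
      volume (volume.prod volume) := hmp3.comp hmp2
  let w : (Fin N → Eu m) × (Fin N → Eu (n - m)) → Fin N ⊕ Fin n → Eu m := fun p =>
    Sum.elim (fun j => Ψ (J' (p.2 j)))
      (fun i => (√(n : ℝ)) • Ψ (EuclideanSpace.single i (1 : ℝ)))
  have hΨc : Continuous Ψ := Ψ.continuous_of_finiteDimensional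
  have hJ'c : Continuous J' := J'.continuous_of_finiteDimensional
  have hTc : Continuous T := T.continuous_of_finiteDimensional
  have hwc : ∀ i, Continuous fun p => w p i := by
    rintro (i | i)
    · exact hΨc.comp (hJ'c.comp ((continuous_apply i).comp continuous_snd))
    · exact continuous_const
  let S : Set ((Fin N → Eu m) × (Fin N → Eu (n - m))) :=
    {p | (∀ j, ‖p.2 j‖ ≤ √(n : ℝ)) ∧ ∀ j, p.1 j + Ψ (T (J' (p.2 j))) ∈ hullR lam (w p)}
  have hSc : IsClosed S := by
    have h1 : IsClosed {p : (Fin N → Eu m) × (Fin N → Eu (n - m)) | ∀ j, ‖p.2 j‖ ≤ √(n : ℝ)} := by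
      rw [Set.ofPred_forall]
      apply isClosed_iInter
      intro j
      apply isClosed_le _ continuous_const
      exact ((continuous_apply j).comp continuous_snd).norm
    have h2 : IsClosed {p : (Fin N → Eu m) × (Fin N → Eu (n - m)) |
        ∀ j, p.1 j + Ψ (T (J' (p.2 j))) ∈ hullR lam (w p)} := by
      rw [Set.ofPred_forall]
      apply isClosed_iInter
      intro j
      apply vbl_closed lam (fun p => p.1 j + Ψ (T (J' (p.2 j)))) _ w hwc
      apply Continuous.add
      · exact (continuous_apply j).comp continuous_fst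
      · exact hΨc.comp (hTc.comp (hJ'c.comp ((continuous_apply j).comp continuous_snd)))
    exact h1.inter h2
  have hsub : {Γ : Fin N → Eu n | (∀ j, ‖Γ j‖ ≤ √(n : ℝ)) ∧ ∀ j, T (Γ j) ∈ hullR lam (full Γ)} ⊆
      (fun (Γ : Fin N → Eu n) =>
      ((fun j => X (Γ j), fun j => Zc (Γ j)) : (Fin N → Eu m) × (Fin N → Eu (n - m)))) ⁻¹' S := by
    rintro Γ ⟨hΓ1, hΓ2⟩
    refine ⟨fun j => (hZn _).trans (hΓ1 j), fun j => ?_⟩
    obtain ⟨c, hc, hx⟩ := hΓ2 j
    refine ⟨c, hc, ?_⟩
    have e1 : Ψ (T (Γ j)) = X (Γ j) + Ψ (T (J' (Zc (Γ j)))) := by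
      conv_lhs => rw [← hdecomp (Γ j), map_add, map_add, hΨT]
    show X (Γ j) + Ψ (T (J' (Zc (Γ j)))) = _
    rw [← e1, hx, map_sum]
    apply Finset.sum_congr rfl
    intro i _
    rw [map_smul]
    congr 1
    rcases i with i | i
    · show Ψ (Γ i) = Ψ (J' (Zc (Γ i)))
      conv_lhs => rw [← hdecomp (Γ i), map_add, hΨJ, zero_add]
    · show Ψ ((√(n : ℝ)) • EuclideanSpace.single i (1 : ℝ)) = _
      rw [map_smul]
      rfl
  have hw : ∀ p : (Fin N → Eu m) × (Fin N → Eu (n - m)), (∀ j, ‖p.2 j‖ ≤ √(n : ℝ)) →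
      ∀ i, ‖w p i‖ ≤ R * √(n : ℝ) := by
    intro p hp i
    rcases i with i | i
    · show ‖Ψ (J' (p.2 i))‖ ≤ _
      refine (hΨ _).trans (mul_le_mul_of_nonneg_left ((hJ'n _).trans (hp i)) hR)
    · show ‖(√(n : ℝ)) • Ψ (EuclideanSpace.single i (1 : ℝ))‖ ≤ _
      rw [norm_smul, Real.norm_of_nonneg (Real.sqrt_nonneg _), mul_comm]
      apply mul_le_mul_of_nonneg_right _ (Real.sqrt_nonneg _)
      have := hΨ (EuclideanSpace.single i (1 : ℝ))
      simpa using this
  have hSm : MeasurableSet S := hSc.measurableSet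
  refine (measure_mono hsub).trans ?_
  rw [hmp.measure_preimage hSm.nullMeasurableSet, Measure.prod_apply_symm hSm]
  have hfib : ∀ z : Fin N → Eu (n - m), volume ((fun x => (x, z)) ⁻¹' S) ≤
      (Set.pi Set.univ (fun _ : Fin N => Metric.closedBall (0 : Eu (n - m)) (√(n : ℝ)))).indicator
        (fun _ => V ^ N) z := by
    intro z
    by_cases hz : ∀ j, ‖z j‖ ≤ √(n : ℝ)
    · rw [Set.indicator_of_mem]
      · have e : (fun x : Fin N → Eu m => (x, z)) ⁻¹' S = Set.pi Set.univ (fun j =>
            (fun y : Eu m => y + Ψ (T (J' (z j)))) ⁻¹' (hullR lam (w (0, z)))) := by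
          ext x
          constructor
          · rintro ⟨_, h2⟩ j _
            exact h2 j
          · intro h
            exact ⟨hz, fun j => h j (Set.mem_univ j)⟩
        rw [e, volume_pi_pi]
        have h1 : ∀ j, volume ((fun y : Eu m => y + Ψ (T (J' (z j)))) ⁻¹'
            (hullR lam (w (0, z)))) ≤ V := by
          intro j
          rw [measure_preimage_add_right]
          exact hV _ (hw (0, z) hz)
        calc ∏ j, volume ((fun y : Eu m => y + Ψ (T (J' (z j)))) ⁻¹' (hullR lam (w (0, z)))) ≤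
            ∏ _j : Fin N, V := Finset.prod_le_prod' fun j _ => h1 j
          _ = V ^ N := by simp
      · intro j _
        rw [mem_closedBall_zero_iff]
        exact hz j
    · have : (fun x : Fin N → Eu m => (x, z)) ⁻¹' S = ∅ := by
        ext x
        constructor
        · rintro ⟨h1, _⟩
          exact (hz h1).elim
        · intro h
          exact h.elim
      rw [this, measure_empty]
      exact zero_le
  refine (lintegral_mono hfib).trans ?_
  rw [lintegral_indicator (MeasurableSet.univ_pi fun _ => Metric.isClosed_closedBall.measurableSet),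
    setLIntegral_const, volume_pi_pi, Finset.prod_const, Finset.card_univ, Fintype.card_fin,
    mul_pow, mul_comm]

end Pool.Agent.Helper130.JB.D3
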