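import Mathlib
import Pool.Agent.Helper130.JB.Defs


set_option autoImplicit false
open scoped Topology ENNReal BigOperators
open MeasureTheory Filter Module

namespace Pool.Agent.Helper130.JB.D3b













theorem ball_formula (k : ℕ) (r : ℝ) (hr : 0 ≤ r) :
    volume (Metric.closedBall (0 : Eu k) r) =
      ENNReal.ofReal (r ^ k * (√Real.pi ^ k / Real.Gamma ((k:ℝ) / 2 + 1))) := by
  rcases Nat.eq_zero_or_pos k with hk | hk
  · subst hk
    have h1 : (Metric.closedBall (0 : Eu 0) r) = Set.univ := by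
      ext x
      have hx : x = 0 := Subsingleton.elim _ _
      simp [hx, hr]
    rw [h1, volume_euclideanSpace_eq_dirac]
    simp
  · have : Nonempty (Fin k) := ⟨⟨0, hk⟩⟩
    rw [EuclideanSpace.volume_closedBall, Fintype.card_fin, ← ENNReal.ofReal_pow hr,
      ENNReal.ofReal_mul (pow_nonneg hr k)]

theorem ball_step (n k : ℕ) (h : k + 2 ≤ n) :
    (√(n:ℝ)) ^ k * (√Real.pi ^ k / Real.Gamma ((k:ℝ) / 2 + 1)) ≤
      (√(n:ℝ)) ^ (k + 2) * (√Real.pi ^ (k + 2) / Real.Gamma (((k + 2 : ℕ):ℝ) / 2 + 1)) := by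
  have hk : (0:ℝ) < (k:ℝ) / 2 + 1 := by positivity
  have hG : 0 < Real.Gamma ((k:ℝ) / 2 + 1) := Real.Gamma_pos_of_pos hk
  have e1 : Real.Gamma (((k + 2 : ℕ):ℝ) / 2 + 1) = ((k:ℝ) / 2 + 1) * Real.Gamma ((k:ℝ) / 2 + 1) := by
    rw [← Real.Gamma_add_one hk.ne']
    congr 1
    push_cast
    ring
  rw [e1, pow_add, pow_add, Real.sq_sqrt (Nat.cast_nonneg n), Real.sq_sqrt Real.pi_pos.le]
  have hn : ((k:ℝ) + 2) ≤ n := by exact_mod_cast h
  have hpi : (1:ℝ) ≤ Real.pi := by linarith [Real.pi_gt_three]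
  have e2 : (√(n:ℝ)) ^ k * n * (√Real.pi ^ k * Real.pi / (((k:ℝ) / 2 + 1) * Real.Gamma ((k:ℝ) / 2 + 1))) =
      ((√(n:ℝ)) ^ k * (√Real.pi ^ k / Real.Gamma ((k:ℝ) / 2 + 1))) * (n * Real.pi / ((k:ℝ) / 2 + 1)) := by
    field_simp
  rw [e2]
  have hA : 0 ≤ (√(n:ℝ)) ^ k * (√Real.pi ^ k / Real.Gamma ((k:ℝ) / 2 + 1)) := by positivity
  have hB : 1 ≤ n * Real.pi / ((k:ℝ) / 2 + 1) := by
    rw [le_div_iff₀ hk]
    have h1 : (n:ℝ) * 1 ≤ n * Real.pi := mul_le_mul_of_nonneg_left hpi (Nat.cast_nonneg n)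
    linarith
  calc (√(n:ℝ)) ^ k * (√Real.pi ^ k / Real.Gamma ((k:ℝ) / 2 + 1))
      = ((√(n:ℝ)) ^ k * (√Real.pi ^ k / Real.Gamma ((k:ℝ) / 2 + 1))) * 1 := by ring
    _ ≤ _ := mul_le_mul_of_nonneg_left hB hA

theorem ball_ind (n l : ℕ) (h : 2 * l ≤ n) :
    (√(n:ℝ)) ^ (n - 2 * l) * (√Real.pi ^ (n - 2 * l) / Real.Gamma (((n - 2 * l : ℕ):ℝ) / 2 + 1)) ≤
      (√(n:ℝ)) ^ n * (√Real.pi ^ n / Real.Gamma ((n:ℝ) / 2 + 1)) := by
  induction l with
  | zero => simp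
  | succ l ih =>
    refine le_trans ?_ (ih (by omega))
    have h1 := ball_step n (n - 2 * (l + 1)) (by omega)
    have e : n - 2 * (l + 1) + 2 = n - 2 * l := by omega
    rw [e] at h1
    exact h1

theorem ball_compare (n l : ℕ) (h : 2 * l ≤ n) :
    volume (Metric.closedBall (0 : Eu (n - 2 * l)) (√(n : ℝ))) ≤
      volume (Metric.closedBall (0 : Eu n) (√(n : ℝ))) := by
  rw [ball_formula _ _ (Real.sqrt_nonneg _), ball_formula _ _ (Real.sqrt_nonneg _)]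
  exact ENNReal.ofReal_le_ofReal (ball_ind n l h)

end Pool.Agent.Helper130.JB.D3b
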