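import Mathlib
import Pool.Agent.Helper130.JB.Defs


set_option autoImplicit false
open scoped Topology ENNReal BigOperators
open MeasureTheory Filter Module

namespace Pool.Agent.Helper130.JB.D5













theorem mixing_perturb (n m : ℕ) (R : ℝ) (hR : 0 < R) (T T' : Eu n →ₗ[ℝ] Eu n)
    (hT : Mixing n m R T) (h : ∀ x, ‖T x - T' x‖ ≤ 1 / (2 * R) * ‖x‖) :
    Mixing n m (2 * R) T' := by
  obtain ⟨J, Ψ, h1, h2, h3⟩ := hT
  set M : Eu m →ₗ[ℝ] Eu m := Ψ ∘ₗ T' ∘ₗ J.toLinearMap with hM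
  have hMx : ∀ x, M x = Ψ (T' (J x)) := fun x => rfl
  have hdiff : ∀ x, ‖x - M x‖ ≤ ‖x‖ / 2 := by
    intro x
    have e1 : x - M x = Ψ (T (J x) - T' (J x)) := by
      rw [map_sub, h2, hMx]
    rw [e1]
    calc ‖Ψ (T (J x) - T' (J x))‖ ≤ R * ‖T (J x) - T' (J x)‖ := h3 _
      _ ≤ R * (1 / (2 * R) * ‖J x‖) := by
          gcongr
          exact h (J x)
      _ = ‖x‖ / 2 := by
          rw [J.norm_map]
          field_simp
  have hlow : ∀ x, ‖x‖ ≤ 2 * ‖M x‖ := by
    intro x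
    have e1 : ‖x‖ ≤ ‖x - M x‖ + ‖M x‖ := by
      calc ‖x‖ = ‖(x - M x) + M x‖ := by rw [sub_add_cancel]
        _ ≤ _ := norm_add_le _ _
    have e2 := hdiff x
    linarith
  have hinj : Function.Injective M := by
    rw [injective_iff_map_eq_zero]
    intro x hx
    have e1 := hlow x
    rw [hx, norm_zero, mul_zero] at e1
    exact norm_le_zero_iff.1 e1
  set e := LinearEquiv.ofInjectiveEndo M hinj with he
  have hex : ∀ y, M (e.symm y) = y := fun y => by
    have : e (e.symm y) = y := e.apply_symm_apply y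
    exact this
  refine ⟨J, e.symm.toLinearMap ∘ₗ Ψ, ?_, ?_, ?_⟩
  · intro x
    simp [h1]
  · intro x
    show e.symm (Ψ (T' (J x))) = x
    rw [← hMx]
    exact e.symm_apply_apply x
  · intro y
    show ‖e.symm (Ψ y)‖ ≤ _
    have e1 := hlow (e.symm (Ψ y))
    rw [hex] at e1
    have e2 := h3 y
    linarith

end Pool.Agent.Helper130.JB.D5
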