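import Mathlib
import Pool.Agent.Helper130.JB.Defs


set_option autoImplicit false
open scoped Topology ENNReal BigOperators
open MeasureTheory Filter Module

namespace Pool.Agent.Helper130.JB.D6













theorem rounding (n : ℕ) (B ρ : ℝ) (hρ : 0 < ρ) (q : ℕ) (hq : B ≤ ρ * q)
    (T : Eu n →ₗ[ℝ] Eu n) (hT : ∀ i, ‖T (EuclideanSpace.single i (1 : ℝ))‖ ≤ B) :
    ∃ Z : Fin n → Fin n → ℤ, (∀ i j, |Z i j| ≤ (q : ℤ)) ∧
      ∀ x, ‖T x - Matrix.toEuclideanLin (Matrix.of fun i j => ρ * (Z i j : ℝ)) x‖ ≤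
        n * ρ * ‖x‖ := by
  have hTij : ∀ i j, |T (EuclideanSpace.single j (1 : ℝ)) i| ≤ ρ * q := by
    intro i j
    calc |T (EuclideanSpace.single j (1 : ℝ)) i| = ‖T (EuclideanSpace.single j (1 : ℝ)) i‖ :=
          (Real.norm_eq_abs _).symm
      _ ≤ ‖T (EuclideanSpace.single j (1 : ℝ))‖ := PiLp.norm_apply_le _ _
      _ ≤ B := hT j
      _ ≤ ρ * q := hq
  refine ⟨fun i j => ⌊T (EuclideanSpace.single j (1 : ℝ)) i / ρ⌋, ?_, ?_⟩
  · intro i j
    have h1 := hTij i j
    rw [abs_le] at h1 ⊢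
    constructor
    · rw [Int.le_floor]
      push_cast
      rw [le_div_iff₀ hρ]
      linarith
    · have h2 : (⌊T (EuclideanSpace.single j (1 : ℝ)) i / ρ⌋ : ℝ) ≤ (q : ℝ) := by
        refine (Int.floor_le _).trans ?_
        rw [div_le_iff₀ hρ]
        linarith
      exact_mod_cast h2
  · intro x
    obtain ⟨Z, hZ⟩ : ∃ Z : Fin n → Fin n → ℤ,
      Z = fun i j => ⌊T (EuclideanSpace.single j (1 : ℝ)) i / ρ⌋ := ⟨_, rfl⟩
    have hd : ∀ i j, (T (EuclideanSpace.single j (1 : ℝ)) i - ρ * (Z i j : ℝ)) ^ 2 ≤ ρ ^ 2 := by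
      intro i j
      rw [hZ]
      have h1 := Int.floor_le (T (EuclideanSpace.single j (1 : ℝ)) i / ρ)
      have h2 := Int.lt_floor_add_one (T (EuclideanSpace.single j (1 : ℝ)) i / ρ)
      rw [le_div_iff₀ hρ] at h1
      rw [div_lt_iff₀ hρ] at h2
      rw [sq_le_sq₀]
      · linarith
      · linarith
      · exact hρ.le
    have hx : ∀ i, T x i = ∑ j, x j * T (EuclideanSpace.single j (1 : ℝ)) i := by
      intro i
      have h1 : x = ∑ j, x j • (EuclideanSpace.single j (1 : ℝ) : Eu n) := by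
        ext k
        simp [Finset.sum_apply, Pi.single_apply]
      conv_lhs => rw [h1]
      rw [map_sum]
      simp
    have hv : ∀ i, (T x - Matrix.toEuclideanLin (Matrix.of fun i j => ρ * (Z i j : ℝ)) x) i =
        ∑ j, (T (EuclideanSpace.single j (1 : ℝ)) i - ρ * (Z i j : ℝ)) * x j := by
      intro i
      have h1 : (Matrix.toEuclideanLin (Matrix.of fun i j => ρ * (Z i j : ℝ)) x) i =
          ∑ j, ρ * (Z i j : ℝ) * x j := by
        simp [Matrix.toEuclideanLin, Matrix.mulVec, dotProduct]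
      rw [PiLp.sub_apply, h1, hx, ← Finset.sum_sub_distrib]
      apply Finset.sum_congr rfl
      intro j _
      ring
    rw [← hZ]
    have hnx : ‖x‖ ^ 2 = ∑ j, x j ^ 2 := EuclideanSpace.real_norm_sq_eq x
    have hsq : ‖T x - Matrix.toEuclideanLin (Matrix.of fun i j => ρ * (Z i j : ℝ)) x‖ ^ 2 ≤
        (n * ρ * ‖x‖) ^ 2 := by
      rw [EuclideanSpace.real_norm_sq_eq]
      calc ∑ i, ((T x - Matrix.toEuclideanLin (Matrix.of fun i j => ρ * (Z i j : ℝ)) x) i) ^ 2
          ≤ ∑ i : Fin n, (n * ρ ^ 2) * ‖x‖ ^ 2 := by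
            apply Finset.sum_le_sum
            intro i _
            rw [hv, hnx]
            refine (Finset.sum_mul_sq_le_sq_mul_sq _ _ _).trans ?_
            apply mul_le_mul_of_nonneg_right _ (Finset.sum_nonneg (fun j _ => sq_nonneg _))
            calc ∑ j, (T (EuclideanSpace.single j (1 : ℝ)) i - ρ * (Z i j : ℝ)) ^ 2
                ≤ ∑ j : Fin n, ρ ^ 2 := Finset.sum_le_sum (fun j _ => hd i j)
              _ = n * ρ ^ 2 := by simp
        _ = (n * ρ * ‖x‖) ^ 2 := by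
            rw [Finset.sum_const, Finset.card_univ, Fintype.card_fin, nsmul_eq_mul]
            ring
    exact (sq_le_sq₀ (norm_nonneg _) (by positivity)).1 hsq

end Pool.Agent.Helper130.JB.D6
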