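import Mathlib
import Pool.Agent.Helper130.JB.Defs


set_option autoImplicit false
open scoped Topology ENNReal BigOperators
open MeasureTheory Filter Module

namespace Pool.Agent.Helper130.JB.D7













theorem nc_bracket (θ R : ℝ) (hθ2 : θ < 1 / 2) (hR : 1 ≤ R) (L B n m : ℕ)
    (hn : 1 ≤ n) (hm0 : 0 < m) (hmL : n ≤ m * L) :
    (((L * B * n + n).choose m : ℝ) *
          ((2 * ((n : ℝ) ^ (1 / 2 - θ) + 1) * (2 * R * √(n : ℝ))) ^ m /
            (m.factorial : ℝ))) ≤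
      ((72 * (L * B + 1) * L ^ 2 * R) * (n : ℝ) ^ (-θ)) ^ m := by
  have hn1 : (1 : ℝ) ≤ n := by exact_mod_cast hn
  have hn0 : (0 : ℝ) < n := by linarith
  have hm0' : (0 : ℝ) < m := by exact_mod_cast hm0
  have hmL' : (n : ℝ) ≤ m * L := by exact_mod_cast hmL
  have hfac : (0 : ℝ) < (m.factorial : ℝ) := by exact_mod_cast m.factorial_pos
  set X : ℝ := 2 * ((n : ℝ) ^ (1 / 2 - θ) + 1) * (2 * R * √(n : ℝ)) with hX
  set M : ℝ := (L * B + 1) * n with hM
  have hM0 : 0 < M := by positivity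
  have hX0 : 0 < X := by positivity
  have h1 : ((L * B * n + n).choose m : ℝ) ≤ M ^ m / (m.factorial : ℝ) := by
    have := Nat.choose_le_pow_div (α := ℝ) m (L * B * n + n)
    refine this.trans (le_of_eq ?_)
    congr 2
    rw [hM]
    push_cast
    ring
  have h2 : (m : ℝ) ^ m / (m.factorial : ℝ) ≤ 3 ^ m := by
    have h := Real.pow_div_factorial_le_exp (x := (m : ℝ)) hm0'.le m
    refine h.trans ?_
    have : Real.exp (m : ℝ) = (Real.exp 1) ^ m := by
      rw [← Real.exp_nat_mul, mul_one]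
    rw [this]
    exact pow_le_pow_left₀ (Real.exp_pos _).le Real.exp_one_lt_three.le m
  have h3 : 1 / (m.factorial : ℝ) ≤ (3 / m) ^ m := by
    rw [div_pow, le_div_iff₀ (by positivity)]
    calc 1 / (m.factorial : ℝ) * (m : ℝ) ^ m = (m : ℝ) ^ m / (m.factorial : ℝ) := by ring
      _ ≤ 3 ^ m := h2
  have h4 : X ≤ 8 * R * ((n : ℝ) * (n : ℝ) ^ (-θ)) := by
    have h5 : (1 : ℝ) ≤ (n : ℝ) ^ (1 / 2 - θ) := Real.one_le_rpow hn1 (by linarith)
    have h6 : (n : ℝ) ^ (1 / 2 - θ) * √(n : ℝ) = (n : ℝ) * (n : ℝ) ^ (-θ) := by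
      rw [Real.sqrt_eq_rpow, ← Real.rpow_add hn0]
      nth_rewrite 2 [← Real.rpow_one (n : ℝ)]
      rw [← Real.rpow_add hn0]
      congr 1
      ring
    rw [hX, ← h6]
    have h7 : 0 ≤ R * √(n : ℝ) := by positivity
    nlinarith [mul_le_mul_of_nonneg_left h5 h7]
  calc ((L * B * n + n).choose m : ℝ) * (X ^ m / (m.factorial : ℝ))
      ≤ (M ^ m / (m.factorial : ℝ)) * (X ^ m / (m.factorial : ℝ)) := by
        apply mul_le_mul_of_nonneg_right h1
        positivity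
    _ = M ^ m * X ^ m * ((1 / (m.factorial : ℝ)) * (1 / (m.factorial : ℝ))) := by
        field_simp
    _ ≤ M ^ m * X ^ m * ((3 / m) ^ m * (3 / m) ^ m) := by
        apply mul_le_mul_of_nonneg_left _ (by positivity)
        exact mul_le_mul h3 h3 (by positivity) (by positivity)
    _ = (M * X * (3 / m) * (3 / m)) ^ m := by
        rw [← mul_assoc, ← mul_pow, ← mul_pow, ← mul_pow]
    _ ≤ _ := by
        apply pow_le_pow_left₀ (by positivity)
        have h8 : (3 : ℝ) / m ≤ 3 * L / n := by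
          rw [div_le_div_iff₀ hm0' hn0]
          nlinarith
        calc M * X * (3 / m) * (3 / m) ≤ M * X * (3 * L / n) * (3 * L / n) := by
              gcongr
          _ ≤ M * (8 * R * ((n : ℝ) * (n : ℝ) ^ (-θ))) * (3 * L / n) * (3 * L / n) := by
              gcongr
          _ = _ := by
              rw [hM]
              field_simp
              ring

/-- the numerical inequality behind the counting argument -/
theorem numeric_count (θ R : ℝ) (hθ : 0 < θ) (hθ2 : θ < 1 / 2) (hR : 1 ≤ R) (L : ℕ) (hL : 2 ≤ L) :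
    ∃ A n₀ : ℕ, 1 ≤ A ∧ ∀ n : ℕ, n₀ ≤ n → ∀ q : ℕ, (q : ℝ) ≤ 4 * R * (n : ℝ) ^ 3 →
      (2 * (q : ℝ) + 1) ^ (n ^ 2) *
        (((A * n + n).choose (2 * (n / L)) : ℝ) *
          ((2 * ((n : ℝ) ^ (1 / 2 - θ) + 1) * (2 * R * √(n : ℝ))) ^ (2 * (n / L)) /
            ((2 * (n / L)).factorial : ℝ))) ^ (A * n) < 1 := by
  obtain ⟨B, hB⟩ := exists_nat_ge (4 / θ)
  have hB' : 4 ≤ θ * B := by
    rw [div_le_iff₀ hθ] at hB
    linarith
  have hB1 : 1 ≤ B := by
    rcases Nat.eq_zero_or_pos B with h | h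
    · subst h
      norm_num at hB'
    · exact h
  set c1 : ℝ := 72 * (L * B + 1) * L ^ 2 * R with hc1
  have hc1pos : 0 < c1 := by
    have : (0 : ℝ) < L := by exact_mod_cast (by omega : 0 < L)
    positivity
  obtain ⟨n1, hn1⟩ := exists_nat_gt (9 * R * c1 ^ B)
  refine ⟨L * B, max L n1, Nat.mul_pos (by omega) hB1, fun n hn q hq => ?_⟩
  have hnL : L ≤ n := le_trans (le_max_left _ _) hn
  have hnn1 : n1 ≤ n := le_trans (le_max_right _ _) hn
  have hn0 : 1 ≤ n := by omega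
  set m := 2 * (n / L) with hm
  have hdiv : 1 ≤ n / L := (Nat.one_le_div_iff (by omega)).2 hnL
  have hm0 : 0 < m := by omega
  have hmL : n ≤ m * L := by
    have h1 := Nat.div_add_mod n L
    have h2 := Nat.mod_lt n (show 0 < L by omega)
    have h3 : L ≤ L * (n / L) := Nat.le_mul_of_pos_right _ hdiv
    calc n = L * (n / L) + n % L := h1.symm
      _ ≤ L * (n / L) + L * (n / L) := by omega
      _ = m * L := by rw [hm]; ring
  have hn1' : (1 : ℝ) ≤ n := by exact_mod_cast hn0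
  have hn0' : (0 : ℝ) < n := by linarith
  set ρ : ℝ := c1 * (n : ℝ) ^ (-θ) with hρ
  have hρ0 : 0 < ρ := by positivity
  have h1 : 9 * R * (n : ℝ) ^ 3 * ρ ^ B < 1 := by
    have h2 : ((n : ℝ) ^ (-θ)) ^ B ≤ (n : ℝ) ^ (-4 : ℝ) := by
      rw [← Real.rpow_natCast, ← Real.rpow_mul hn0'.le]
      exact Real.rpow_le_rpow_of_exponent_le hn1' (by nlinarith)
    have h3 : (n : ℝ) ^ (-4 : ℝ) = 1 / (n : ℝ) ^ 4 := by
      rw [Real.rpow_neg hn0'.le, one_div]
      norm_num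
    rw [h3] at h2
    calc 9 * R * (n : ℝ) ^ 3 * ρ ^ B
        = 9 * R * c1 ^ B * (n : ℝ) ^ 3 * ((n : ℝ) ^ (-θ)) ^ B := by rw [hρ, mul_pow]; ring
      _ ≤ 9 * R * c1 ^ B * (n : ℝ) ^ 3 * (1 / (n : ℝ) ^ 4) := by
          apply mul_le_mul_of_nonneg_left h2
          positivity
      _ = 9 * R * c1 ^ B / n := by
          field_simp
      _ < 1 := by
          rw [div_lt_one hn0']
          exact lt_of_lt_of_le hn1 (by exact_mod_cast hnn1)
  have hn3 : (1 : ℝ) ≤ (n : ℝ) ^ 3 := one_le_pow₀ hn1'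
  have h9 : (1 : ℝ) ≤ 9 * R * (n : ℝ) ^ 3 := by nlinarith
  have h2 : ρ ≤ 1 := by
    by_contra hlt
    push Not at hlt
    have : (1 : ℝ) ≤ ρ ^ B := one_le_pow₀ hlt.le
    nlinarith
  have h3 := nc_bracket θ R hθ2 hR L B n m hn0 hm0 hmL
  have h4 : ((((L * B * n + n).choose m : ℝ) *
          ((2 * ((n : ℝ) ^ (1 / 2 - θ) + 1) * (2 * R * √(n : ℝ))) ^ m /
            (m.factorial : ℝ))) ^ (L * B * n) ≤ (ρ ^ B) ^ (n ^ 2)) := by
    calc _ ≤ (ρ ^ m) ^ (L * B * n) := by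
          apply pow_le_pow_left₀ _ h3
          positivity
      _ = ρ ^ (m * (L * B * n)) := (pow_mul ρ m (L * B * n)).symm
      _ ≤ ρ ^ (B * n ^ 2) := by
          apply pow_le_pow_of_le_one hρ0.le h2
          calc B * n ^ 2 = n * (B * n) := by ring
            _ ≤ (m * L) * (B * n) := Nat.mul_le_mul_right _ hmL
            _ = m * (L * B * n) := by ring
      _ = _ := by rw [pow_mul]
  have h5 : 2 * (q : ℝ) + 1 ≤ 9 * R * (n : ℝ) ^ 3 := by nlinarith
  calc _ ≤ (9 * R * (n : ℝ) ^ 3) ^ (n ^ 2) * (ρ ^ B) ^ (n ^ 2) := by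
        apply mul_le_mul _ h4 (by positivity) (by positivity)
        exact pow_le_pow_left₀ (by positivity) h5 _
    _ = (9 * R * (n : ℝ) ^ 3 * ρ ^ B) ^ (n ^ 2) := by rw [← mul_pow]
    _ < 1 := pow_lt_one₀ (by positivity) h1 (by positivity)

end Pool.Agent.Helper130.JB.D7
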