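import Mathlib
import Pool.Agent.Helper130.JB.Defs


set_option autoImplicit false
open scoped Topology ENNReal BigOperators
open MeasureTheory Filter Module

namespace Pool.Agent.Helper130.JB.D8













theorem g8444_add {V : Type*} [AddCommGroup V] [Module ℝ V] {ι : Type*} [Fintype ι] (a b : ℝ)
    (w : ι → V) (x y : V) (hx : x ∈ hullR a w) (hy : y ∈ hullR b w) : x + y ∈ hullR (a + b) w := by
  obtain ⟨c, hc, rfl⟩ := hx
  obtain ⟨d, hd, rfl⟩ := hy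
  refine ⟨fun i => c i + d i, ?_, ?_⟩
  · calc ∑ i, |c i + d i| ≤ ∑ i, (|c i| + |d i|) := Finset.sum_le_sum (fun i _ => abs_add_le _ _)
      _ = ∑ i, |c i| + ∑ i, |d i| := Finset.sum_add_distrib
      _ ≤ a + b := add_le_add hc hd
  · rw [← Finset.sum_add_distrib]
    exact Finset.sum_congr rfl (fun i _ => (add_smul _ _ _).symm)

theorem g8444_norm {n : ℕ} {ι : Type*} [Fintype ι] (a r : ℝ) (hr : 0 ≤ r)
    (w : ι → Eu n) (hw : ∀ i, ‖w i‖ ≤ r) (x : Eu n) (hx : x ∈ hullR a w) : ‖x‖ ≤ a * r := by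
  obtain ⟨c, hc, rfl⟩ := hx
  calc ‖∑ i, c i • w i‖ ≤ ∑ i, ‖c i • w i‖ := norm_sum_le _ _
    _ ≤ ∑ i, |c i| * r := Finset.sum_le_sum (fun i _ => by
        rw [norm_smul, Real.norm_eq_abs]
        exact mul_le_mul_of_nonneg_left (hw i) (abs_nonneg _))
    _ = (∑ i, |c i|) * r := by rw [Finset.sum_mul]
    _ ≤ a * r := mul_le_mul_of_nonneg_right hc hr

theorem g8444_ball {N n : ℕ} (hn : 1 ≤ n) (Γ : Fin N → Eu n) (y : Eu n) (hy : ‖y‖ ≤ 1) :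
    y ∈ hullR 1 (full Γ) := by
  have hn0 : (0 : ℝ) < n := by exact_mod_cast hn
  have hs0 : 0 < √(n : ℝ) := Real.sqrt_pos.mpr hn0
  refine ⟨Sum.elim (fun _ => 0) (fun i => y i / √(n : ℝ)), ?_, ?_⟩
  · rw [Fintype.sum_sum_type]
    simp only [Sum.elim_inl, Sum.elim_inr, abs_zero, Finset.sum_const_zero, zero_add]
    have h1 : ∑ i, |y i / √(n : ℝ)| = (∑ i, |y i|) / √(n : ℝ) := by
      rw [Finset.sum_div]
      refine Finset.sum_congr rfl (fun i _ => ?_)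
      rw [abs_div, abs_of_pos hs0]
    rw [h1, div_le_iff₀ hs0, one_mul]
    refine Real.le_sqrt_of_sq_le ?_
    have h2 : (∑ i, |y i|) ^ 2 ≤ (Finset.univ : Finset (Fin n)).card * ∑ i, |y i| ^ 2 :=
      sq_sum_le_card_mul_sum_sq
    rw [Finset.card_univ, Fintype.card_fin] at h2
    have h3 : ∑ i, |y i| ^ 2 = ‖y‖ ^ 2 := by
      rw [EuclideanSpace.norm_sq_eq]
      exact Finset.sum_congr rfl (fun i _ => by rw [Real.norm_eq_abs])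
    rw [h3] at h2
    have h4 : ‖y‖ ^ 2 ≤ 1 := pow_le_one₀ (norm_nonneg _) hy
    nlinarith
  · rw [Fintype.sum_sum_type]
    simp only [Sum.elim_inl, Sum.elim_inr, zero_smul, Finset.sum_const_zero, zero_add, full]
    have h1 := (EuclideanSpace.basisFun (Fin n) ℝ).sum_repr y
    conv_lhs => rw [← h1]
    refine Finset.sum_congr rfl (fun i _ => ?_)
    rw [EuclideanSpace.basisFun_apply, EuclideanSpace.basisFun_repr, smul_smul,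
      div_mul_cancel₀ _ hs0.ne']

theorem g8444_full {N n : ℕ} (Γ : Fin N → Eu n) (hΓ : ∀ j, ‖Γ j‖ ≤ √(n : ℝ)) (i : Fin N ⊕ Fin n) :
    ‖full Γ i‖ ≤ √(n : ℝ) := by
  rcases i with j | i
  · exact hΓ j
  · show ‖(√(n : ℝ)) • EuclideanSpace.single i (1 : ℝ)‖ ≤ _
    rw [norm_smul, Real.norm_eq_abs, abs_of_nonneg (Real.sqrt_nonneg _), EuclideanSpace.norm_single,
      norm_one, mul_one]

theorem g8444_card (n q : ℕ) :
    (Fintype.piFinset (fun _ : Fin n => Fintype.piFinset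
      (fun _ : Fin n => Finset.Icc (-(q : ℤ)) (q : ℤ)))).card = (2 * q + 1) ^ (n ^ 2) := by
  rw [Fintype.card_piFinset]
  simp only [Fintype.card_piFinset, Int.card_Icc, Finset.prod_const, Finset.card_univ,
    Fintype.card_fin]
  have : ((q : ℤ) + 1 - -(q : ℤ)).toNat = 2 * q + 1 := by omega
  rw [this, ← pow_mul, sq]

/-- Gluskin's theorem, in the form needed -/
theorem gluskin (θ R : ℝ) (hθ : 0 < θ) (hθ2 : θ < 1 / 2) (hR : 1 ≤ R) (L : ℕ) (hL : 2 ≤ L)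
    -- all hypotheses below are proved separately:
    (hnum : ∃ A n₀ : ℕ, 1 ≤ A ∧ ∀ n : ℕ, n₀ ≤ n → ∀ q : ℕ, (q : ℝ) ≤ 4 * R * (n : ℝ) ^ 3 →
      (2 * (q : ℝ) + 1) ^ (n ^ 2) *
        (((A * n + n).choose (2 * (n / L)) : ℝ) *
          ((2 * ((n : ℝ) ^ (1 / 2 - θ) + 1) * (2 * R * √(n : ℝ))) ^ (2 * (n / L)) /
            ((2 * (n / L)).factorial : ℝ))) ^ (A * n) < 1)
    (hround : ∀ (n : ℕ) (B ρ : ℝ) (_ : 0 < ρ) (q : ℕ) (_ : B ≤ ρ * q)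
      (T : Eu n →ₗ[ℝ] Eu n) (_ : ∀ i, ‖T (EuclideanSpace.single i (1 : ℝ))‖ ≤ B),
      ∃ Z : Fin n → Fin n → ℤ, (∀ i j, |Z i j| ≤ (q : ℤ)) ∧
      ∀ x, ‖T x - Matrix.toEuclideanLin (Matrix.of fun i j => ρ * (Z i j : ℝ)) x‖ ≤
        n * ρ * ‖x‖)
    (hperturb : ∀ (n m : ℕ) (R : ℝ) (_ : 0 < R) (T T' : Eu n →ₗ[ℝ] Eu n)
      (_ : Mixing n m R T) (_ : ∀ x, ‖T x - T' x‖ ≤ 1 / (2 * R) * ‖x‖),
      Mixing n m (2 * R) T')
    (hball : ∀ (n l : ℕ) (_ : 2 * l ≤ n),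
      volume (Metric.closedBall (0 : Eu (n - 2 * l)) (√(n : ℝ))) ≤
        volume (Metric.closedBall (0 : Eu n) (√(n : ℝ))))
    (hbad : ∀ (n m N : ℕ) (_ : m ≤ n) (R lam : ℝ) (_ : 0 ≤ R) (_ : 0 ≤ lam)
      (T : Eu n →ₗ[ℝ] Eu n) (_ : Mixing n m R T) (V : ℝ≥0∞)
      (_ : ∀ w : Fin N ⊕ Fin n → Eu m, (∀ i, ‖w i‖ ≤ R * √(n : ℝ)) → volume (hullR lam w) ≤ V),
      volume {Γ : Fin N → Eu n | (∀ j, ‖Γ j‖ ≤ √(n : ℝ)) ∧ ∀ j, T (Γ j) ∈ hullR lam (full Γ)} ≤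
      (volume (Metric.closedBall (0 : Eu (n - m)) (√(n : ℝ))) * V) ^ N)
    (hvol : ∀ (m : ℕ) (lam r : ℝ) (_ : 0 ≤ lam) (_ : 0 ≤ r)
      {ι : Type} [Fintype ι] (w : ι → Eu m) (_ : ∀ i, ‖w i‖ ≤ r),
      volume (hullR lam w) ≤
        ENNReal.ofReal (((Fintype.card ι).choose m : ℝ) *
          ((2 * lam * r) ^ m / (m.factorial : ℝ)))) :
    ∃ A n₀ : ℕ, 1 ≤ A ∧ ∀ n : ℕ, n₀ ≤ n → ∃ Γ : Fin (A * n) → Eu n,
      (∀ j, ‖Γ j‖ ≤ √(n : ℝ)) ∧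
      ∀ T : Eu n →ₗ[ℝ] Eu n, (∀ i, T (full Γ i) ∈ hullR ((n : ℝ) ^ (1 / 2 - θ)) (full Γ)) →
        ¬ Mixing n (2 * (n / L)) R T := by
  obtain ⟨A, n₀, hA, hn₀⟩ := hnum
  refine ⟨A, max n₀ 1, hA, fun n hn => ?_⟩
  have hn1 : 1 ≤ n := le_trans (le_max_right _ _) hn
  have hnum' := hn₀ n (le_trans (le_max_left _ _) hn)
  have hnR : (1 : ℝ) ≤ n := by exact_mod_cast hn1
  have hn0 : (0 : ℝ) < n := by linarith
  have hs0 : 0 < √(n : ℝ) := Real.sqrt_pos.mpr hn0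
  have hs1 : 1 ≤ √(n : ℝ) := by rw [Real.one_le_sqrt]; exact hnR
  have hsn : √(n : ℝ) ≤ n := by
    have := Real.mul_self_sqrt hn0.le
    nlinarith
  obtain ⟨lam, hlam⟩ : ∃ lam : ℝ, lam = (n : ℝ) ^ (1 / 2 - θ) := ⟨_, rfl⟩
  have hlam0 : 0 < lam := by rw [hlam]; exact Real.rpow_pos_of_pos hn0 _
  have hlams : lam ≤ √(n : ℝ) := by
    rw [hlam, Real.sqrt_eq_rpow]
    exact Real.rpow_le_rpow_of_exponent_le hnR (by linarith)
  rw [← hlam] at hnum'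
  rw [← hlam]
  obtain ⟨ρ, hρdef⟩ : ∃ ρ : ℝ, ρ = 1 / (2 * R * (n : ℝ) ^ 2) := ⟨_, rfl⟩
  have hρ : 0 < ρ := by rw [hρdef]; positivity
  obtain ⟨q, hq⟩ : ∃ q : ℕ, q = ⌈lam / ρ⌉₊ := ⟨_, rfl⟩
  have hq1 : lam ≤ ρ * q := by
    have h1 : lam / ρ ≤ q := by rw [hq]; exact Nat.le_ceil _
    rw [div_le_iff₀ hρ] at h1
    linarith
  have hq2 : (q : ℝ) ≤ 4 * R * (n : ℝ) ^ 3 := by
    have h1 : (q : ℝ) < lam / ρ + 1 := by rw [hq]; exact Nat.ceil_lt_add_one (by positivity)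
    have h2 : lam / ρ = 2 * R * (n : ℝ) ^ 2 * lam := by
      rw [hρdef]; field_simp
    have h3 : 2 * R * (n : ℝ) ^ 2 * lam ≤ 2 * R * (n : ℝ) ^ 2 * n :=
      mul_le_mul_of_nonneg_left (hlams.trans hsn) (by positivity)
    have h4 : (1 : ℝ) ≤ 2 * R * (n : ℝ) ^ 3 := by
      have : (1 : ℝ) ≤ (n : ℝ) ^ 3 := one_le_pow₀ hnR
      nlinarith
    have h5 : 2 * R * (n : ℝ) ^ 2 * n = 2 * R * (n : ℝ) ^ 3 := by ring
    linarith
  have hnum2 := hnum' q hq2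
  have hml : 2 * (n / L) ≤ n := by
    have h1 : n / L ≤ n / 2 := Nat.div_le_div_left hL (by norm_num)
    omega
  obtain ⟨m, hm⟩ : ∃ m : ℕ, m = 2 * (n / L) := ⟨_, rfl⟩
  have hballm : volume (Metric.closedBall (0 : Eu (n - m)) (√(n : ℝ))) ≤
      volume (Metric.closedBall (0 : Eu n) (√(n : ℝ))) := by
    rw [hm]; exact hball n (n / L) hml
  rw [← hm] at hnum2 hml
  rw [← hm]
  obtain ⟨N, hN⟩ : ∃ N : ℕ, N = A * n := ⟨_, rfl⟩
  rw [← hN] at hnum2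
  rw [← hN]
  obtain ⟨x, hx⟩ : ∃ x : ℝ, x = ((N + n).choose m : ℝ) *
      ((2 * (lam + 1) * (2 * R * √(n : ℝ))) ^ m / (m.factorial : ℝ)) := ⟨_, rfl⟩
  rw [← hx] at hnum2
  have hx0 : 0 ≤ x := by rw [hx]; positivity
  obtain ⟨v, hv⟩ : ∃ v : ℝ≥0∞, v = volume (Metric.closedBall (0 : Eu n) (√(n : ℝ))) := ⟨_, rfl⟩
  have hv0 : v ≠ 0 := by rw [hv]; exact (Metric.measure_closedBall_pos volume _ hs0).ne'
  have hvt : v ≠ ∞ := by rw [hv]; exact measure_closedBall_lt_top.ne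
  obtain ⟨TZ, hTZ⟩ : ∃ TZ : (Fin n → Fin n → ℤ) → (Eu n →ₗ[ℝ] Eu n), TZ = fun Z =>
    Matrix.toEuclideanLin (Matrix.of fun i j => ρ * (Z i j : ℝ)) := ⟨_, rfl⟩
  have hBad : ∀ Z, Mixing n m (2 * R) (TZ Z) →
      volume {Γ : Fin N → Eu n | (∀ j, ‖Γ j‖ ≤ √(n : ℝ)) ∧
        ∀ j, TZ Z (Γ j) ∈ hullR (lam + 1) (full Γ)} ≤ (v * ENNReal.ofReal x) ^ N := by
    intro Z hZ
    refine (hbad n m N hml (2 * R) (lam + 1) (by positivity) (by positivity) (TZ Z) hZ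
      (ENNReal.ofReal x) ?_).trans ?_
    · intro w hw
      have := hvol m (lam + 1) (2 * R * √(n : ℝ)) (by positivity) (by positivity) w hw
      rw [Fintype.card_sum, Fintype.card_fin, Fintype.card_fin] at this
      rw [hx]
      exact this
    · gcongr
      rw [hv]; exact hballm
  classical
  obtain ⟨ZZ, hZZ⟩ : ∃ ZZ : Finset (Fin n → Fin n → ℤ), ZZ = Fintype.piFinset (fun _ : Fin n =>
    Fintype.piFinset (fun _ : Fin n => Finset.Icc (-(q : ℤ)) (q : ℤ))) := ⟨_, rfl⟩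
  have hZcard : ZZ.card = (2 * q + 1) ^ (n ^ 2) := by rw [hZZ]; exact g8444_card n q
  have hΩ : volume {Γ : Fin N → Eu n | ∀ j, ‖Γ j‖ ≤ √(n : ℝ)} = v ^ N := by
    have h1 : {Γ : Fin N → Eu n | ∀ j, ‖Γ j‖ ≤ √(n : ℝ)} =
        Set.pi Set.univ (fun _ : Fin N => Metric.closedBall (0 : Eu n) (√(n : ℝ))) := by
      ext Γ
      simp [Set.mem_pi]
    rw [h1, volume_pi_pi, hv]
    simp
  have hsum : volume (⋃ Z ∈ ZZ.filter (fun Z => Mixing n m (2 * R) (TZ Z)),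
      {Γ : Fin N → Eu n | (∀ j, ‖Γ j‖ ≤ √(n : ℝ)) ∧
        ∀ j, TZ Z (Γ j) ∈ hullR (lam + 1) (full Γ)}) < v ^ N := by
    refine lt_of_le_of_lt (measure_biUnion_finset_le _ _) ?_
    refine lt_of_le_of_lt (Finset.sum_le_sum (fun Z hZ => hBad Z (Finset.mem_filter.mp hZ).2)) ?_
    rw [Finset.sum_const, nsmul_eq_mul]
    have h1 : ((ZZ.filter (fun Z => Mixing n m (2 * R) (TZ Z))).card : ℝ≥0∞) ≤
        ((2 * q + 1) ^ (n ^ 2) : ℕ) := by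
      rw [← hZcard]
      exact_mod_cast Finset.card_filter_le _ _
    refine lt_of_le_of_lt (mul_le_mul_left h1 _) ?_
    rw [mul_pow]
    have h2 : ((((2 * q + 1) ^ (n ^ 2) : ℕ)) : ℝ≥0∞) * (v ^ N * ENNReal.ofReal x ^ N) =
        v ^ N * ENNReal.ofReal ((2 * (q : ℝ) + 1) ^ (n ^ 2) * x ^ N) := by
      rw [ENNReal.ofReal_mul (by positivity), ENNReal.ofReal_pow hx0]
      have h3 : ENNReal.ofReal ((2 * (q : ℝ) + 1) ^ (n ^ 2)) = (((2 * q + 1) ^ (n ^ 2) : ℕ) : ℝ≥0∞) := by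
        rw [← ENNReal.ofReal_natCast]
        push_cast
        rfl
      rw [h3]
      ring
    rw [h2]
    have h4 : ENNReal.ofReal ((2 * (q : ℝ) + 1) ^ (n ^ 2) * x ^ N) < 1 := by
      rw [ENNReal.ofReal_lt_one]
      exact hnum2
    calc v ^ N * ENNReal.ofReal ((2 * (q : ℝ) + 1) ^ (n ^ 2) * x ^ N) < v ^ N * 1 :=
          ENNReal.mul_lt_mul_right (pow_ne_zero _ hv0) (ENNReal.pow_ne_top hvt) h4
      _ = v ^ N := mul_one _
  rw [← hΩ] at hsum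
  obtain ⟨Γ, hΓ1, hΓ2⟩ : ∃ Γ : Fin N → Eu n, (∀ j, ‖Γ j‖ ≤ √(n : ℝ)) ∧
      Γ ∉ ⋃ Z ∈ ZZ.filter (fun Z => Mixing n m (2 * R) (TZ Z)),
      {Γ : Fin N → Eu n | (∀ j, ‖Γ j‖ ≤ √(n : ℝ)) ∧
        ∀ j, TZ Z (Γ j) ∈ hullR (lam + 1) (full Γ)} := by
    by_contra hc
    push Not at hc
    exact absurd (measure_mono (μ := volume) (fun Γ hΓ => hc Γ hΓ)) (not_le.mpr hsum)
  refine ⟨Γ, hΓ1, fun T hT hmix => hΓ2 ?_⟩
  have hTe : ∀ i, ‖T (EuclideanSpace.single i (1 : ℝ))‖ ≤ lam := by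
    intro i
    have h1 := g8444_norm lam (√(n : ℝ)) hs0.le (full Γ) (g8444_full Γ hΓ1) _ (hT (Sum.inr i))
    have h2 : T (full Γ (Sum.inr i)) = (√(n : ℝ)) • T (EuclideanSpace.single i (1 : ℝ)) := by
      show T ((√(n : ℝ)) • EuclideanSpace.single i (1 : ℝ)) = _
      rw [map_smul]
    rw [h2, norm_smul, Real.norm_eq_abs, abs_of_pos hs0, mul_comm] at h1
    exact le_of_mul_le_mul_right h1 hs0
  obtain ⟨Z, hZ1, hZ2⟩ := hround n lam ρ hρ q hq1 T hTe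
  have hZ2' : ∀ x, ‖T x - TZ Z x‖ ≤ n * ρ * ‖x‖ := by rw [hTZ]; exact hZ2
  have hnρ : n * ρ = 1 / (2 * R * n) := by
    rw [hρdef]; field_simp
  have hnρ1 : n * ρ ≤ 1 / (2 * R) := by
    rw [hnρ]
    refine one_div_le_one_div_of_le (by positivity) ?_
    nlinarith
  have hmixZ : Mixing n m (2 * R) (TZ Z) :=
    hperturb n m R (by linarith) T (TZ Z) hmix (fun x =>
      (hZ2' x).trans (mul_le_mul_of_nonneg_right hnρ1 (norm_nonneg _)))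
  simp only [Set.mem_iUnion]
  refine ⟨Z, Finset.mem_filter.mpr ⟨?_, hmixZ⟩, hΓ1, fun j => ?_⟩
  · rw [hZZ, Fintype.mem_piFinset]
    intro i
    rw [Fintype.mem_piFinset]
    intro j
    rw [Finset.mem_Icc]
    exact abs_le.mp (hZ1 i j)
  · have h1 := hT (Sum.inl j)
    have h2 : ‖TZ Z (Γ j) - T (Γ j)‖ ≤ 1 := by
      rw [norm_sub_rev]
      refine (hZ2' (Γ j)).trans ?_
      rw [hnρ]
      calc 1 / (2 * R * n) * ‖Γ j‖ ≤ 1 / (2 * R * n) * n :=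
            mul_le_mul_of_nonneg_left ((hΓ1 j).trans hsn) (by positivity)
        _ = 1 / (2 * R) := by field_simp
        _ ≤ 1 := by
            rw [div_le_one (by positivity)]
            linarith
    have h3 := g8444_add lam 1 (full Γ) _ _ h1 (g8444_ball hn1 Γ _ h2)
    have h4 : T (full Γ (Sum.inl j)) + (TZ Z (Γ j) - T (Γ j)) = TZ Z (Γ j) := by
      show T (Γ j) + (TZ Z (Γ j) - T (Γ j)) = _
      abel
    rw [h4] at h3
    exact h3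

end Pool.Agent.Helper130.JB.D8
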