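import Mathlib
import Pool.Agent.Helper130.JB.D1
import Pool.Agent.Helper130.JB.D1b
import Pool.Agent.Helper130.JB.D2a
import Pool.Agent.Helper130.JB.D2b
import Pool.Agent.Helper130.JB.D2
import Pool.Agent.Helper130.JB.D3
import Pool.Agent.Helper130.JB.D3b
import Pool.Agent.Helper130.JB.D5
import Pool.Agent.Helper130.JB.D6
import Pool.Agent.Helper130.JB.D7
import Pool.Agent.Helper130.JB.D8

set_option autoImplicit false
open scoped Topology ENNReal BigOperators
open MeasureTheory Filter Module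

namespace Pool.Agent.Helper130.JB

/-- Gluskin's theorem: for suitable `A`, `n₀` and all `n ≥ n₀` there are `A n` vectors `Γ j` of
norm at most `√n` in `ℝⁿ` such that every operator mapping the vectors `Γ j`, `√n eᵢ` into the
`n ^ (1/2 - θ)`-fold multiple of their absolutely convex hull is not mixing. -/
theorem gluskin (θ R : ℝ) (hθ : 0 < θ) (hθ2 : θ < 1 / 2) (hR : 1 ≤ R) (L : ℕ) (hL : 2 ≤ L) :
    ∃ A n₀ : ℕ, 1 ≤ A ∧ ∀ n : ℕ, n₀ ≤ n → ∃ Γ : Fin (A * n) → Eu n,
      (∀ j, ‖Γ j‖ ≤ √(n : ℝ)) ∧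
      ∀ T : Eu n →ₗ[ℝ] Eu n, (∀ i, T (full Γ i) ∈ hullR ((n : ℝ) ^ (1 / 2 - θ)) (full Γ)) →
        ¬ Mixing n (2 * (n / L)) R T :=
  D8.gluskin θ R hθ hθ2 hR L hL (D7.numeric_count θ R hθ hθ2 hR L hL)
    (fun n B ρ hρ q hq T hT => D6.rounding n B ρ hρ q hq T hT)
    (fun n m R hR T T' hT h => D5.mixing_perturb n m R hR T T' hT h)
    (fun n l h => D3b.ball_compare n l h)
    (fun n m N hm R lam hR hlam T hT V hV => D3.volume_bad_le n m N hm R lam hR hlam T hT V hV)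
    (fun m lam r hlam hr {ι} _ w hw => D2.volume_hullR_le m lam r hlam hr w hw
      (fun x hx => D2a.hullR_caratheodory lam w x hx)
      (fun v hv => D2b.volume_hullR_fin m lam r hlam hr v hv))

/-- an operator which is not mixing is close to a scalar on a subspace of small codimension -/
theorem mixing_or_scalar (n m : ℕ) (α : ℝ) (hα : 0 < α) (T : Eu n →ₗ[ℝ] Eu n) :
    Mixing n m (1 / α) T ∨
      ∃ (t : ℝ) (G : Submodule ℝ (Eu n)), n ≤ finrank ℝ G + 4 * m ∧
        ∀ x ∈ G, ‖T x - t • x‖ ≤ 8 * α * ‖x‖ := by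
  rcases D1.mixing_or_small n m α hα T with h | ⟨G, hG, h⟩
  · exact Or.inl h
  · obtain ⟨t, ht⟩ := D1b.near_scalar n α hα T G h
    exact Or.inr ⟨t, G, hG, ht⟩

end Pool.Agent.Helper130.JB
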