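import Mathlib
import Pool.Agent.Helper130.JB.CotDefs


set_option autoImplicit false
open scoped Topology ENNReal BigOperators
open MeasureTheory Filter Module

namespace Pool.Agent.Helper130.JB.K1
















theorem aux_inner {n : ℕ} (v : Eu n) (ε : Fin n → Bool) :
    (inner ℝ v (sgv ε) : ℝ) = ∑ l, sg (ε l) * v l := by
  unfold sgv
  rw [inner_sum]
  apply Finset.sum_congr rfl
  intro l _
  rw [inner_smul_right, EuclideanSpace.inner_single_right]
  simp

theorem aux_mgf {n : ℕ} (v : Fin n → ℝ) (lam : ℝ) :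
    ∑ ε : Fin n → Bool, Real.exp (lam * ∑ l, sg (ε l) * v l) ≤
      2 ^ n * Real.exp (lam ^ 2 * (∑ l, v l ^ 2) / 2) := by
  have h1 : ∑ ε : Fin n → Bool, Real.exp (lam * ∑ l, sg (ε l) * v l) = 
      ∏ l, ∑ b : Bool, Real.exp (lam * (sg b * v l)) := by
    rw [Finset.prod_univ_sum, Fintype.piFinset_univ]
    apply Finset.sum_congr rfl
    intro ε _
    rw [Finset.mul_sum, Real.exp_sum]
  rw [h1]
  have h2 : ∀ l, ∑ b : Bool, Real.exp (lam * (sg b * v l)) ≤ 
      2 * Real.exp (lam ^ 2 * v l ^ 2 / 2) := by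
    intro l
    have h3 := Real.cosh_le_exp_half_sq (lam * v l)
    rw [Real.cosh_eq] at h3
    rw [Fintype.sum_bool]
    simp only [sg, if_true, Bool.false_eq_true, if_false]
    rw [show lam * (1 * v l) = lam * v l by ring, show lam * (-1 * v l) = -(lam * v l) by ring,
      show lam ^ 2 * v l ^ 2 / 2 = (lam * v l) ^ 2 / 2 by ring]
    linarith
  calc ∏ l, ∑ b : Bool, Real.exp (lam * (sg b * v l)) 
      ≤ ∏ l : Fin n, (2 * Real.exp (lam ^ 2 * v l ^ 2 / 2)) := by
        apply Finset.prod_le_prod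
        · intro l _
          exact Finset.sum_nonneg (fun b _ => (Real.exp_pos _).le)
        · intro l _
          exact h2 l
    _ = 2 ^ n * Real.exp (lam ^ 2 * (∑ l, v l ^ 2) / 2) := by
        rw [Finset.prod_mul_distrib, ← Real.exp_sum, Finset.prod_const, Finset.card_univ,
          Fintype.card_fin, Finset.mul_sum, Finset.sum_div]

theorem aux_one {n : ℕ} (hn : 1 ≤ n) (v : Fin n → ℝ) (hv : ∑ l, v l ^ 2 ≤ n) (a : ℝ)
    (ha : 0 ≤ a) :
    (((Finset.univ : Finset (Fin n → Bool)).filter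
      (fun ε => a < ∑ l, sg (ε l) * v l)).card : ℝ) ≤
      2 ^ n * Real.exp (-(a ^ 2 / (2 * n))) := by
  have hn0 : (0 : ℝ) < n := by exact_mod_cast hn
  set S := (Finset.univ : Finset (Fin n → Bool)).filter
      (fun ε => a < ∑ l, sg (ε l) * v l) with hS
  have hlam : 0 ≤ a / n := by positivity
  have h1 : (S.card : ℝ) * Real.exp (a / n * a) ≤ 2 ^ n * Real.exp ((a / n) ^ 2 * (∑ l, v l ^ 2) / 2) := by
    refine le_trans ?_ (aux_mgf v (a / n))
    calc (S.card : ℝ) * Real.exp (a / n * a) = ∑ ε ∈ S, Real.exp (a / n * a) := by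
          rw [Finset.sum_const, nsmul_eq_mul]
      _ ≤ ∑ ε ∈ S, Real.exp (a / n * ∑ l, sg (ε l) * v l) := by
          apply Finset.sum_le_sum
          intro ε hε
          apply Real.exp_le_exp.mpr
          apply mul_le_mul_of_nonneg_left _ hlam
          rw [hS, Finset.mem_filter] at hε
          exact hε.2.le
      _ ≤ ∑ ε : Fin n → Bool, Real.exp (a / n * ∑ l, sg (ε l) * v l) := by
          apply Finset.sum_le_sum_of_subset_of_nonneg (Finset.subset_univ _)
          intro ε _ _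
          exact (Real.exp_pos _).le
  have h2 : Real.exp ((a / n) ^ 2 * (∑ l, v l ^ 2) / 2) ≤ Real.exp (a ^ 2 / (2 * n)) := by
    apply Real.exp_le_exp.mpr
    calc (a / n) ^ 2 * (∑ l, v l ^ 2) / 2 ≤ (a / n) ^ 2 * n / 2 := by gcongr
      _ = a ^ 2 / (2 * n) := by field_simp
  have h3 : (S.card : ℝ) * Real.exp (a / n * a) ≤ 2 ^ n * Real.exp (a ^ 2 / (2 * n)) :=
    h1.trans (mul_le_mul_of_nonneg_left h2 (by positivity))
  have h4 : (S.card : ℝ) = (S.card : ℝ) * Real.exp (a / n * a) * Real.exp (-(a / n * a)) := by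
    rw [mul_assoc, ← Real.exp_add, add_neg_cancel, Real.exp_zero, mul_one]
  rw [h4]
  calc (S.card : ℝ) * Real.exp (a / n * a) * Real.exp (-(a / n * a)) 
      ≤ 2 ^ n * Real.exp (a ^ 2 / (2 * n)) * Real.exp (-(a / n * a)) := by
        apply mul_le_mul_of_nonneg_right h3 (Real.exp_pos _).le
    _ = 2 ^ n * Real.exp (-(a ^ 2 / (2 * n))) := by
        rw [mul_assoc, ← Real.exp_add]
        congr 2
        field_simp
        ring

/-- Hoeffding's inequality for sign sums -/
theorem chernoff_count {n : ℕ} (hn : 1 ≤ n) (v : Eu n) (hv : ‖v‖ ≤ √(n : ℝ)) (a : ℝ)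
    (ha : 0 ≤ a) :
    (((Finset.univ : Finset (Fin n → Bool)).filter
      (fun ε => a < |(inner ℝ v (sgv ε) : ℝ)|)).card : ℝ) ≤
      2 * 2 ^ n * Real.exp (-(a ^ 2 / (2 * n))) := by
  have hv2 : ∑ l, v l ^ 2 ≤ n := by
    have h1 : ‖v‖ ^ 2 ≤ (n : ℝ) := by
      calc ‖v‖ ^ 2 ≤ (√(n : ℝ)) ^ 2 := by gcongr
        _ = (n : ℝ) := Real.sq_sqrt (by positivity)
    rw [EuclideanSpace.norm_sq_eq] at h1
    simpa using h1
  have hv2' : ∑ l, (-v l) ^ 2 ≤ n := by simpa using hv2
  have h1 := aux_one hn (fun l => v l) hv2 a ha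
  have h2 := aux_one hn (fun l => -v l) hv2' a ha
  have hsub : ((Finset.univ : Finset (Fin n → Bool)).filter
      (fun ε => a < |(inner ℝ v (sgv ε) : ℝ)|)) ⊆ 
      ((Finset.univ : Finset (Fin n → Bool)).filter
      (fun ε => a < ∑ l, sg (ε l) * v l)) ∪ ((Finset.univ : Finset (Fin n → Bool)).filter
      (fun ε => a < ∑ l, sg (ε l) * (-v l))) := by
    intro ε hε
    rw [Finset.mem_filter] at hε
    rw [Finset.mem_union, Finset.mem_filter, Finset.mem_filter]
    have h3 := hε.2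
    rw [aux_inner, lt_abs] at h3
    rcases h3 with h3 | h3
    · exact Or.inl ⟨Finset.mem_univ _, h3⟩
    · refine Or.inr ⟨Finset.mem_univ _, ?_⟩
      simpa using h3
  have h3 := (Finset.card_le_card hsub).trans (Finset.card_union_le _ _)
  have h4 : (((Finset.univ : Finset (Fin n → Bool)).filter
      (fun ε => a < |(inner ℝ v (sgv ε) : ℝ)|)).card : ℝ) ≤ 
      (((Finset.univ : Finset (Fin n → Bool)).filter
      (fun ε => a < ∑ l, sg (ε l) * v l)).card : ℝ) + (((Finset.univ : Finset (Fin n → Bool)).filter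
      (fun ε => a < ∑ l, sg (ε l) * (-v l))).card : ℝ) := by exact_mod_cast h3
  linarith

end Pool.Agent.Helper130.JB.K1
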