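import Mathlib
import Pool.Agent.Helper130.JB.CotDefs


set_option autoImplicit false
open scoped Topology ENNReal BigOperators
open MeasureTheory Filter Module

namespace Pool.Agent.Helper130.JB.K2















theorem ms_apply {n : ℕ} (ε : Fin n → Bool) (j : Fin n) : (sgv ε) j = sg (ε j) := by
  unfold sgv
  simp [Finset.sum_apply, Pi.single_apply]

theorem ms_sg (b : Bool) : |sg b| = 1 := by
  cases b <;> simp [sg]

theorem ms_norm {n : ℕ} (ε : Fin n → Bool) : ‖sgv ε‖ = √(n : ℝ) := by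
  rw [EuclideanSpace.norm_eq]
  congr 1
  have : ∀ i, ‖(sgv ε) i‖ ^ 2 = 1 := by
    intro i
    rw [ms_apply, Real.norm_eq_abs, ms_sg, one_pow]
  rw [Finset.sum_congr rfl fun i _ => this i]
  simp

theorem max_signs {n k : ℕ} (hn : 1 ≤ n) (hk : 1 ≤ k) (v : Fin k → Eu n)
    (hv : ∀ i, ‖v i‖ ≤ √(n : ℝ))
    -- proved separately:
    (hchern : ∀ (v : Eu n) (_ : ‖v‖ ≤ √(n : ℝ)) (a : ℝ) (_ : 0 ≤ a),
      (((Finset.univ : Finset (Fin n → Bool)).filter
        (fun ε => a < |(inner ℝ v (sgv ε) : ℝ)|)).card : ℝ) ≤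
        2 * 2 ^ n * Real.exp (-(a ^ 2 / (2 * n)))) :
    ∃ M : (Fin n → Bool) → ℝ, (∀ ε, 0 ≤ M ε) ∧ (∀ ε i, |(inner ℝ (v i) (sgv ε) : ℝ)| ≤ M ε) ∧
      (∑ ε, M ε ^ 2) / 2 ^ n ≤ n * (2 * Real.log (2 * k * (n : ℝ) ^ 2) + 1) := by
  classical
  have hn0 : (0 : ℝ) < n := by exact_mod_cast hn
  have hn1 : (1 : ℝ) ≤ n := by exact_mod_cast hn
  have hk1 : (1 : ℝ) ≤ k := by exact_mod_cast hk
  have hne : (Finset.univ : Finset (Fin k)).Nonempty := ⟨⟨0, hk⟩, Finset.mem_univ _⟩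
  set M : (Fin n → Bool) → ℝ := fun ε =>
    Finset.univ.sup' hne (fun i => |(inner ℝ (v i) (sgv ε) : ℝ)|) with hM
  have hMle : ∀ ε i, |(inner ℝ (v i) (sgv ε) : ℝ)| ≤ M ε := fun ε i =>
    Finset.le_sup' (fun i => |(inner ℝ (v i) (sgv ε) : ℝ)|) (Finset.mem_univ i)
  have hM0 : ∀ ε, 0 ≤ M ε := fun ε => (abs_nonneg _).trans (hMle ε ⟨0, hk⟩)
  have hMn : ∀ ε, M ε ≤ n := by
    intro ε
    rw [hM]
    apply Finset.sup'_le
    intro i _
    calc |(inner ℝ (v i) (sgv ε) : ℝ)| ≤ ‖v i‖ * ‖sgv ε‖ := abs_real_inner_le_norm _ _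
      _ ≤ √(n : ℝ) * √(n : ℝ) := by
          rw [ms_norm]
          exact mul_le_mul_of_nonneg_right (hv i) (Real.sqrt_nonneg _)
      _ = n := Real.mul_self_sqrt hn0.le
  set L := Real.log (2 * k * (n : ℝ) ^ 2) with hL
  have harg : (2 : ℝ) ≤ 2 * k * (n : ℝ) ^ 2 := by
    have : (1 : ℝ) ≤ (n : ℝ) ^ 2 := one_le_pow₀ hn1
    nlinarith
  have hL0 : 0 ≤ L := Real.log_nonneg (by linarith)
  set a := √(2 * n * L) with ha
  have ha0 : 0 ≤ a := Real.sqrt_nonneg _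
  have ha2 : a ^ 2 = 2 * n * L := Real.sq_sqrt (by positivity)
  set bad : Finset (Fin n → Bool) := Finset.univ.filter (fun ε => a < M ε) with hbad
  have hbadcard : (bad.card : ℝ) * (n : ℝ) ^ 2 ≤ 2 ^ n := by
    have hsub : bad ⊆ Finset.univ.biUnion (fun i : Fin k =>
        (Finset.univ : Finset (Fin n → Bool)).filter
        (fun ε => a < |(inner ℝ (v i) (sgv ε) : ℝ)|)) := by
      intro ε hε
      rw [hbad, Finset.mem_filter] at hε
      have h2 := hε.2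
      rw [hM] at h2
      simp only [Finset.lt_sup'_iff] at h2
      obtain ⟨i, _, hi⟩ := h2
      simp only [Finset.mem_biUnion, Finset.mem_filter, Finset.mem_univ, true_and]
      exact ⟨i, hi⟩
    have h1 : (bad.card : ℝ) ≤ ∑ _i : Fin k, 2 * 2 ^ n * Real.exp (-(a ^ 2 / (2 * n))) := by
      calc (bad.card : ℝ) ≤ ((Finset.univ.biUnion (fun i : Fin k =>
        (Finset.univ : Finset (Fin n → Bool)).filter
        (fun ε => a < |(inner ℝ (v i) (sgv ε) : ℝ)|))).card : ℝ) := by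
            exact_mod_cast Finset.card_le_card hsub
        _ ≤ ∑ i : Fin k, (((Finset.univ : Finset (Fin n → Bool)).filter
        (fun ε => a < |(inner ℝ (v i) (sgv ε) : ℝ)|)).card : ℝ) := by
            exact_mod_cast Finset.card_biUnion_le
        _ ≤ _ := Finset.sum_le_sum fun i _ => hchern (v i) (hv i) a ha0
    rw [Finset.sum_const, Finset.card_univ, Fintype.card_fin, nsmul_eq_mul] at h1
    have h3 : a ^ 2 / (2 * n) = L := by
      rw [ha2]; field_simp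
    rw [h3, Real.exp_neg, hL, Real.exp_log (by linarith)] at h1
    have h4 : (k : ℝ) * (2 * 2 ^ n * (2 * k * (n : ℝ) ^ 2)⁻¹) = 2 ^ n / (n : ℝ) ^ 2 := by
      field_simp
    rw [h4, le_div_iff₀ (by positivity)] at h1
    exact h1
  refine ⟨M, hM0, hMle, ?_⟩
  have hpt : ∀ ε, M ε ^ 2 ≤ a ^ 2 + (if ε ∈ bad then (n : ℝ) ^ 2 else 0) := by
    intro ε
    split_ifs with h
    · have := pow_le_pow_left₀ (hM0 ε) (hMn ε) 2
      have := sq_nonneg a
      linarith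
    · have h2 : M ε ≤ a := by
        by_contra hcon
        exact h (by rw [hbad, Finset.mem_filter]; exact ⟨Finset.mem_univ _, not_le.1 hcon⟩)
      have := pow_le_pow_left₀ (hM0 ε) h2 2
      linarith
  have hsum : ∑ ε, M ε ^ 2 ≤ 2 ^ n * a ^ 2 + 2 ^ n := by
    calc ∑ ε, M ε ^ 2 ≤ ∑ ε : Fin n → Bool, (a ^ 2 + (if ε ∈ bad then (n : ℝ) ^ 2 else 0)) :=
          Finset.sum_le_sum fun ε _ => hpt ε
      _ = 2 ^ n * a ^ 2 + bad.card * (n : ℝ) ^ 2 := by
          rw [Finset.sum_add_distrib, Finset.sum_const, Finset.card_univ, ← Finset.sum_filter]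
          simp
      _ ≤ _ := by linarith
  rw [div_le_iff₀ (by positivity)]
  rw [ha2] at hsum
  have h2n : (0 : ℝ) < 2 ^ n := by positivity
  nlinarith [mul_le_mul_of_nonneg_left hn1 h2n.le]

end Pool.Agent.Helper130.JB.K2
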