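import Mathlib
import Pool.Agent.Helper130.JB.CotDefs


set_option autoImplicit false
open scoped Topology ENNReal BigOperators
open MeasureTheory Filter Module

namespace Pool.Agent.Helper130.JB.K3















theorem trace_cotype (s C : ℝ) (hs : 2 ≤ s) (hC : 0 ≤ C) {E : Type*} [NormedAddCommGroup E]
    [NormedSpace ℝ E] (hcot : HasCotype s C E) {n k : ℕ} (hn : 1 ≤ n)
    (v : Fin k → Eu n)
    (hv2 : ∀ l : Fin n, ∃ i, v i = (√(n : ℝ)) • EuclideanSpace.single l (1 : ℝ))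
    (K : ℝ) (hK : 0 ≤ K) (U : Eu n →ₗ[ℝ] E)
    (hU : ∀ x M, 0 ≤ M → (∀ i, |(inner ℝ (v i) x : ℝ)| ≤ M) → ‖U x‖ ≤ K * M)
    (V : E →ₗ[ℝ] Eu n) (hV : ∀ x i, |(inner ℝ (v i) (V (U x)) : ℝ)| ≤ K * ‖U x‖)
    -- proved separately (`B = 2 log (2 k n ^ 2) + 1`):
    (B : ℝ) (hB : 0 ≤ B)
    (hmax : ∃ M : (Fin n → Bool) → ℝ, (∀ ε, 0 ≤ M ε) ∧
      (∀ ε i, |(inner ℝ (v i) (sgv ε) : ℝ)| ≤ M ε) ∧ (∑ ε, M ε ^ 2) / 2 ^ n ≤ n * B) :
    |∑ l : Fin n, (inner ℝ (EuclideanSpace.single l (1 : ℝ))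
      (V (U (EuclideanSpace.single l (1 : ℝ)))) : ℝ)| ≤
        K ^ 2 * C * (n : ℝ) ^ (1 - 1 / s) * √B := by
  obtain ⟨M, hM0, hM1, hM2⟩ := hmax
  have hn0 : (0 : ℝ) < n := by exact_mod_cast hn
  have hsn : 0 < √(n : ℝ) := Real.sqrt_pos.2 hn0
  set b : Fin n → ℝ := fun l => ‖U (EuclideanSpace.single l (1 : ℝ))‖ with hb
  have hb0 : ∀ l, 0 ≤ b l := fun l => norm_nonneg _
  -- step 1
  have h1 : ∀ l : Fin n, |(inner ℝ (EuclideanSpace.single l (1 : ℝ))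
      (V (U (EuclideanSpace.single l (1 : ℝ)))) : ℝ)| ≤ K / √(n : ℝ) * b l := by
    intro l
    obtain ⟨i, hi⟩ := hv2 l
    have h := hV (EuclideanSpace.single l (1 : ℝ)) i
    rw [hi, inner_smul_left, abs_mul] at h
    simp only [RCLike.conj_to_real, abs_of_pos hsn] at h
    rw [div_mul_eq_mul_div, le_div_iff₀ hsn]
    linarith
  have h2 : |∑ l : Fin n, (inner ℝ (EuclideanSpace.single l (1 : ℝ))
      (V (U (EuclideanSpace.single l (1 : ℝ)))) : ℝ)| ≤ K / √(n : ℝ) * ∑ l, b l := by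
    refine (Finset.abs_sum_le_sum_abs _ _).trans ?_
    rw [Finset.mul_sum]
    exact Finset.sum_le_sum fun l _ => h1 l
  -- step 3
  have h3 : ∑ l, b l ≤ (n : ℝ) ^ (1 - 1 / s) * (∑ l, b l ^ s) ^ (1 / s) := by
    have hconj := Real.HolderConjugate.conjExponent (show 1 < s by linarith)
    have h := Real.inner_le_Lp_mul_Lq_of_nonneg Finset.univ hconj (f := b) (g := fun _ => (1 : ℝ))
      (fun i _ => hb0 i) (fun i _ => zero_le_one)
    simp only [mul_one, Real.one_rpow, Finset.sum_const, Finset.card_univ, Fintype.card_fin,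
      nsmul_eq_mul] at h
    have e1 : 1 / s.conjExponent = 1 - 1 / s := by
      have := hconj.inv_add_inv_eq_one
      rw [one_div, one_div]
      linarith
    rw [e1] at h
    linarith [mul_comm ((∑ l, b l ^ s) ^ (1 / s)) ((n : ℝ) ^ (1 - 1 / s))]
  -- step 4
  have h4 : (∑ l, b l ^ s) ^ (1 / s) ≤ C * (K * √(n : ℝ) * √B) := by
    refine (hcot n (fun l => U (EuclideanSpace.single l (1 : ℝ)))).trans ?_
    apply mul_le_mul_of_nonneg_left _ hC
    have e1 : ∀ ε : Fin n → Bool, ∑ i, sg (ε i) • U (EuclideanSpace.single i (1 : ℝ)) =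
        U (sgv ε) := by
      intro ε
      unfold sgv
      rw [map_sum]
      simp only [map_smul]
    have e2 : (∑ ε : Fin n → Bool, ‖∑ i, sg (ε i) • U (EuclideanSpace.single i (1 : ℝ))‖ ^ 2) /
        2 ^ n ≤ K ^ 2 * (n * B) := by
      have h5 : (∑ ε : Fin n → Bool, ‖∑ i, sg (ε i) • U (EuclideanSpace.single i (1 : ℝ))‖ ^ 2) ≤
          K ^ 2 * ∑ ε : Fin n → Bool, M ε ^ 2 := by
        rw [Finset.mul_sum]
        apply Finset.sum_le_sum
        intro ε _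
        rw [e1, ← mul_pow]
        exact pow_le_pow_left₀ (norm_nonneg _) (hU _ _ (hM0 ε) (hM1 ε)) 2
      calc _ ≤ (K ^ 2 * ∑ ε : Fin n → Bool, M ε ^ 2) / 2 ^ n := by gcongr
        _ = K ^ 2 * ((∑ ε : Fin n → Bool, M ε ^ 2) / 2 ^ n) := by rw [mul_div_assoc]
        _ ≤ K ^ 2 * (n * B) := by gcongr
    have e3 : (K ^ 2 * (n * B)) ^ (1 / 2 : ℝ) = K * √(n : ℝ) * √B := by
      rw [← Real.sqrt_eq_rpow, Real.sqrt_mul (by positivity), Real.sqrt_sq hK,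
        Real.sqrt_mul hn0.le, mul_assoc]
    rw [← e3]
    apply Real.rpow_le_rpow (by positivity) e2 (by norm_num)
  have hp : 0 ≤ (n : ℝ) ^ (1 - 1 / s) := by positivity
  calc _ ≤ K / √(n : ℝ) * ∑ l, b l := h2
    _ ≤ K / √(n : ℝ) * ((n : ℝ) ^ (1 - 1 / s) * (C * (K * √(n : ℝ) * √B))) := by
        apply mul_le_mul_of_nonneg_left _ (by positivity)
        exact h3.trans (mul_le_mul_of_nonneg_left h4 hp)
    _ = K ^ 2 * C * (n : ℝ) ^ (1 - 1 / s) * √B := by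
        field_simp

end Pool.Agent.Helper130.JB.K3
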