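import Mathlib
import Pool.Agent.Helper130.JB.CotDefs


set_option autoImplicit false
open scoped Topology ENNReal BigOperators
open MeasureTheory Filter Module

namespace Pool.Agent.Helper130.JB.K4















theorem hull_bound {n k : ℕ} (v : Fin k → Eu n) (lam : ℝ) (x : Eu n) (hx : x ∈ hullR lam v)
    (u : Eu n) (M : ℝ) (hM0 : 0 ≤ M) (hM : ∀ i, |(inner ℝ (v i) u : ℝ)| ≤ M) :
    |(inner ℝ u x : ℝ)| ≤ lam * M := by
  obtain ⟨c, hc, rfl⟩ := hx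
  rw [inner_sum]
  refine (Finset.abs_sum_le_sum_abs _ _).trans ?_
  calc ∑ i, |(inner ℝ u (c i • v i) : ℝ)| ≤ ∑ i, |c i| * M := by
        refine Finset.sum_le_sum (fun i _ => ?_)
        rw [real_inner_smul_right, abs_mul, real_inner_comm]
        exact mul_le_mul_of_nonneg_left (hM i) (abs_nonneg _)
    _ = (∑ i, |c i|) * M := by rw [Finset.sum_mul]
    _ ≤ lam * M := mul_le_mul_of_nonneg_right hc hM0

theorem trace_cotype_dual (s C : ℝ) (hs : 2 ≤ s) (hC : 0 ≤ C) {E : Type*}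
    [NormedAddCommGroup E] [NormedSpace ℝ E] (hcot : HasCotype s C (E →L[ℝ] ℝ)) {n k : ℕ}
    (hn : 1 ≤ n) (v : Fin k → Eu n)
    (hv2 : ∀ l : Fin n, ∃ i, v i = (√(n : ℝ)) • EuclideanSpace.single l (1 : ℝ))
    (K : ℝ) (hK : 0 ≤ K) (U : Eu n →ₗ[ℝ] E) (hU : ∀ i, ‖U (v i)‖ ≤ K)
    (W : E →ₗ[ℝ] Eu n) (hW : ∀ y, W y ∈ hullR (K * ‖y‖) v)
    -- proved separately (`B = 2 log (2 k n ^ 2) + 1`):
    (B : ℝ) (hB : 0 ≤ B)
    (hmax : ∃ M : (Fin n → Bool) → ℝ, (∀ ε, 0 ≤ M ε) ∧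
      (∀ ε i, |(inner ℝ (v i) (sgv ε) : ℝ)| ≤ M ε) ∧ (∑ ε, M ε ^ 2) / 2 ^ n ≤ n * B) :
    |∑ l : Fin n, (inner ℝ (EuclideanSpace.single l (1 : ℝ))
      (W (U (EuclideanSpace.single l (1 : ℝ)))) : ℝ)| ≤
        K ^ 2 * C * (n : ℝ) ^ (1 - 1 / s) * √B := by
  obtain ⟨M, hM0, hM1, hM2⟩ := hmax
  have hn0 : (0 : ℝ) < n := by exact_mod_cast hn
  have hsn : 0 < √(n : ℝ) := Real.sqrt_pos.mpr hn0
  have hs0 : 0 < s := by linarith
  -- the functionals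
  have hphi : ∀ l : Fin n, ∃ φ : E →L[ℝ] ℝ, ∀ y, φ y = inner ℝ (EuclideanSpace.single l (1 : ℝ)) (W y) := by
    intro l
    refine ⟨LinearMap.mkContinuous
      ((innerSL ℝ (EuclideanSpace.single l (1 : ℝ) : Eu n)).toLinearMap ∘ₗ W)
      (K * ∑ i, |(inner ℝ (v i) (EuclideanSpace.single l (1 : ℝ)) : ℝ)|) (fun y => ?_), fun y => rfl⟩
    have h := hull_bound v (K * ‖y‖) (W y) (hW y) (EuclideanSpace.single l (1 : ℝ))
      (∑ i, |(inner ℝ (v i) (EuclideanSpace.single l (1 : ℝ)) : ℝ)|)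
      (Finset.sum_nonneg fun i _ => abs_nonneg _)
      (fun i => Finset.single_le_sum (f := fun i => |(inner ℝ (v i) (EuclideanSpace.single l (1 : ℝ)) : ℝ)|)
        (fun j _ => abs_nonneg _) (Finset.mem_univ i))
    calc ‖(inner ℝ (EuclideanSpace.single l (1 : ℝ)) (W y) : ℝ)‖ ≤ _ := h
      _ = _ := by ring
  choose φ hφ using hphi
  have hsum : ∀ ε : Fin n → Bool, ‖∑ l, sg (ε l) • φ l‖ ≤ K * M ε := by
    intro ε
    refine ContinuousLinearMap.opNorm_le_bound _ (mul_nonneg hK (hM0 ε)) (fun y => ?_)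
    have h1 : (∑ l, sg (ε l) • φ l) y = inner ℝ (sgv ε) (W y) := by
      rw [_root_.sum_apply]
      unfold sgv
      rw [sum_inner]
      refine Finset.sum_congr rfl (fun l _ => ?_)
      rw [real_inner_smul_left, ← hφ]
      rfl
    rw [h1]
    have h2 := hull_bound v (K * ‖y‖) (W y) (hW y) (sgv ε) (M ε) (hM0 ε) (hM1 ε)
    calc ‖(inner ℝ (sgv ε) (W y) : ℝ)‖ ≤ K * ‖y‖ * M ε := h2
      _ = _ := by ring
  have hUe : ∀ l : Fin n, ‖U (EuclideanSpace.single l (1 : ℝ))‖ ≤ K / √(n : ℝ) := by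
    intro l
    obtain ⟨i, hi⟩ := hv2 l
    have h := hU i
    rw [hi, map_smul, norm_smul, Real.norm_of_nonneg hsn.le] at h
    rw [le_div_iff₀ hsn]
    linarith
  have h1 : |∑ l : Fin n, (inner ℝ (EuclideanSpace.single l (1 : ℝ))
      (W (U (EuclideanSpace.single l (1 : ℝ)))) : ℝ)| ≤ (∑ l, ‖φ l‖) * (K / √(n : ℝ)) := by
    refine (Finset.abs_sum_le_sum_abs _ _).trans ?_
    rw [Finset.sum_mul]
    refine Finset.sum_le_sum (fun l _ => ?_)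
    rw [← hφ, ← Real.norm_eq_abs]
    exact ((φ l).le_opNorm _).trans (mul_le_mul_of_nonneg_left (hUe l) (norm_nonneg _))
  have h2 : ∑ l, ‖φ l‖ ≤ (n : ℝ) ^ (1 - 1 / s) * (∑ l, ‖φ l‖ ^ s) ^ (1 / s) := by
    have h3 := Real.rpow_sum_le_const_mul_sum_rpow_of_nonneg (Finset.univ : Finset (Fin n))
      (f := fun l => ‖φ l‖) (p := s) (by linarith) (fun i _ => norm_nonneg _)
    rw [Finset.card_univ, Fintype.card_fin] at h3
    have h4 : 0 ≤ ∑ l, ‖φ l‖ := Finset.sum_nonneg fun i _ => norm_nonneg _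
    have h5 : 0 ≤ ∑ l, ‖φ l‖ ^ s := Finset.sum_nonneg fun i _ => Real.rpow_nonneg (norm_nonneg _) _
    have h6 := Real.rpow_le_rpow (Real.rpow_nonneg h4 _) h3 (show (0 : ℝ) ≤ 1 / s by positivity)
    rw [← Real.rpow_mul h4, mul_one_div_cancel hs0.ne', Real.rpow_one,
      Real.mul_rpow (Real.rpow_nonneg hn0.le _) h5, ← Real.rpow_mul hn0.le] at h6
    have h7 : (s - 1) * (1 / s) = 1 - 1 / s := by field_simp
    rwa [h7] at h6
  have h3 := hcot n φ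
  have h4 : ((∑ ε : Fin n → Bool, ‖∑ i, sg (ε i) • φ i‖ ^ 2) / 2 ^ n) ^ (1 / 2 : ℝ) ≤
      K * (√(n : ℝ) * √B) := by
    rw [← Real.sqrt_eq_rpow]
    have h5 : (∑ ε : Fin n → Bool, ‖∑ i, sg (ε i) • φ i‖ ^ 2) / 2 ^ n ≤ K ^ 2 * (n * B) := by
      calc (∑ ε : Fin n → Bool, ‖∑ i, sg (ε i) • φ i‖ ^ 2) / 2 ^ n
          ≤ (∑ ε : Fin n → Bool, K ^ 2 * M ε ^ 2) / 2 ^ n := by
            refine div_le_div_of_nonneg_right ?_ (by positivity)
            refine Finset.sum_le_sum (fun ε _ => ?_)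
            rw [← mul_pow]
            exact pow_le_pow_left₀ (norm_nonneg _) (hsum ε) 2
        _ = K ^ 2 * ((∑ ε : Fin n → Bool, M ε ^ 2) / 2 ^ n) := by
            rw [← Finset.mul_sum, mul_div_assoc]
        _ ≤ K ^ 2 * (n * B) := mul_le_mul_of_nonneg_left hM2 (sq_nonneg _)
    calc √((∑ ε : Fin n → Bool, ‖∑ i, sg (ε i) • φ i‖ ^ 2) / 2 ^ n) ≤ √(K ^ 2 * (n * B)) :=
          Real.sqrt_le_sqrt h5
      _ = K * (√(n : ℝ) * √B) := by
          rw [Real.sqrt_mul (sq_nonneg _), Real.sqrt_sq hK, Real.sqrt_mul hn0.le]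
  have hnp : 0 ≤ (n : ℝ) ^ (1 - 1 / s) := Real.rpow_nonneg hn0.le _
  calc |∑ l : Fin n, (inner ℝ (EuclideanSpace.single l (1 : ℝ))
      (W (U (EuclideanSpace.single l (1 : ℝ)))) : ℝ)| ≤ (∑ l, ‖φ l‖) * (K / √(n : ℝ)) := h1
    _ ≤ ((n : ℝ) ^ (1 - 1 / s) * (C * (K * (√(n : ℝ) * √B)))) * (K / √(n : ℝ)) := by
        refine mul_le_mul_of_nonneg_right ?_ (by positivity)
        exact h2.trans (mul_le_mul_of_nonneg_left (h3.trans (mul_le_mul_of_nonneg_left h4 hC)) hnp)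
    _ = K ^ 2 * C * (n : ℝ) ^ (1 - 1 / s) * √B := by
        field_simp

end Pool.Agent.Helper130.JB.K4
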