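import Mathlib
import Pool.Agent.Helper130.JB.CotDefs


set_option autoImplicit false
open scoped Topology ENNReal BigOperators
open MeasureTheory Filter Module

namespace Pool.Agent.Helper130.JB.K5















theorem hullR_convex {n k : ℕ} (v : Fin k → Eu n) (K : ℝ) : Convex ℝ (hullR K v) := by
  rintro x ⟨c, hc, rfl⟩ y ⟨d, hd, rfl⟩ a b ha hb hab
  refine ⟨fun i => a * c i + b * d i, ?_, ?_⟩
  · calc ∑ i, |a * c i + b * d i| ≤ ∑ i, (a * |c i| + b * |d i|) := by
          refine Finset.sum_le_sum fun i _ => ?_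
          calc |a * c i + b * d i| ≤ |a * c i| + |b * d i| := abs_add_le _ _
            _ = a * |c i| + b * |d i| := by rw [abs_mul, abs_mul, abs_of_nonneg ha, abs_of_nonneg hb]
      _ = a * ∑ i, |c i| + b * ∑ i, |d i| := by
          rw [Finset.sum_add_distrib, Finset.mul_sum, Finset.mul_sum]
      _ ≤ a * K + b * K := add_le_add (mul_le_mul_of_nonneg_left hc ha)
          (mul_le_mul_of_nonneg_left hd hb)
      _ = K := by rw [← add_mul, hab, one_mul]
  · rw [Finset.smul_sum, Finset.smul_sum, ← Finset.sum_add_distrib]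
    refine Finset.sum_congr rfl fun i _ => ?_
    rw [add_smul, mul_smul, mul_smul]

theorem hullR_closed {n k : ℕ} (v : Fin k → Eu n) (K : ℝ) : IsClosed (hullR K v) := by
  have h1 : hullR K v = (fun c : Fin k → ℝ => ∑ i, c i • v i) '' {c | ∑ i, |c i| ≤ K} := by
    ext x
    constructor
    · rintro ⟨c, hc, rfl⟩
      exact ⟨c, hc, rfl⟩
    · rintro ⟨c, hc, rfl⟩
      exact ⟨c, hc, rfl⟩
  have h2 : IsCompact {c : Fin k → ℝ | ∑ i, |c i| ≤ K} := by
    refine Metric.isCompact_of_isClosed_isBounded ?_ ?_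
    · exact isClosed_le (by fun_prop) continuous_const
    · refine (Metric.isBounded_closedBall (x := (0 : Fin k → ℝ)) (r := K)).subset ?_
      intro c hc
      have hc' : ∑ i, |c i| ≤ K := hc
      have hK : 0 ≤ K := le_trans (Finset.sum_nonneg fun i _ => abs_nonneg (c i)) hc'
      rw [mem_closedBall_zero_iff, pi_norm_le_iff_of_nonneg hK]
      intro i
      rw [Real.norm_eq_abs]
      exact le_trans (Finset.single_le_sum (f := fun i => |c i|)
        (fun i _ => abs_nonneg (c i)) (Finset.mem_univ i)) hc'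
  rw [h1]
  exact (h2.image (by fun_prop)).isClosed

/-- bipolar theorem for a finite family -/
theorem mem_hullR_of_le {n k : ℕ} (v : Fin k → Eu n) (K : ℝ) (hK : 0 ≤ K) (z : Eu n)
    (hz : ∀ (x : Eu n) (M : ℝ), 0 ≤ M → (∀ i, |(inner ℝ (v i) x : ℝ)| ≤ M) →
      |(inner ℝ z x : ℝ)| ≤ K * M) : z ∈ hullR K v := by
  by_contra hzn
  obtain ⟨f, u, hf1, hf2⟩ := geometric_hahn_banach_closed_point (hullR_convex v K)
    (hullR_closed v K) hzn
  obtain ⟨x, hx⟩ : ∃ x : Eu n, ∀ y, f y = inner ℝ y x := by
    refine ⟨(InnerProductSpace.toDual ℝ (Eu n)).symm f, fun y => ?_⟩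
    rw [real_inner_comm, InnerProductSpace.toDual_symm_apply]
  rcases isEmpty_or_nonempty (Fin k) with hk | hk
  · have h1 := hz x 0 le_rfl (fun i => (hk.false i).elim)
    have h2 : f 0 < u := hf1 0 ⟨0, by simpa using hK, by simp⟩
    rw [map_zero] at h2
    rw [hx] at hf2
    have h3 := le_abs_self (inner ℝ z x)
    linarith
  · obtain ⟨i₀, hi₀⟩ := Finite.exists_max (fun i => |(inner ℝ (v i) x : ℝ)|)
    have h1 := hz x _ (abs_nonneg _) hi₀
    have h2 : (K * SignType.sign (inner ℝ (v i₀) x : ℝ)) • v i₀ ∈ hullR K v := by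
      refine ⟨Pi.single i₀ (K * SignType.sign (inner ℝ (v i₀) x : ℝ)), ?_, ?_⟩
      · rw [Finset.sum_eq_single i₀]
        · rw [Pi.single_eq_same, abs_mul, abs_of_nonneg hK]
          have : |((SignType.sign (inner ℝ (v i₀) x : ℝ) : SignType) : ℝ)| ≤ 1 := by
            rcases SignType.sign (inner ℝ (v i₀) x : ℝ) <;> simp
          nlinarith
        · intro j _ hj
          rw [Pi.single_eq_of_ne hj, abs_zero]
        · intro h
          exact (h (Finset.mem_univ _)).elim
      · rw [Finset.sum_eq_single i₀]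
        · rw [Pi.single_eq_same]
        · intro j _ hj
          rw [Pi.single_eq_of_ne hj, zero_smul]
        · intro h
          exact (h (Finset.mem_univ _)).elim
    have h3 := hf1 _ h2
    rw [hx, real_inner_smul_left, mul_assoc, sign_mul_self] at h3
    rw [hx] at hf2
    have h4 := le_abs_self (inner ℝ z x)
    linarith

end Pool.Agent.Helper130.JB.K5
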