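import Mathlib
import Pool.Agent.Helper130.JB.CotDefs


set_option autoImplicit false
open scoped Topology ENNReal BigOperators
open MeasureTheory Filter Module

namespace Pool.Agent.Helper130.JB.K6
















theorem fr_comap {n c : ℕ} (T : Eu n →ₗ[ℝ] Eu n) (G : Submodule ℝ (Eu n))
    (h : n ≤ finrank ℝ G + c) : n ≤ finrank ℝ (G.comap T) + c := by
  have h1 : G.comap T = LinearMap.ker (G.mkQ ∘ₗ T) := by
    rw [LinearMap.ker_comp, Submodule.ker_mkQ]
  have h2 := LinearMap.finrank_range_add_finrank_ker (G.mkQ ∘ₗ T)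
  rw [← h1, finrank_euclideanSpace_fin] at h2
  have h3 := Submodule.finrank_le (LinearMap.range (G.mkQ ∘ₗ T))
  have h4 := Submodule.finrank_quotient_add_finrank G
  rw [finrank_euclideanSpace_fin] at h4
  omega

theorem fr_inf {n a b : ℕ} (A B : Submodule ℝ (Eu n)) (hA : n ≤ finrank ℝ A + a)
    (hB : n ≤ finrank ℝ B + b) : n ≤ finrank ℝ (A ⊓ B : Submodule ℝ (Eu n)) + (a + b) := by
  have h1 := Submodule.finrank_sup_add_finrank_inf_eq A B
  have h2 := Submodule.finrank_le (A ⊔ B)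
  rw [finrank_euclideanSpace_fin] at h2
  omega

theorem fr_ker {n : ℕ} (f : Eu n →ₗ[ℝ] ℝ) : n ≤ finrank ℝ (LinearMap.ker f) + 1 := by
  have h2 := LinearMap.finrank_range_add_finrank_ker f
  rw [finrank_euclideanSpace_fin] at h2
  have h3 := Submodule.finrank_le (LinearMap.range f)
  rw [finrank_self] at h3
  omega

theorem fr_exists {n a : ℕ} (A : Submodule ℝ (Eu n)) (hA : n ≤ finrank ℝ A + a) (h : a < n) :
    ∃ x ∈ A, x ≠ 0 := by
  apply Submodule.exists_mem_ne_zero_of_ne_bot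
  rintro rfl
  rw [finrank_bot] at hA
  omega

theorem adapted {n : ℕ} (G : Submodule ℝ (Eu n)) :
    ∃ b : OrthonormalBasis (Fin n) ℝ (Eu n), ∀ i : Fin n, i.val < finrank ℝ G → b i ∈ G := by
  classical
  let b' := stdOrthonormalBasis ℝ G
  let v : Fin n → Eu n := fun i => if h : i.val < finrank ℝ G then (b' ⟨i.val, h⟩ : Eu n) else 0
  let s : Set (Fin n) := {i | i.val < finrank ℝ G}
  have ho : Orthonormal ℝ (fun j : Fin (finrank ℝ G) => (b' j : Eu n)) :=
    b'.orthonormal.comp_linearIsometry G.subtypeₗᵢ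
  have hv : Orthonormal ℝ (s.domRestrict v) := by
    let f : s → Fin (finrank ℝ G) := fun i => ⟨i.1.val, i.2⟩
    have hf : Function.Injective f := by
      intro i j hij
      apply Subtype.ext
      apply Fin.ext
      have := congrArg Fin.val hij
      exact this
    have h1 := ho.comp f hf
    have h2 : s.domRestrict v = (fun j : Fin (finrank ℝ G) => (b' j : Eu n)) ∘ f := by
      funext i
      show v i.1 = _
      simp only [v, Function.comp, f]
      rw [dif_pos (show i.1.val < finrank ℝ G from i.2)]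
    rw [h2]
    exact h1
  obtain ⟨b, hb⟩ := hv.exists_orthonormalBasis_extension_of_card_eq (by simp)
  refine ⟨b, fun i hi => ?_⟩
  rw [hb i hi]
  simp only [v]
  rw [dif_pos hi]
  exact (b' _).2

theorem hs_eq {n : ℕ} (D : Eu n →ₗ[ℝ] Eu n) (b b' : OrthonormalBasis (Fin n) ℝ (Eu n)) :
    ∑ i, ‖D (b i)‖ ^ 2 = ∑ i, ‖D (b' i)‖ ^ 2 := by
  have h : ∀ b : OrthonormalBasis (Fin n) ℝ (Eu n), ∑ i, ‖D (b i)‖ ^ 2 =
      LinearMap.trace ℝ _ ((LinearMap.adjoint D) ∘ₗ D) := by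
    intro b
    rw [LinearMap.trace_eq_sum_inner _ b]
    apply Finset.sum_congr rfl
    intro i _
    rw [LinearMap.comp_apply, LinearMap.adjoint_inner_right, real_inner_self_eq_norm_sq]
  rw [h, h]

theorem key_bound {n c : ℕ} {K : ℝ} (hK : 1 ≤ K) (hn : 100 ≤ n)
    (hc : 80000 * K ^ 4 * c ≤ n) (T : Eu n →ₗ[ℝ] Eu n) (t : ℝ) (G : Submodule ℝ (Eu n))
    (hG : n ≤ finrank ℝ G + c) (hx : ∀ x ∈ G, ‖T x - t • x‖ ≤ 1 / 100 * ‖x‖)
    (hT : ∀ (l : Fin n), ‖T (EuclideanSpace.single l (1 : ℝ)) -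
      T (T (EuclideanSpace.single l (1 : ℝ)))‖ ≤ 2 * K ^ 2)
    (h2 : |∑ l : Fin n, (inner ℝ (EuclideanSpace.single l (1 : ℝ))
      (T (EuclideanSpace.single l (1 : ℝ)) -
        T (T (EuclideanSpace.single l (1 : ℝ)))) : ℝ)| ≤ 1 / 100 * n) :
    |t| ≤ 1 / 20 ∨ |t - 1| ≤ 1 / 20 := by
  classical
  set D : Eu n →ₗ[ℝ] Eu n := T - T ∘ₗ T with hD
  have hDa : ∀ x, D x = T x - T (T x) := fun x => rfl
  set G' : Submodule ℝ (Eu n) := G ⊓ G.comap T with hG'
  have hfr : n ≤ finrank ℝ G' + (c + c) := fr_inf G _ hG (fr_comap T G hG)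
  have hfr2 : finrank ℝ G' ≤ n := by
    have := Submodule.finrank_le G'
    rwa [finrank_euclideanSpace_fin] at this
  obtain ⟨b, hb⟩ := adapted G'
  set m := finrank ℝ G' with hm
  set κ := t - t ^ 2 with hκ
  set η := 1 / 100 * (|1 - t| + |t|) + 1 / 10000 with hη
  have hη0 : 0 ≤ η := by positivity
  have hnR : (0 : ℝ) < n := by
    have : (100 : ℝ) ≤ n := by exact_mod_cast hn
    linarith
  have hK4 : 1 ≤ K ^ 4 := one_le_pow₀ hK
  have hcR : (80000 : ℝ) * c ≤ n := by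
    have hc0 : (0 : ℝ) ≤ c := Nat.cast_nonneg c
    have : (80000 : ℝ) * c ≤ 80000 * K ^ 4 * c := by
      apply mul_le_mul_of_nonneg_right _ hc0
      linarith
    linarith
  -- on G'
  have hgood : ∀ x ∈ G', ‖x‖ = 1 → ‖D x - κ • x‖ ≤ η := by
    intro x hxG hx1
    have ha := hx x hxG.1
    have hb := hx (T x) hxG.2
    rw [hx1, mul_one] at ha
    have hTx : ‖T x‖ ≤ |t| + 1 / 100 := by
      calc ‖T x‖ = ‖t • x + (T x - t • x)‖ := by rw [add_sub_cancel]
        _ ≤ ‖t • x‖ + ‖T x - t • x‖ := norm_add_le _ _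
        _ ≤ |t| + 1 / 100 := by
          rw [norm_smul, hx1, mul_one, Real.norm_eq_abs]
          linarith
    have e : D x - κ • x = (1 - t) • (T x - t • x) - (T (T x) - t • T x) := by
      rw [hDa, hκ]
      module
    rw [e]
    calc ‖(1 - t) • (T x - t • x) - (T (T x) - t • T x)‖
        ≤ ‖(1 - t) • (T x - t • x)‖ + ‖T (T x) - t • T x‖ := norm_sub_le _ _
      _ ≤ |1 - t| * (1 / 100) + 1 / 100 * (|t| + 1 / 100) := by
          apply add_le_add
          · rw [norm_smul, Real.norm_eq_abs]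
            exact mul_le_mul_of_nonneg_left ha (abs_nonneg _)
          · exact hb.trans (mul_le_mul_of_nonneg_left hTx (by norm_num))
      _ = η := by rw [hη]; ring
  -- trace
  have htr : ∑ l : Fin n, (inner ℝ (EuclideanSpace.single l (1 : ℝ))
      (T (EuclideanSpace.single l (1 : ℝ)) -
        T (T (EuclideanSpace.single l (1 : ℝ)))) : ℝ) = ∑ i, (inner ℝ (b i) (D (b i)) : ℝ) := by
    rw [← LinearMap.trace_eq_sum_inner D b,
      LinearMap.trace_eq_sum_inner D (EuclideanSpace.basisFun (Fin n) ℝ)]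
    apply Finset.sum_congr rfl
    intro l _
    rw [EuclideanSpace.basisFun_apply, hDa]
  rw [htr] at h2
  have hHS : ∑ i, ‖D (b i)‖ ^ 2 ≤ n * (2 * K ^ 2) ^ 2 := by
    rw [hs_eq D b (EuclideanSpace.basisFun (Fin n) ℝ)]
    calc ∑ i, ‖D ((EuclideanSpace.basisFun (Fin n) ℝ) i)‖ ^ 2 ≤ ∑ _i : Fin n, (2 * K ^ 2) ^ 2 := by
          apply Finset.sum_le_sum
          intro l _
          rw [EuclideanSpace.basisFun_apply, hDa]
          exact pow_le_pow_left₀ (norm_nonneg _) (hT l) 2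
      _ = n * (2 * K ^ 2) ^ 2 := by simp
  let A : Finset (Fin n) := Finset.univ.filter (fun i => i.val < m)
  let A' : Finset (Fin n) := Finset.univ.filter (fun i => ¬ i.val < m)
  have hAcard : A.card = m := by
    have := Fin.card_filter_val_lt (n := n) (m := m)
    simp only [A]
    rw [this]
    omega
  have hA'card : A.card + A'.card = n := by
    have := Finset.card_filter_add_card_filter_not (s := (Finset.univ : Finset (Fin n)))
      (fun i : Fin n => i.val < m)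
    rw [Finset.card_univ, Fintype.card_fin] at this
    exact this
  have hsplit : ∑ i, (inner ℝ (b i) (D (b i)) : ℝ) =
      ∑ i ∈ A, (inner ℝ (b i) (D (b i)) : ℝ) + ∑ i ∈ A', (inner ℝ (b i) (D (b i)) : ℝ) :=
    (Finset.sum_filter_add_sum_filter_not _ _ _).symm
  have hSA : |∑ i ∈ A, (inner ℝ (b i) (D (b i)) : ℝ) - κ * m| ≤ η * m := by
    have e : κ * m = ∑ i ∈ A, κ := by rw [Finset.sum_const, hAcard, nsmul_eq_mul, mul_comm]
    have e' : η * m = ∑ i ∈ A, η := by rw [Finset.sum_const, hAcard, nsmul_eq_mul, mul_comm]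
    rw [e, e', ← Finset.sum_sub_distrib]
    refine (Finset.abs_sum_le_sum_abs _ _).trans (Finset.sum_le_sum ?_)
    intro i hi
    have hi2 : i.val < m := (Finset.mem_filter.1 hi).2
    have hn1 : ‖b i‖ = 1 := b.norm_eq_one i
    have e2 : (inner ℝ (b i) (D (b i)) : ℝ) - κ = inner ℝ (b i) (D (b i) - κ • b i) := by
      rw [inner_sub_right, inner_smul_right, real_inner_self_eq_norm_sq, hn1]
      ring
    rw [e2]
    refine (abs_real_inner_le_norm _ _).trans ?_
    rw [hn1, one_mul]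
    exact hgood _ (hb i hi2) hn1
  have hSA' : |∑ i ∈ A', (inner ℝ (b i) (D (b i)) : ℝ)| ≤ 1 / 100 * n := by
    have h3 : |∑ i ∈ A', (inner ℝ (b i) (D (b i)) : ℝ)| ≤ ∑ i ∈ A', ‖D (b i)‖ := by
      refine (Finset.abs_sum_le_sum_abs _ _).trans (Finset.sum_le_sum ?_)
      intro i _
      refine (abs_real_inner_le_norm _ _).trans ?_
      rw [b.norm_eq_one i, one_mul]
    have h4 : (∑ i ∈ A', ‖D (b i)‖) ^ 2 ≤ (A'.card : ℝ) * ∑ i ∈ A', ‖D (b i)‖ ^ 2 :=
      sq_sum_le_card_mul_sum_sq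
    have h5 : ∑ i ∈ A', ‖D (b i)‖ ^ 2 ≤ n * (2 * K ^ 2) ^ 2 := by
      refine le_trans ?_ hHS
      apply Finset.sum_le_sum_of_subset_of_nonneg (Finset.subset_univ _)
      intro i _ _
      positivity
    have h6 : (A'.card : ℝ) ≤ 2 * c := by
      have : A'.card ≤ 2 * c := by omega
      exact_mod_cast this
    have h7 : (∑ i ∈ A', ‖D (b i)‖) ^ 2 ≤ (1 / 100 * n) ^ 2 := by
      calc (∑ i ∈ A', ‖D (b i)‖) ^ 2 ≤ (A'.card : ℝ) * ∑ i ∈ A', ‖D (b i)‖ ^ 2 := h4
        _ ≤ 2 * c * (n * (2 * K ^ 2) ^ 2) := by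
          apply mul_le_mul h6 h5 (Finset.sum_nonneg fun i _ => by positivity) (by positivity)
        _ = (80000 * K ^ 4 * c) * n / 10000 := by ring
        _ ≤ n * n / 10000 := by
          apply div_le_div_of_nonneg_right _ (by norm_num)
          exact mul_le_mul_of_nonneg_right hc hnR.le
        _ = (1 / 100 * n) ^ 2 := by ring
    exact h3.trans ((pow_le_pow_iff_left₀ (Finset.sum_nonneg fun i _ => norm_nonneg _) (by positivity) two_ne_zero).1 h7)
  -- conclusion
  have hmR : (n : ℝ) * (39999 / 40000) ≤ m := by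
    have : (n : ℝ) ≤ m + (c + c) := by exact_mod_cast hfr
    linarith
  have hmn : (m : ℝ) ≤ n := by exact_mod_cast hfr2
  have hmain : |κ| * m ≤ η * m + 1 / 50 * n := by
    rw [hsplit] at h2
    have h8 : |κ * m| ≤ η * m + 1 / 50 * n := by
      rw [abs_le] at h2 hSA hSA' ⊢
      constructor <;> linarith [h2.1, h2.2, hSA.1, hSA.2, hSA'.1, hSA'.2]
    rwa [abs_mul, abs_of_nonneg (show (0 : ℝ) ≤ m from Nat.cast_nonneg m)] at h8
  have hfin : |κ| ≤ η + 201 / 10000 := by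
    by_contra hcon
    push Not at hcon
    have hmpos : (0 : ℝ) < m := by
      have : 0 < (n : ℝ) * (39999 / 40000) := by positivity
      linarith
    have h9 : (η + 201 / 10000) * m < |κ| * m := mul_lt_mul_of_pos_right hcon hmpos
    have h10 : 201 / 10000 * (m : ℝ) < 1 / 50 * n := by linarith
    linarith
  by_contra hcon
  push Not at hcon
  obtain ⟨hc1, hc2⟩ := hcon
  rw [hη] at hfin
  have hκ1 : κ ≤ |κ| := le_abs_self _
  have hκ2 : -κ ≤ |κ| := neg_le_abs _
  rcases le_total t 0 with h | h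
  · rw [abs_of_nonpos h] at hc1 hfin
    rw [abs_of_nonneg (by linarith : 0 ≤ 1 - t)] at hfin
    nlinarith
  · rcases le_total t 1 with h' | h'
    · rw [abs_of_nonneg h] at hc1 hfin
      rw [abs_of_nonneg (by linarith : 0 ≤ 1 - t)] at hfin
      rw [abs_of_nonpos (by linarith : t - 1 ≤ 0)] at hc2
      nlinarith
    · rw [abs_of_nonneg h] at hc1 hfin
      rw [abs_of_nonpos (by linarith : 1 - t ≤ 0)] at hfin
      rw [abs_of_nonneg (by linarith : 0 ≤ t - 1)] at hc2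
      nlinarith

theorem no_path2 (n c : ℕ) (K : ℝ) (hK : 1 ≤ K) (hn : 100 ≤ n)
    (hc : 80000 * K ^ 4 * c ≤ n) (T : ℕ → Eu n →ₗ[ℝ] Eu n)
    (h1 : ∀ j, ∃ (t : ℝ) (G : Submodule ℝ (Eu n)), n ≤ finrank ℝ G + c ∧
      ∀ x ∈ G, ‖T j x - t • x‖ ≤ 1 / 100 * ‖x‖)
    (hT : ∀ j (l : Fin n), ‖T j (EuclideanSpace.single l (1 : ℝ)) -
      T j (T j (EuclideanSpace.single l (1 : ℝ)))‖ ≤ 2 * K ^ 2)
    (h2 : ∀ j, |∑ l : Fin n, (inner ℝ (EuclideanSpace.single l (1 : ℝ))
      (T j (EuclideanSpace.single l (1 : ℝ)) -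
        T j (T j (EuclideanSpace.single l (1 : ℝ)))) : ℝ)| ≤ 1 / 100 * n)
    (h3 : ∀ x, T 0 x = 0)
    (h4 : ∀ j, ∃ (f : Eu n →ₗ[ℝ] ℝ) (z : Eu n), ∀ x, T (j + 1) x - T j x = f x • z)
    (h5 : ∀ x, Tendsto (fun j => T j x) atTop (𝓝 x)) : False := by
  classical
  choose t G hG hx using h1
  have hK4 : 1 ≤ K ^ 4 := one_le_pow₀ hK
  have hcR : (80000 : ℝ) * c ≤ n := by
    have hc0 : (0 : ℝ) ≤ c := Nat.cast_nonneg c
    have : (80000 : ℝ) * c ≤ 80000 * K ^ 4 * c := by
      apply mul_le_mul_of_nonneg_right _ hc0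
      linarith
    linarith
  have hcN : 80000 * c ≤ n := by exact_mod_cast hcR
  have hkey : ∀ j, |t j| ≤ 1 / 20 ∨ |t j - 1| ≤ 1 / 20 := fun j =>
    key_bound hK hn hc (T j) (t j) (G j) (hG j) (hx j) (hT j) (h2 j)
  -- steps
  have hstep : ∀ j, |t j - t (j + 1)| ≤ 1 / 50 := by
    intro j
    obtain ⟨f, z, hf⟩ := h4 j
    obtain ⟨x, hxm, hx0⟩ := fr_exists _ (fr_inf _ _ (fr_inf _ _ (hG j) (hG (j + 1))) (fr_ker f))
      (by omega)
    have hxp : 0 < ‖x‖ := norm_pos_iff.2 hx0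
    have ha := hx j x hxm.1.1
    have hb := hx (j + 1) x hxm.1.2
    have hc' : T (j + 1) x = T j x := by
      have h6 := hf x
      rw [LinearMap.mem_ker.1 hxm.2, zero_smul, sub_eq_zero] at h6
      exact h6
    rw [hc'] at hb
    have h7 : |t j - t (j + 1)| * ‖x‖ ≤ 1 / 50 * ‖x‖ := by
      calc |t j - t (j + 1)| * ‖x‖ = ‖(T j x - t (j + 1) • x) - (T j x - t j • x)‖ := by
            rw [sub_sub_sub_cancel_left, ← sub_smul, norm_smul, Real.norm_eq_abs]
        _ ≤ ‖T j x - t (j + 1) • x‖ + ‖T j x - t j • x‖ := norm_sub_le _ _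
        _ ≤ 1 / 50 * ‖x‖ := by linarith
    exact le_of_mul_le_mul_right h7 hxp
  -- start
  have hstart : |t 0| ≤ 1 / 20 := by
    obtain ⟨x, hxm, hx0⟩ := fr_exists _ (hG 0) (by omega)
    have hxp : 0 < ‖x‖ := norm_pos_iff.2 hx0
    have ha := hx 0 x hxm
    rw [h3, zero_sub, norm_neg, norm_smul, Real.norm_eq_abs] at ha
    have := le_of_mul_le_mul_right ha hxp
    linarith
  have hall : ∀ j, |t j| ≤ 1 / 20 := by
    intro j
    induction j with
    | zero => exact hstart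
    | succ j ih =>
      rcases hkey (j + 1) with h | h
      · exact h
      · have := hstep j
        rw [abs_le] at this ih h
        linarith [this.1, this.2, ih.1, ih.2, h.1, h.2]
  -- end
  have hend : Tendsto (fun j => ∑ l : Fin n, ‖T j (EuclideanSpace.single l (1 : ℝ)) -
      EuclideanSpace.single l (1 : ℝ)‖) atTop (𝓝 0) := by
    have : Tendsto (fun j => ∑ l : Fin n, ‖T j (EuclideanSpace.single l (1 : ℝ)) -
      EuclideanSpace.single l (1 : ℝ)‖) atTop (𝓝 (∑ l : Fin n, 0)) := by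
      apply tendsto_finsetSum
      intro l _
      exact tendsto_iff_norm_sub_tendsto_zero.1 (h5 (EuclideanSpace.single l (1 : ℝ)))
    simpa using this
  obtain ⟨j, hj⟩ := (hend.eventually_lt_const (show (0 : ℝ) < 1 / 100 by norm_num)).exists
  obtain ⟨x, hxm, hx0⟩ := fr_exists _ (hG j) (by omega)
  have hxp : 0 < ‖x‖ := norm_pos_iff.2 hx0
  have ha := hx j x hxm
  have hb : ‖T j x - x‖ ≤ 1 / 100 * ‖x‖ := by
    have e : x = ∑ l : Fin n, x l • EuclideanSpace.single l (1 : ℝ) := by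
      have := (EuclideanSpace.basisFun (Fin n) ℝ).sum_repr x
      simpa using this.symm
    have e2 : T j x - x = ∑ l : Fin n, x l • (T j (EuclideanSpace.single l (1 : ℝ)) -
        EuclideanSpace.single l (1 : ℝ)) := by
      conv_lhs => rw [e]
      rw [map_sum, ← Finset.sum_sub_distrib]
      apply Finset.sum_congr rfl
      intro l _
      rw [map_smul, smul_sub]
    rw [e2]
    calc ‖∑ l : Fin n, x l • (T j (EuclideanSpace.single l (1 : ℝ)) -
        EuclideanSpace.single l (1 : ℝ))‖ ≤ ∑ l : Fin n, ‖x l • (T j (EuclideanSpace.single l (1 : ℝ)) -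
        EuclideanSpace.single l (1 : ℝ))‖ := norm_sum_le _ _
      _ ≤ ∑ l : Fin n, ‖x‖ * ‖T j (EuclideanSpace.single l (1 : ℝ)) -
        EuclideanSpace.single l (1 : ℝ)‖ := by
          apply Finset.sum_le_sum
          intro l _
          rw [norm_smul]
          exact mul_le_mul_of_nonneg_right (PiLp.norm_apply_le x l) (norm_nonneg _)
      _ = ‖x‖ * ∑ l : Fin n, ‖T j (EuclideanSpace.single l (1 : ℝ)) -
        EuclideanSpace.single l (1 : ℝ)‖ := by rw [Finset.mul_sum]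
      _ ≤ ‖x‖ * (1 / 100) := mul_le_mul_of_nonneg_left hj.le hxp.le
      _ = 1 / 100 * ‖x‖ := by ring
  have h7 : |t j - 1| * ‖x‖ ≤ 1 / 50 * ‖x‖ := by
    calc |t j - 1| * ‖x‖ = ‖(T j x - x) - (T j x - t j • x)‖ := by
          rw [sub_sub_sub_cancel_left]
          conv_rhs => rw [show t j • x - x = (t j - 1) • x by rw [sub_smul, one_smul]]
          rw [norm_smul, Real.norm_eq_abs]
      _ ≤ ‖T j x - x‖ + ‖T j x - t j • x‖ := norm_sub_le _ _
      _ ≤ 1 / 50 * ‖x‖ := by linarith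
  have h8 := le_of_mul_le_mul_right h7 hxp
  have h9 := hall j
  rw [abs_le] at h8 h9
  linarith [h8.1, h8.2, h9.1, h9.2]

end Pool.Agent.Helper130.JB.K6
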