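import Mathlib
import Pool.Agent.Helper130.JB.CotDefs


set_option autoImplicit false
open scoped Topology ENNReal BigOperators
open MeasureTheory Filter Module

namespace Pool.Agent.Helper130.JB.K7















theorem pb_hull_norm {V W : Type*} [AddCommGroup V] [Module ℝ V] [NormedAddCommGroup W]
    [NormedSpace ℝ W] {k : ℕ} (v : Fin k → V) (F : V →ₗ[ℝ] W) (K M : ℝ) (hM : 0 ≤ M)
    (hF : ∀ j, ‖F (v j)‖ ≤ M) (z : V) (hz : z ∈ hullR K v) : ‖F z‖ ≤ K * M := by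
  obtain ⟨c, hc, rfl⟩ := hz
  rw [map_sum]
  calc ‖∑ i, F (c i • v i)‖ ≤ ∑ i, ‖F (c i • v i)‖ := norm_sum_le _ _
    _ ≤ ∑ i, |c i| * M := by
        refine Finset.sum_le_sum fun i _ => ?_
        rw [map_smul, norm_smul, Real.norm_eq_abs]
        exact mul_le_mul_of_nonneg_left (hF i) (abs_nonneg _)
    _ = (∑ i, |c i|) * M := by rw [Finset.sum_mul]
    _ ≤ K * M := mul_le_mul_of_nonneg_right hc hM

theorem pb_E1 (K : ℝ) : ∀ᶠ n : ℕ in atTop, K ≤ (n : ℝ) ^ (1 / 2 - 1 / 4 : ℝ) := by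
  have h1 : Tendsto (fun n : ℕ => (n : ℝ) ^ (1 / 2 - 1 / 4 : ℝ)) atTop atTop :=
    (tendsto_rpow_atTop (by norm_num)).comp tendsto_natCast_atTop_atTop
  exact h1.eventually_ge_atTop K

theorem pb_E2 (s D : ℝ) (hs : 2 ≤ s) (hD : 0 ≤ D) (A : ℕ) :
    ∀ᶠ n : ℕ in atTop, D * (n : ℝ) ^ (1 - 1 / s) *
      √(2 * Real.log (2 * ((A * n + n : ℕ) : ℝ) * (n : ℝ) ^ 2) + 1) ≤ 1 / 100 * n := by
  have hs0 : 0 < s := by linarith
  obtain ⟨q, hq⟩ : ∃ q : ℝ, q = 1 / s := ⟨_, rfl⟩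
  have hq0 : 0 < q := by rw [hq]; positivity
  obtain ⟨η, hη⟩ : ∃ η : ℝ, η = 1 / (100 * (D + 1)) := ⟨_, rfl⟩
  have hη0 : 0 < η := by rw [hη]; positivity
  obtain ⟨a, ha⟩ : ∃ a : ℝ, a = 2 * Real.log (2 * ((A : ℝ) + 1)) + 1 := ⟨_, rfl⟩
  have h1 : Tendsto (fun n : ℕ => η ^ 2 / 2 * (n : ℝ) ^ (2 * q)) atTop atTop := by
    have := (tendsto_rpow_atTop (show 0 < 2 * q by linarith)).comp tendsto_natCast_atTop_atTop
    exact this.const_mul_atTop (by positivity)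
  have h2 : ∀ᶠ n : ℕ in atTop, Real.log (n : ℝ) ≤ η ^ 2 / 12 * (n : ℝ) ^ (2 * q) := by
    have h3 := (isLittleO_log_rpow_atTop (show 0 < 2 * q by linarith)).bound
      (show 0 < η ^ 2 / 12 by positivity)
    have h4 := tendsto_natCast_atTop_atTop (R := ℝ) |>.eventually h3
    filter_upwards [h4] with n hn
    refine (le_abs_self _).trans (hn.trans (le_of_eq ?_))
    rw [Real.norm_eq_abs, abs_of_nonneg (Real.rpow_nonneg (Nat.cast_nonneg n) _)]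
  filter_upwards [h1.eventually_ge_atTop a, h2, eventually_ge_atTop 1] with n hn1 hn2 hn3
  have hn : (0 : ℝ) < n := by exact_mod_cast hn3
  have e1 : 2 * Real.log (2 * ((A * n + n : ℕ) : ℝ) * (n : ℝ) ^ 2) + 1 =
      a + 6 * Real.log n := by
    have e2 : 2 * ((A * n + n : ℕ) : ℝ) * (n : ℝ) ^ 2 = (2 * ((A : ℝ) + 1)) * (n : ℝ) ^ 3 := by
      push_cast; ring
    rw [e2, Real.log_mul (by positivity) (by positivity), Real.log_pow, ha]
    push_cast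
    ring
  have e3 : a + 6 * Real.log n ≤ (η * (n : ℝ) ^ q) ^ 2 := by
    have e4 : (η * (n : ℝ) ^ q) ^ 2 = η ^ 2 * (n : ℝ) ^ (2 * q) := by
      rw [mul_pow, ← Real.rpow_natCast ((n : ℝ) ^ q) 2, ← Real.rpow_mul hn.le]
      congr 2
      push_cast; ring
    rw [e4]
    linarith
  have hnq : 0 < (n : ℝ) ^ q := Real.rpow_pos_of_pos hn q
  have e5 : √(2 * Real.log (2 * ((A * n + n : ℕ) : ℝ) * (n : ℝ) ^ 2) + 1) ≤ η * (n : ℝ) ^ q := by
    rw [e1]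
    refine Real.sqrt_le_iff.2 ⟨by positivity, e3⟩
  have e6 : (n : ℝ) ^ (1 - 1 / s) * (n : ℝ) ^ q = n := by
    rw [← hq, ← Real.rpow_add hn]
    simp
  have hnn : 0 ≤ (n : ℝ) ^ (1 - 1 / s) := Real.rpow_nonneg hn.le _
  calc D * (n : ℝ) ^ (1 - 1 / s) *
      √(2 * Real.log (2 * ((A * n + n : ℕ) : ℝ) * (n : ℝ) ^ 2) + 1)
      ≤ D * (n : ℝ) ^ (1 - 1 / s) * (η * (n : ℝ) ^ q) :=
        mul_le_mul_of_nonneg_left e5 (mul_nonneg hD hnn)
    _ = D * η * ((n : ℝ) ^ (1 - 1 / s) * (n : ℝ) ^ q) := by ring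
    _ = D * η * n := by rw [e6]
    _ ≤ 1 / 100 * n := by
        refine mul_le_mul_of_nonneg_right ?_ hn.le
        rw [hη, mul_one_div, div_le_div_iff₀ (by positivity) (by norm_num)]
        linarith

theorem pb_sum (n : ℕ) (x : Eu n) :
    ∑ l : Fin n, (inner ℝ (EuclideanSpace.single l (1 : ℝ)) x : ℝ) •
      EuclideanSpace.single l (1 : ℝ) = x := by
  have h := (EuclideanSpace.basisFun (Fin n) ℝ).sum_repr' x
  simpa only [EuclideanSpace.basisFun_apply] using h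

theorem primal_block {E : Type*} [NormedAddCommGroup E] [NormedSpace ℝ E] (s C : ℝ)
    (hs : 2 ≤ s) (hC : 0 ≤ C) (K : ℝ) (hK : 1 ≤ K)
    -- all hypotheses below are proved separately:
    (hgluskin : ∀ (θ R : ℝ) (_ : 0 < θ) (_ : θ < 1 / 2) (_ : 1 ≤ R) (L : ℕ) (_ : 2 ≤ L),
      ∃ A n₀ : ℕ, 1 ≤ A ∧ ∀ n : ℕ, n₀ ≤ n → ∃ Γ : Fin (A * n) → Eu n,
      (∀ j, ‖Γ j‖ ≤ √(n : ℝ)) ∧
      ∀ T : Eu n →ₗ[ℝ] Eu n, (∀ i, T (full Γ i) ∈ hullR ((n : ℝ) ^ (1 / 2 - θ)) (full Γ)) →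
        ¬ Mixing n (2 * (n / L)) R T)
    (hmix : ∀ (n m : ℕ) (α : ℝ) (_ : 0 < α) (T : Eu n →ₗ[ℝ] Eu n),
      Mixing n m (1 / α) T ∨
      ∃ (t : ℝ) (G : Submodule ℝ (Eu n)), n ≤ finrank ℝ G + 4 * m ∧
        ∀ x ∈ G, ‖T x - t • x‖ ≤ 8 * α * ‖x‖)
    (hbip : ∀ {n k : ℕ} (v : Fin k → Eu n) (K : ℝ) (_ : 0 ≤ K) (z : Eu n)
      (_ : ∀ (x : Eu n) (M : ℝ), 0 ≤ M → (∀ i, |(inner ℝ (v i) x : ℝ)| ≤ M) →
        |(inner ℝ z x : ℝ)| ≤ K * M), z ∈ hullR K v)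
    (htrace : ∀ {n k : ℕ} (_ : 1 ≤ n) (_ : 1 ≤ k) (v : Fin k → Eu n)
      (_ : ∀ i, ‖v i‖ ≤ √(n : ℝ))
      (_ : ∀ l : Fin n, ∃ i, v i = (√(n : ℝ)) • EuclideanSpace.single l (1 : ℝ))
      (K : ℝ) (_ : 0 ≤ K) (U : Eu n →ₗ[ℝ] E)
      (_ : ∀ x M, 0 ≤ M → (∀ i, |(inner ℝ (v i) x : ℝ)| ≤ M) → ‖U x‖ ≤ K * M)
      (V : E →ₗ[ℝ] Eu n) (_ : ∀ x i, |(inner ℝ (v i) (V (U x)) : ℝ)| ≤ K * ‖U x‖),
      |∑ l : Fin n, (inner ℝ (EuclideanSpace.single l (1 : ℝ))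
        (V (U (EuclideanSpace.single l (1 : ℝ)))) : ℝ)| ≤
        K ^ 2 * C * (n : ℝ) ^ (1 - 1 / s) * √(2 * Real.log (2 * k * (n : ℝ) ^ 2) + 1))
    (hpath : ∀ (n c : ℕ) (K : ℝ) (_ : 1 ≤ K) (_ : 100 ≤ n) (_ : 80000 * K ^ 4 * c ≤ n)
      (T : ℕ → Eu n →ₗ[ℝ] Eu n)
      (_ : ∀ j, ∃ (t : ℝ) (G : Submodule ℝ (Eu n)), n ≤ finrank ℝ G + c ∧
        ∀ x ∈ G, ‖T j x - t • x‖ ≤ 1 / 100 * ‖x‖)
      (_ : ∀ j (l : Fin n), ‖T j (EuclideanSpace.single l (1 : ℝ)) -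
        T j (T j (EuclideanSpace.single l (1 : ℝ)))‖ ≤ 2 * K ^ 2)
      (_ : ∀ j, |∑ l : Fin n, (inner ℝ (EuclideanSpace.single l (1 : ℝ))
        (T j (EuclideanSpace.single l (1 : ℝ)) -
          T j (T j (EuclideanSpace.single l (1 : ℝ)))) : ℝ)| ≤ 1 / 100 * n)
      (_ : ∀ x, T 0 x = 0)
      (_ : ∀ j, ∃ (f : Eu n →ₗ[ℝ] ℝ) (z : Eu n), ∀ x, T (j + 1) x - T j x = f x • z)
      (_ : ∀ x, Tendsto (fun j => T j x) atTop (𝓝 x)), False) :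
    ∃ n₀ : ℕ, 1 ≤ n₀ ∧ ∀ n ≥ n₀, ∃ (k : ℕ) (v : Fin k → Eu n), 1 ≤ k ∧
      (∀ i, ‖v i‖ ≤ √(n : ℝ)) ∧
      (∀ l : Fin n, ∃ i, v i = (√(n : ℝ)) • EuclideanSpace.single l (1 : ℝ)) ∧
      ∀ (Φ : E →L[ℝ] Eu n) (J : Eu n →ₗ[ℝ] E), (∀ x, Φ (J x) = x) →
      ∀ S : ℕ → E →ₗ[ℝ] E, (∀ x, S 0 x = 0) → (∀ m x, S m (S m x) = S m x) →
        (∀ m, ∃ (f : E →ₗ[ℝ] ℝ) (z : E), ∀ x, S (m + 1) x - S m x = f x • z) →
        (∀ x, Tendsto (fun m => S m x) atTop (𝓝 x)) →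
        (∀ m x M, 0 ≤ M → (∀ i, |(inner ℝ (v i) (Φ x) : ℝ)| ≤ M) → ‖x - J (Φ x)‖ ≤ M →
          (∀ i, |(inner ℝ (v i) (Φ (S m x)) : ℝ)| ≤ K * M) ∧
            ‖S m x - J (Φ (S m x))‖ ≤ K * M) → False := by
  obtain ⟨L, hL2, hLK⟩ : ∃ L : ℕ, 2 ≤ L ∧ 640000 * K ^ 4 ≤ (L : ℝ) := by
    refine ⟨max 2 ⌈640000 * K ^ 4⌉₊, le_max_left _ _, ?_⟩
    refine (Nat.le_ceil _).trans ?_
    exact_mod_cast le_max_right _ _
  obtain ⟨A, n₁, hA, hGl⟩ := hgluskin (1 / 4) 800 (by norm_num) (by norm_num) (by norm_num) L hL2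
  have hK0 : 0 ≤ K := by linarith
  have hev := (pb_E1 K).and (pb_E2 s (K ^ 2 * C) hs (by positivity) A)
  obtain ⟨n₂, hn₂⟩ := eventually_atTop.1 hev
  refine ⟨max (max n₁ n₂) 100, le_trans (by norm_num) (le_max_right _ _), ?_⟩
  intro n hn
  have hn1 : n₁ ≤ n := le_trans (le_trans (le_max_left _ _) (le_max_left _ _)) hn
  have hn2 : n₂ ≤ n := le_trans (le_trans (le_max_right _ _) (le_max_left _ _)) hn
  have hn100 : 100 ≤ n := le_trans (le_max_right _ _) hn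
  obtain ⟨hE1, hE2⟩ := hn₂ n hn2
  obtain ⟨Γ, hΓ1, hΓ2⟩ := hGl n hn1
  have hnR : (0 : ℝ) < n := by exact_mod_cast (by omega : 0 < n)
  have hsq : 0 < √(n : ℝ) := Real.sqrt_pos.2 hnR
  obtain ⟨v, hv⟩ : ∃ v : Fin (A * n + n) → Eu n, ∀ i, v i = full Γ (finSumFinEquiv.symm i) :=
    ⟨_, fun _ => rfl⟩
  have hvn : ∀ i, ‖v i‖ ≤ √(n : ℝ) := by
    intro i
    rw [hv]
    rcases finSumFinEquiv.symm i with j | l
    · exact hΓ1 j
    · show ‖(√(n : ℝ)) • EuclideanSpace.single l (1 : ℝ)‖ ≤ √(n : ℝ)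
      rw [norm_smul, EuclideanSpace.norm_single, norm_one, mul_one, Real.norm_eq_abs,
        abs_of_pos hsq]
  have hve : ∀ l : Fin n, ∃ i, v i = (√(n : ℝ)) • EuclideanSpace.single l (1 : ℝ) := by
    intro l
    refine ⟨finSumFinEquiv (Sum.inr l), ?_⟩
    rw [hv, Equiv.symm_apply_apply]
    rfl
  refine ⟨A * n + n, v, by omega, hvn, hve, ?_⟩
  intro Φ J hΦJ S hS0 hSS hS1 hSlim hS5
  obtain ⟨Am, hAm⟩ : ∃ Am : ℕ → Eu n →ₗ[ℝ] Eu n, ∀ m x, Am m x = Φ (S m (J x)) :=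
    ⟨fun m => (Φ : E →ₗ[ℝ] Eu n) ∘ₗ (S m) ∘ₗ J, fun _ _ => rfl⟩
  obtain ⟨T, hT⟩ : ∃ T : ℕ → Eu n →ₗ[ℝ] Eu n, ∀ m, T m = LinearMap.adjoint (Am m) :=
    ⟨_, fun _ => rfl⟩
  have hT1 : ∀ m x y, (inner ℝ (T m x) y : ℝ) = inner ℝ x (Am m y) := by
    intro m x y
    rw [hT, LinearMap.adjoint_inner_left]
  have hT2 : ∀ m x y, (inner ℝ x (T m y) : ℝ) = inner ℝ (Am m x) y := by
    intro m x y
    rw [hT, LinearMap.adjoint_inner_right]
  have hab : ∀ m x M, 0 ≤ M → (∀ i, |(inner ℝ (v i) x : ℝ)| ≤ M) →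
      (∀ i, |(inner ℝ (v i) (Am m x) : ℝ)| ≤ K * M) ∧
        ‖S m (J x) - J (Φ (S m (J x)))‖ ≤ K * M := by
    intro m x M hM h
    have h1 := hS5 m (J x) M hM (by rw [hΦJ]; exact h) (by rw [hΦJ, sub_self, norm_zero]; exact hM)
    refine ⟨fun i => ?_, h1.2⟩
    rw [hAm]
    exact h1.1 i
  have hhull : ∀ m i, T m (v i) ∈ hullR K v := by
    intro m i
    refine hbip v K hK0 _ fun x M hM h => ?_
    rw [hT1]
    exact (hab m x M hM h).1 i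
  have hTv : ∀ m i, ‖T m (v i)‖ ≤ K * √(n : ℝ) := fun m i =>
    pb_hull_norm v LinearMap.id K _ hsq.le hvn _ (hhull m i)
  have hTTv : ∀ m i, ‖T m (T m (v i))‖ ≤ K * (K * √(n : ℝ)) := fun m i =>
    pb_hull_norm v (T m) K _ (by positivity) (hTv m) _ (hhull m i)
  refine hpath n (4 * (2 * (n / L))) K hK hn100 ?_ T ?_ ?_ ?_ ?_ ?_ ?_
  · have h1 : L * (n / L) ≤ n := Nat.mul_div_le n L
    have h2 : (L : ℝ) * ((n / L : ℕ) : ℝ) ≤ n := by exact_mod_cast h1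
    have h3 : 640000 * K ^ 4 * ((n / L : ℕ) : ℝ) ≤ L * ((n / L : ℕ) : ℝ) :=
      mul_le_mul_of_nonneg_right hLK (Nat.cast_nonneg _)
    push_cast
    linarith
  · intro m
    have hnm : ¬ Mixing n (2 * (n / L)) 800 (T m) := by
      apply hΓ2
      intro i
      have h1 : T m (full Γ i) = T m (v (finSumFinEquiv i)) := by
        rw [hv, Equiv.symm_apply_apply]
      rw [h1]
      obtain ⟨c, hc1, hc2⟩ := hhull m (finSumFinEquiv i)
      refine ⟨fun j => c (finSumFinEquiv j), ?_, ?_⟩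
      · rw [Equiv.sum_comp finSumFinEquiv (fun i => |c i|)]
        exact hc1.trans hE1
      · rw [hc2]
        have h2 : ∀ j : Fin (A * n) ⊕ Fin n, c (finSumFinEquiv j) • full Γ j =
            c (finSumFinEquiv j) • v (finSumFinEquiv j) := by
          intro j
          rw [hv, Equiv.symm_apply_apply]
        rw [Finset.sum_congr rfl (fun j _ => h2 j),
          Equiv.sum_comp finSumFinEquiv (fun i => c i • v i)]
    rcases hmix n (2 * (n / L)) (1 / 800) (by norm_num) (T m) with h | ⟨t, G, hG1, hG2⟩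
    · exfalso
      apply hnm
      have : (1 / (1 / 800) : ℝ) = 800 := by norm_num
      rwa [this] at h
    · refine ⟨t, G, hG1, fun x hx => (hG2 x hx).trans (le_of_eq ?_)⟩
      norm_num
  · intro m l
    obtain ⟨i, hi⟩ := hve l
    have h1 := hTv m i
    have h2 := hTTv m i
    rw [hi, map_smul, norm_smul, Real.norm_eq_abs, abs_of_pos hsq] at h1
    rw [hi, map_smul, map_smul, norm_smul, Real.norm_eq_abs, abs_of_pos hsq] at h2
    have h3 : ‖T m (EuclideanSpace.single l (1 : ℝ))‖ ≤ K := by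
      have : √(n : ℝ) * ‖T m (EuclideanSpace.single l (1 : ℝ))‖ ≤ √(n : ℝ) * K := by linarith
      exact le_of_mul_le_mul_left this hsq
    have h4 : ‖T m (T m (EuclideanSpace.single l (1 : ℝ)))‖ ≤ K ^ 2 := by
      have : √(n : ℝ) * ‖T m (T m (EuclideanSpace.single l (1 : ℝ)))‖ ≤ √(n : ℝ) * K ^ 2 := by
        calc _ ≤ K * (K * √(n : ℝ)) := h2
          _ = √(n : ℝ) * K ^ 2 := by ring
      exact le_of_mul_le_mul_left this hsq
    refine (norm_sub_le _ _).trans ?_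
    nlinarith
  · intro m
    obtain ⟨U, hU⟩ : ∃ U : Eu n →ₗ[ℝ] E, ∀ x, U x = S m (J x) - J (Φ (S m (J x))) :=
      ⟨(S m) ∘ₗ J - J ∘ₗ ((Φ : E →ₗ[ℝ] Eu n) ∘ₗ (S m) ∘ₗ J), fun _ => rfl⟩
    obtain ⟨V, hV⟩ : ∃ V : E →ₗ[ℝ] Eu n, ∀ y, V y = Φ (S m y) :=
      ⟨(Φ : E →ₗ[ℝ] Eu n) ∘ₗ (S m), fun _ => rfl⟩
    have hVU : ∀ x, V (U x) = Am m x - Am m (Am m x) := by
      intro x
      rw [hV, hU, map_sub, hSS, map_sub, hAm m (Am m x), hAm m x]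
    have h1 := htrace (by omega : 1 ≤ n) (by omega : 1 ≤ A * n + n) v hvn hve K hK0 U
      (fun x M hM h => by rw [hU]; exact (hab m x M hM h).2) V (fun x i => by
        have hy : Φ (U x) = 0 := by
          rw [hU, map_sub, hΦJ, sub_self]
        have h2 := hS5 m (U x) ‖U x‖ (norm_nonneg _)
          (fun i => by rw [hy, inner_zero_right, abs_zero]; exact norm_nonneg _)
          (by rw [hy, map_zero, sub_zero])
        rw [hV]
        exact h2.1 i)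
    have h2 : ∀ l : Fin n, (inner ℝ (EuclideanSpace.single l (1 : ℝ))
        (T m (EuclideanSpace.single l (1 : ℝ)) -
          T m (T m (EuclideanSpace.single l (1 : ℝ)))) : ℝ) =
        inner ℝ (EuclideanSpace.single l (1 : ℝ)) (V (U (EuclideanSpace.single l (1 : ℝ)))) := by
      intro l
      rw [hVU, inner_sub_right, inner_sub_right, hT2, hT2, hT2, real_inner_comm,
        real_inner_comm _ (Am m (Am m _))]
    rw [Finset.sum_congr rfl (fun l _ => h2 l)]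
    exact h1.trans hE2
  · intro x
    refine ext_inner_right ℝ fun y => ?_
    rw [hT1, hAm, hS0, map_zero, inner_zero_right, inner_zero_left]
  · intro m
    obtain ⟨f, z, hfz⟩ := hS1 m
    obtain ⟨w, hw⟩ : ∃ w : Eu n, ∀ x, (inner ℝ w x : ℝ) = f (J x) := by
      refine ⟨(InnerProductSpace.toDual ℝ (Eu n)).symm
        (LinearMap.toContinuousLinearMap (f ∘ₗ J)), fun x => ?_⟩
      rw [InnerProductSpace.toDual_symm_apply]
      rfl
    refine ⟨((innerSL ℝ (Φ z)) : Eu n →L[ℝ] ℝ), w, fun y => ?_⟩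
    refine ext_inner_right ℝ fun x => ?_
    rw [inner_sub_left, hT1, hT1, ← inner_sub_right, hAm, hAm, ← map_sub, hfz, map_smul,
      inner_smul_right, inner_smul_left, hw]
    show f (J x) * inner ℝ y (Φ z) = inner ℝ (Φ z) y * f (J x)
    rw [real_inner_comm, mul_comm]
  · intro x
    have h1 : ∀ l : Fin n, Tendsto (fun j => (inner ℝ (EuclideanSpace.single l (1 : ℝ)) (T j x) : ℝ))
        atTop (𝓝 (inner ℝ (EuclideanSpace.single l (1 : ℝ)) x)) := by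
      intro l
      have h2 : Tendsto (fun j => Φ (S j (J (EuclideanSpace.single l (1 : ℝ))))) atTop
          (𝓝 (Φ (J (EuclideanSpace.single l (1 : ℝ))))) :=
        (Φ.continuous.tendsto _).comp (hSlim _)
      rw [hΦJ] at h2
      have h3 : Tendsto (fun j => (inner ℝ (Φ (S j (J (EuclideanSpace.single l (1 : ℝ))))) x : ℝ))
          atTop (𝓝 (inner ℝ (EuclideanSpace.single l (1 : ℝ)) x)) :=
        h2.inner tendsto_const_nhds
      refine h3.congr fun j => ?_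
      rw [hT2, hAm]
    have h4 : Tendsto (fun j => ∑ l : Fin n,
        (inner ℝ (EuclideanSpace.single l (1 : ℝ)) (T j x) : ℝ) •
          EuclideanSpace.single l (1 : ℝ)) atTop
        (𝓝 (∑ l : Fin n, (inner ℝ (EuclideanSpace.single l (1 : ℝ)) x : ℝ) •
          EuclideanSpace.single l (1 : ℝ))) :=
      tendsto_finsetSum _ fun l _ => (h1 l).smul_const _
    rw [pb_sum] at h4
    refine h4.congr fun j => ?_
    rw [pb_sum]

end Pool.Agent.Helper130.JB.K7
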