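import Mathlib
import Pool.Agent.Helper130.JB.CotDefs


set_option autoImplicit false
open scoped Topology ENNReal BigOperators
open MeasureTheory Filter Module

namespace Pool.Agent.Helper130.JB.K8















theorem dual_block_log (A : ℕ) (s D : ℝ) (hs : 0 < s) (hD : 0 ≤ D) :
    ∃ n₀ : ℕ, ∀ n : ℕ, n₀ ≤ n →
      D * (n : ℝ) ^ (1 - 1 / s) * √(2 * Real.log (2 * ((A * n + n : ℕ) : ℝ) * (n : ℝ) ^ 2) + 1) ≤
        1 / 100 * n := by
  set c0 : ℝ := 2 * |Real.log (2 * ((A : ℝ) + 1))| + 6 * s + 1 with hc0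
  have hc0' : 0 ≤ c0 := by positivity
  have hev : ∀ᶠ n : ℕ in atTop, 100 * D * √c0 ≤ (n : ℝ) ^ (1 / (2 * s)) :=
    ((tendsto_rpow_atTop (by positivity : (0 : ℝ) < 1 / (2 * s))).comp
      tendsto_natCast_atTop_atTop).eventually_ge_atTop _
  obtain ⟨n0, hn0⟩ := eventually_atTop.1 hev
  refine ⟨max n0 1, fun n hn => ?_⟩
  have h1 := hn0 n ((le_max_left _ _).trans hn)
  have hn1 : 1 ≤ n := (le_max_right _ _).trans hn
  have hn1' : (1 : ℝ) ≤ n := by exact_mod_cast hn1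
  have hnpos : (0 : ℝ) < n := by linarith
  have hlog : 2 * Real.log (2 * ((A * n + n : ℕ) : ℝ) * (n : ℝ) ^ 2) + 1 ≤
      c0 * (n : ℝ) ^ (1 / s) := by
    have e1 : 2 * ((A * n + n : ℕ) : ℝ) * (n : ℝ) ^ 2 = (2 * ((A : ℝ) + 1)) * (n : ℝ) ^ 3 := by
      push_cast
      ring
    rw [e1, Real.log_mul (by positivity) (by positivity), Real.log_pow]
    have h2 : Real.log n ≤ (n : ℝ) ^ (1 / s) / (1 / s) :=
      Real.log_le_rpow_div hnpos.le (by positivity)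
    have h3 : 1 ≤ (n : ℝ) ^ (1 / s) := Real.one_le_rpow hn1' (by positivity)
    have h4 : (n : ℝ) ^ (1 / s) / (1 / s) = s * (n : ℝ) ^ (1 / s) := by
      field_simp
    rw [h4] at h2
    have h5 := le_abs_self (Real.log (2 * ((A : ℝ) + 1)))
    have h6 := abs_nonneg (Real.log (2 * ((A : ℝ) + 1)))
    rw [hc0]
    push_cast
    nlinarith
  have hsq : √(2 * Real.log (2 * ((A * n + n : ℕ) : ℝ) * (n : ℝ) ^ 2) + 1) ≤
      √c0 * (n : ℝ) ^ (1 / (2 * s)) := by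
    refine (Real.sqrt_le_sqrt hlog).trans (le_of_eq ?_)
    rw [Real.sqrt_mul hc0', Real.sqrt_eq_rpow ((n : ℝ) ^ (1 / s)), ← Real.rpow_mul hnpos.le]
    congr 2
    field_simp
  have e2 : (n : ℝ) ^ (1 - 1 / s) * (n : ℝ) ^ (1 / (2 * s)) * (n : ℝ) ^ (1 / (2 * s)) = n := by
    rw [← Real.rpow_add hnpos, ← Real.rpow_add hnpos]
    have : 1 - 1 / s + 1 / (2 * s) + 1 / (2 * s) = 1 := by
      field_simp
      ring
    rw [this, Real.rpow_one]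
  have hp1 : 0 < (n : ℝ) ^ (1 - 1 / s) := Real.rpow_pos_of_pos hnpos _
  have hp2 : 0 < (n : ℝ) ^ (1 / (2 * s)) := Real.rpow_pos_of_pos hnpos _
  calc D * (n : ℝ) ^ (1 - 1 / s) * √(2 * Real.log (2 * ((A * n + n : ℕ) : ℝ) * (n : ℝ) ^ 2) + 1)
      ≤ D * (n : ℝ) ^ (1 - 1 / s) * (√c0 * (n : ℝ) ^ (1 / (2 * s))) := by gcongr
    _ = 1 / 100 * ((n : ℝ) ^ (1 - 1 / s) * (n : ℝ) ^ (1 / (2 * s)) * (100 * D * √c0)) := by ring
    _ ≤ 1 / 100 * ((n : ℝ) ^ (1 - 1 / s) * (n : ℝ) ^ (1 / (2 * s)) * (n : ℝ) ^ (1 / (2 * s))) := by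
        gcongr
    _ = 1 / 100 * n := by rw [e2]

theorem dual_block {E : Type*} [NormedAddCommGroup E] [NormedSpace ℝ E] (s C : ℝ)
    (hs : 2 ≤ s) (hC : 0 ≤ C) (K B : ℝ) (hK : 1 ≤ K) (hB : 0 ≤ B)
    -- all hypotheses below are proved separately:
    (hgluskin : ∀ (θ R : ℝ) (_ : 0 < θ) (_ : θ < 1 / 2) (_ : 1 ≤ R) (L : ℕ) (_ : 2 ≤ L),
      ∃ A n₀ : ℕ, 1 ≤ A ∧ ∀ n : ℕ, n₀ ≤ n → ∃ Γ : Fin (A * n) → Eu n,
      (∀ j, ‖Γ j‖ ≤ √(n : ℝ)) ∧
      ∀ T : Eu n →ₗ[ℝ] Eu n, (∀ i, T (full Γ i) ∈ hullR ((n : ℝ) ^ (1 / 2 - θ)) (full Γ)) →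
        ¬ Mixing n (2 * (n / L)) R T)
    (hmix : ∀ (n m : ℕ) (α : ℝ) (_ : 0 < α) (T : Eu n →ₗ[ℝ] Eu n),
      Mixing n m (1 / α) T ∨
      ∃ (t : ℝ) (G : Submodule ℝ (Eu n)), n ≤ finrank ℝ G + 4 * m ∧
        ∀ x ∈ G, ‖T x - t • x‖ ≤ 8 * α * ‖x‖)
    (htrace : ∀ {n k : ℕ} (_ : 1 ≤ n) (_ : 1 ≤ k) (v : Fin k → Eu n)
      (_ : ∀ i, ‖v i‖ ≤ √(n : ℝ))
      (_ : ∀ l : Fin n, ∃ i, v i = (√(n : ℝ)) • EuclideanSpace.single l (1 : ℝ))
      (K : ℝ) (_ : 0 ≤ K) (U : Eu n →ₗ[ℝ] E) (_ : ∀ i, ‖U (v i)‖ ≤ K)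
      (W : E →ₗ[ℝ] Eu n) (_ : ∀ y, W y ∈ hullR (K * ‖y‖) v),
      |∑ l : Fin n, (inner ℝ (EuclideanSpace.single l (1 : ℝ))
        (W (U (EuclideanSpace.single l (1 : ℝ)))) : ℝ)| ≤
        K ^ 2 * C * (n : ℝ) ^ (1 - 1 / s) * √(2 * Real.log (2 * k * (n : ℝ) ^ 2) + 1))
    (hpath : ∀ (n c : ℕ) (K : ℝ) (_ : 1 ≤ K) (_ : 100 ≤ n) (_ : 80000 * K ^ 4 * c ≤ n)
      (T : ℕ → Eu n →ₗ[ℝ] Eu n)
      (_ : ∀ j, ∃ (t : ℝ) (G : Submodule ℝ (Eu n)), n ≤ finrank ℝ G + c ∧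
        ∀ x ∈ G, ‖T j x - t • x‖ ≤ 1 / 100 * ‖x‖)
      (_ : ∀ j (l : Fin n), ‖T j (EuclideanSpace.single l (1 : ℝ)) -
        T j (T j (EuclideanSpace.single l (1 : ℝ)))‖ ≤ 2 * K ^ 2)
      (_ : ∀ j, |∑ l : Fin n, (inner ℝ (EuclideanSpace.single l (1 : ℝ))
        (T j (EuclideanSpace.single l (1 : ℝ)) -
          T j (T j (EuclideanSpace.single l (1 : ℝ)))) : ℝ)| ≤ 1 / 100 * n)
      (_ : ∀ x, T 0 x = 0)
      (_ : ∀ j, ∃ (f : Eu n →ₗ[ℝ] ℝ) (z : Eu n), ∀ x, T (j + 1) x - T j x = f x • z)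
      (_ : ∀ x, Tendsto (fun j => T j x) atTop (𝓝 x)), False) :
    ∃ n₀ : ℕ, 1 ≤ n₀ ∧ ∀ n ≥ n₀, ∃ (k : ℕ) (v : Fin k → Eu n), 1 ≤ k ∧
      (∀ i, ‖v i‖ ≤ √(n : ℝ)) ∧
      (∀ l : Fin n, ∃ i, v i = (√(n : ℝ)) • EuclideanSpace.single l (1 : ℝ)) ∧
      ∀ (Φ : E →L[ℝ] Eu n) (J : Eu n →ₗ[ℝ] E), (∀ x, Φ (J x) = x) →
      (∀ x, ‖J (Φ x)‖ ≤ B * ‖x‖) →
      ∀ S : ℕ → E →ₗ[ℝ] E, (∀ x, S 0 x = 0) → (∀ m x, S m (S m x) = S m x) →
        (∀ m, ∃ (f : E →ₗ[ℝ] ℝ) (z : E), ∀ x, S (m + 1) x - S m x = f x • z) →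
        (∀ x, Tendsto (fun m => S m x) atTop (𝓝 x)) →
        (∀ m x M, 0 ≤ M → Φ x ∈ hullR M v → ‖x - J (Φ x)‖ ≤ M →
          Φ (S m x) ∈ hullR (K * M) v ∧ ‖S m x - J (Φ (S m x))‖ ≤ K * M) → False := by
  have hK0 : 0 < K := by linarith
  have hK' : K ≤ K * (1 + B) := by nlinarith
  have hK'0 : 0 ≤ K * (1 + B) := by positivity
  obtain ⟨L, hL⟩ := exists_nat_ge (max 2 (640000 * K ^ 4))
  have hL2 : 2 ≤ L := by
    have : (2 : ℝ) ≤ L := (le_max_left _ _).trans hL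
    exact_mod_cast this
  have hLK : 640000 * K ^ 4 ≤ L := (le_max_right _ _).trans hL
  obtain ⟨A, n1, hA1, hglu⟩ := hgluskin (1 / 4) 800 (by norm_num) (by norm_num) (by norm_num) L hL2
  obtain ⟨n2, hn2⟩ := dual_block_log A s ((K * (1 + B)) ^ 2 * C) (by linarith) (by positivity)
  have hev : ∀ᶠ n : ℕ in atTop, K ≤ (n : ℝ) ^ (1 / 4 : ℝ) :=
    ((tendsto_rpow_atTop (by norm_num : (0 : ℝ) < 1 / 4)).comp
      tendsto_natCast_atTop_atTop).eventually_ge_atTop K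
  obtain ⟨n3, hn3⟩ := eventually_atTop.1 hev
  refine ⟨max (max n1 100) (max n2 n3), ?_, ?_⟩
  · exact le_trans (by norm_num) ((le_max_right n1 100).trans (le_max_left _ _))
  intro n hn
  have hn1 : n1 ≤ n := (le_max_left _ _).trans ((le_max_left _ _).trans hn)
  have hn100 : 100 ≤ n := (le_max_right _ _).trans ((le_max_left _ _).trans hn)
  have hn2' := hn2 n ((le_max_left _ _).trans ((le_max_right _ _).trans hn))
  have hn3' := hn3 n ((le_max_right _ _).trans ((le_max_right _ _).trans hn))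
  have hnpos : (0 : ℝ) < n := by
    have : 0 < n := by omega
    exact_mod_cast this
  have hsqrt : 0 < √(n : ℝ) := Real.sqrt_pos.2 hnpos
  obtain ⟨Γ, hΓ, hΓT⟩ := hglu n hn1
  have hvn : ∀ i, ‖(full Γ ∘ finSumFinEquiv.symm) i‖ ≤ √(n : ℝ) := by
    intro i
    simp only [Function.comp]
    generalize finSumFinEquiv.symm i = i'
    rcases i' with j | l
    · exact hΓ j
    · simp only [full, Sum.elim_inr]
      rw [norm_smul, EuclideanSpace.norm_single, Real.norm_of_nonneg hsqrt.le]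
      simp
  have hve : ∀ l : Fin n, ∃ i, (full Γ ∘ finSumFinEquiv.symm) i =
      (√(n : ℝ)) • EuclideanSpace.single l (1 : ℝ) := by
    intro l
    refine ⟨finSumFinEquiv (Sum.inr l), ?_⟩
    simp [full]
  refine ⟨A * n + n, full Γ ∘ finSumFinEquiv.symm, by omega, hvn, hve, ?_⟩
  have hcomp : ∀ M x, x ∈ hullR M (full Γ ∘ finSumFinEquiv.symm) → x ∈ hullR M (full Γ) := by
    rintro M x ⟨c, hc, rfl⟩
    refine ⟨c ∘ finSumFinEquiv, ?_, ?_⟩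
    · refine le_trans (le_of_eq ?_) hc
      exact Equiv.sum_comp finSumFinEquiv (fun i => |c i|)
    · rw [← Equiv.sum_comp finSumFinEquiv]
      simp
  obtain ⟨v, hv⟩ : ∃ v : Fin (A * n + n) → Eu n, v = full Γ ∘ finSumFinEquiv.symm := ⟨_, rfl⟩
  have hvdef : ∀ i, v (finSumFinEquiv i) = full Γ i := by
    intro i
    rw [hv]
    simp
  rw [← hv] at hvn hve hcomp ⊢
  intro Φ J hΦJ hJB S hS0 hSS hSr hSlim hinv
  have hmono : ∀ {M M' : ℝ} {x : Eu n}, M ≤ M' → x ∈ hullR M v → x ∈ hullR M' v := by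
    rintro M M' x hMM ⟨c, hc, rfl⟩
    exact ⟨c, hc.trans hMM, rfl⟩
  have hself : ∀ i, v i ∈ hullR 1 v := by
    intro i
    refine ⟨Pi.single i 1, ?_, ?_⟩
    · rw [Finset.sum_eq_single i]
      · simp
      · intro j _ hj
        simp [Pi.single_eq_of_ne hj]
      · simp
    · rw [Finset.sum_eq_single i]
      · simp
      · intro j _ hj
        simp [Pi.single_eq_of_ne hj]
      · simp
  have hfirst : ∀ m i, Φ (S m (J (v i))) ∈ hullR K v ∧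
      ‖S m (J (v i)) - J (Φ (S m (J (v i))))‖ ≤ K := by
    intro m i
    have := hinv m (J (v i)) 1 zero_le_one (by rw [hΦJ]; exact hself i)
      (by rw [hΦJ, sub_self, norm_zero]; exact zero_le_one)
    rwa [mul_one] at this
  have hhull : ∀ (D : ℝ) (T : Eu n →ₗ[ℝ] Eu n), 0 ≤ D → (∀ i, ‖T (v i)‖ ≤ D) →
      ∀ M x, x ∈ hullR M v → ‖T x‖ ≤ M * D := by
    rintro D T hD hT M x ⟨c, hc, rfl⟩
    rw [map_sum]
    calc ‖∑ i, T (c i • v i)‖ ≤ ∑ i, ‖T (c i • v i)‖ := norm_sum_le _ _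
      _ ≤ ∑ i, |c i| * D := by
          apply Finset.sum_le_sum
          intro i _
          rw [map_smul, norm_smul, Real.norm_eq_abs]
          exact mul_le_mul_of_nonneg_left (hT i) (abs_nonneg _)
      _ = (∑ i, |c i|) * D := by rw [Finset.sum_mul]
      _ ≤ M * D := mul_le_mul_of_nonneg_right hc hD
  obtain ⟨T, hTdef⟩ : ∃ T : ℕ → Eu n →ₗ[ℝ] Eu n, ∀ m x, T m x = Φ (S m (J x)) :=
    ⟨fun m => (Φ : E →ₗ[ℝ] Eu n) ∘ₗ S m ∘ₗ J, fun m x => rfl⟩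
  have hTv : ∀ m i, T m (v i) ∈ hullR K v := by
    intro m i
    rw [hTdef]
    exact (hfirst m i).1
  have hTvn : ∀ m i, ‖T m (v i)‖ ≤ K * √(n : ℝ) := by
    intro m i
    exact hhull (√(n : ℝ)) LinearMap.id hsqrt.le hvn K _ (hTv m i)
  have hTe : ∀ m l, ‖T m (EuclideanSpace.single l (1 : ℝ))‖ ≤ K := by
    intro m l
    obtain ⟨i, hi⟩ := hve l
    have h1 := hTvn m i
    rw [hi, map_smul, norm_smul, Real.norm_of_nonneg hsqrt.le, mul_comm] at h1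
    exact le_of_mul_le_mul_right h1 hsqrt
  have hTTe : ∀ m l, ‖T m (T m (EuclideanSpace.single l (1 : ℝ)))‖ ≤ K ^ 2 := by
    intro m l
    obtain ⟨i, hi⟩ := hve l
    have h1 := hhull (K * √(n : ℝ)) (T m) (by positivity) (hTvn m) K _ (hTv m i)
    rw [hi, map_smul, map_smul, norm_smul, Real.norm_of_nonneg hsqrt.le, mul_comm, ← mul_assoc,
      ← sq] at h1
    exact le_of_mul_le_mul_right h1 hsqrt
  apply hpath n (4 * (2 * (n / L))) K hK hn100 ?_ T ?_ ?_ ?_ ?_ ?_ ?_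
  · -- 80000 K^4 c ≤ n
    have h1 : ((n / L : ℕ) : ℝ) * L ≤ n := by
      exact_mod_cast Nat.div_mul_le_self n L
    have h2 : (0 : ℝ) ≤ ((n / L : ℕ) : ℝ) := Nat.cast_nonneg _
    push_cast
    push_cast at h1 h2
    nlinarith
  · intro j
    have hnm : ¬ Mixing n (2 * (n / L)) 800 (T j) := by
      apply hΓT
      intro i
      apply hcomp
      rw [← hvdef]
      refine hmono ?_ (hTv j _)
      rw [show (1 / 2 - 1 / 4 : ℝ) = 1 / 4 by norm_num]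
      exact hn3'
    rcases hmix n (2 * (n / L)) (1 / 800) (by norm_num) (T j) with h | ⟨t, G, hG1, hG2⟩
    · exfalso
      apply hnm
      rwa [show (1 / (1 / 800) : ℝ) = 800 by norm_num] at h
    · refine ⟨t, G, hG1, ?_⟩
      intro x hx
      refine (hG2 x hx).trans (le_of_eq ?_)
      norm_num
  · intro j l
    refine (norm_sub_le _ _).trans ?_
    have h1 := hTe j l
    have h2 := hTTe j l
    nlinarith
  · intro j
    let U : Eu n →ₗ[ℝ] E := S j ∘ₗ J - J ∘ₗ (Φ : E →ₗ[ℝ] Eu n) ∘ₗ S j ∘ₗ J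
    let W : E →ₗ[ℝ] Eu n := (Φ : E →ₗ[ℝ] Eu n) ∘ₗ S j ∘ₗ
      (LinearMap.id - J ∘ₗ (Φ : E →ₗ[ℝ] Eu n))
    have hU : ∀ x, U x = S j (J x) - J (Φ (S j (J x))) := fun x => rfl
    have hW : ∀ y, W y = Φ (S j (y - J (Φ y))) := fun y => rfl
    have h1 := htrace (by omega : 1 ≤ n) (by omega : 1 ≤ A * n + n) v hvn hve (K * (1 + B)) hK'0 U
      (fun i => by
        rw [hU]
        exact (hfirst j i).2.trans hK') W
      (fun y => by
        rw [hW]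
        have h2 := (hinv j (y - J (Φ y)) ((1 + B) * ‖y‖) (by positivity) (by
          rw [map_sub, hΦJ, sub_self]
          refine ⟨0, ?_, ?_⟩
          · simp; positivity
          · simp) (by
          rw [map_sub Φ, hΦJ, sub_self, map_zero, sub_zero]
          refine (norm_sub_le _ _).trans ?_
          have := hJB y
          linarith)).1
        rwa [← mul_assoc] at h2)
    have h3 : ∀ x, W (U x) = T j x - T j (T j x) := by
      intro x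
      rw [hW]
      have h4 : Φ (U x) = 0 := by
        rw [hU, map_sub, hΦJ, sub_self]
      rw [h4, map_zero, sub_zero, hU, map_sub, map_sub, hSS, hTdef, hTdef]
    simp only [h3] at h1
    refine h1.trans ?_
    have h5 := hn2'
    push_cast
    push_cast at h5
    linarith
  · intro x
    rw [hTdef, hS0, map_zero]
  · intro j
    obtain ⟨f, z, hfz⟩ := hSr j
    refine ⟨f ∘ₗ J, Φ z, fun x => ?_⟩
    rw [hTdef, hTdef, ← map_sub, hfz, map_smul]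
    rfl
  · intro x
    have h1 := (Φ.continuous.tendsto _).comp (hSlim (J x))
    rw [hΦJ] at h1
    refine h1.congr fun j => ?_
    rw [hTdef]
    rfl

end Pool.Agent.Helper130.JB.K8
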