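import Mathlib
import Pool.Agent.Helper519.BasisBound
import Pool.Agent.Helper130.JB.Gluskin
import Pool.Agent.Helper130.JB.K1
import Pool.Agent.Helper130.JB.K2
import Pool.Agent.Helper130.JB.K3
import Pool.Agent.Helper130.JB.K4
import Pool.Agent.Helper130.JB.K5
import Pool.Agent.Helper130.JB.K6
import Pool.Agent.Helper130.JB.K7
import Pool.Agent.Helper130.JB.K8

set_option autoImplicit false
open scoped Topology ENNReal BigOperators
open MeasureTheory Filter Module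

namespace Pool.Agent.Helper130.JB

open Pool.Agent.Helper519.Schauder

/-- the first `n` coordinates of a basis, as a bounded map to Euclidean space, with the section
`J a = ∑ a_i e_i`. -/
theorem coords {E : Type*} [NormedAddCommGroup E] [NormedSpace ℝ E] [CompleteSpace E]
    {e : ℕ → E} (h : IsBasis ℝ e) : ∃ B : ℝ, 0 ≤ B ∧ ∀ n : ℕ,
      ∃ (Φ : E →L[ℝ] Eu n) (J : Eu n →ₗ[ℝ] E), (∀ x, Φ (J x) = x) ∧
        ∀ x, ‖J (Φ x)‖ ≤ B * ‖x‖ := by
  obtain ⟨K, hK, hKx⟩ := exists_bound h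
  refine ⟨K, hK.le, fun n => ?_⟩
  -- coordinate functionals are bounded
  have hne : ∀ i, e i ≠ 0 := by
    intro i hi
    have h0 : Tendsto (fun N => ∑ j ∈ Finset.range N, (0 : ℕ → ℝ) j • e j) atTop (𝓝 (0 : E)) := by
      simp
    have h1 : Tendsto (fun N => ∑ j ∈ Finset.range N, (Pi.single i (1 : ℝ) : ℕ → ℝ) j • e j) atTop
        (𝓝 (0 : E)) := by
      have : (fun N => ∑ j ∈ Finset.range N, (Pi.single i (1 : ℝ) : ℕ → ℝ) j • e j) =
          fun _ => (0 : E) := by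
        funext N
        refine Finset.sum_eq_zero fun j _ => ?_
        by_cases hj : j = i
        · subst hj; rw [hi, smul_zero]
        · rw [Pi.single_eq_of_ne hj, zero_smul]
      rw [this]; exact tendsto_const_nhds
    have h2 := coef_unique h 0 _ h0
    have h3 := coef_unique h 0 _ h1
    have h4 : (0 : ℕ → ℝ) i = (Pi.single i (1 : ℝ) : ℕ → ℝ) i := by rw [h2, h3]
    simp at h4
  have hcb : ∀ i x, |coef h x i| ≤ (2 * K / ‖e i‖) * ‖x‖ := by
    intro i x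
    have hpos : 0 < ‖e i‖ := norm_pos_iff.mpr (hne i)
    have h1 : coef h x i • e i = S h (i + 1) x - S h i x := by
      rw [S_apply, S_apply, Finset.sum_range_succ]; abel
    have h2 : |coef h x i| * ‖e i‖ ≤ 2 * K * ‖x‖ := by
      rw [← Real.norm_eq_abs, ← norm_smul, h1]
      calc _ ≤ ‖S h (i + 1) x‖ + ‖S h i x‖ := norm_sub_le _ _
        _ ≤ K * ‖x‖ + K * ‖x‖ := add_le_add (hKx _ _) (hKx _ _)
        _ = 2 * K * ‖x‖ := by ring
    rw [div_mul_eq_mul_div, le_div_iff₀ hpos]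
    exact h2
  let c : Fin n → E →L[ℝ] ℝ := fun i => LinearMap.mkContinuous
    { toFun := fun x => coef h x i
      map_add' := fun x y => by rw [coef_add]; rfl
      map_smul' := fun a x => by rw [coef_smul]; rfl } (2 * K / ‖e i‖)
    (fun x => by simpa using hcb i x)
  let Φ : E →L[ℝ] Eu n := ((EuclideanSpace.equiv (Fin n) ℝ).symm : (Fin n → ℝ) →L[ℝ] Eu n).comp
    (ContinuousLinearMap.pi c)
  let J : Eu n →ₗ[ℝ] E :=
    { toFun := fun a => ∑ i : Fin n, a i • e i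
      map_add' := fun a b => by simp [add_smul, Finset.sum_add_distrib]
      map_smul' := fun r a => by simp [mul_smul, Finset.smul_sum] }
  have hΦ : ∀ x i, Φ x i = coef h x i := fun x i => rfl
  have hJ : ∀ a, J a = ∑ i : Fin n, a i • e i := fun a => rfl
  refine ⟨Φ, J, fun a => ?_, fun x => ?_⟩
  · ext i
    rw [hΦ, hJ]
    let b : ℕ → ℝ := fun j => if hj : j < n then a ⟨j, hj⟩ else 0
    have hb : ∑ i : Fin n, a i • e i = ∑ j ∈ Finset.range n, b j • e j := by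
      rw [Finset.sum_range]
      refine Finset.sum_congr rfl fun i _ => ?_
      simp [b]
    rw [hb]
    have h5 : Tendsto (fun N => ∑ j ∈ Finset.range N, b j • e j) atTop
        (𝓝 (∑ j ∈ Finset.range n, b j • e j)) := by
      refine tendsto_atTop_of_eventually_const (i₀ := n) fun N hN => ?_
      refine (Finset.sum_subset (Finset.range_mono hN) fun j _ hj => ?_).symm
      have : ¬ j < n := by simpa using hj
      simp [b, this]
    have h6 := coef_unique h _ _ h5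
    rw [← h6]
    simp [b]
  · have : J (Φ x) = S h n x := by
      rw [hJ, S_apply, Finset.sum_range]
      exact Finset.sum_congr rfl fun i _ => by rw [hΦ]
    rw [this]; exact hKx n x

/-- partial sum operators of a basis in the form needed below -/
theorem basis_chain {E : Type*} [NormedAddCommGroup E] [NormedSpace ℝ E]
    {f : ℕ → E} (hf : IsBasis ℝ f) : (∀ x, S hf 0 x = 0) ∧ (∀ m x, S hf m (S hf m x) = S hf m x) ∧
      (∀ m, ∃ (g : E →ₗ[ℝ] ℝ) (z : E), ∀ x, S hf (m + 1) x - S hf m x = g x • z) ∧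
      ∀ x, Tendsto (fun m => S hf m x) atTop (𝓝 x) := by
  refine ⟨fun x => by simp [S_apply], fun m x => S_S hf m x, fun m => ?_, fun x => S_tendsto hf x⟩
  refine ⟨{ toFun := fun x => coef hf x m, map_add' := ?_, map_smul' := ?_ }, f m, ?_⟩
  · intro x y; rw [coef_add]; rfl
  · intro c x; rw [coef_smul]; rfl
  · intro x
    simp only [LinearMap.coe_mk, AddHom.coe_mk, S_apply, Finset.sum_range_succ]
    abel

/-- equivalent norms in which no basis has constant at most `K` -/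
theorem primal_norm {E : Type*} [NormedAddCommGroup E] [NormedSpace ℝ E] [CompleteSpace E]
    {e : ℕ → E} (he : IsBasis ℝ e) (s C : ℝ) (hs : 2 ≤ s) (hC : 0 ≤ C) (hcot : HasCotype s C E)
    (K : ℝ) (hK : 1 ≤ K) : ∃ (N : Seminorm ℝ E) (c D : ℝ), 0 < c ∧ 0 < D ∧
      (∀ x, c * ‖x‖ ≤ N x ∧ N x ≤ D * ‖x‖) ∧
      ∀ f : ℕ → E, ∀ hf : IsBasis ℝ f, ¬ ∀ m x, N (S hf m x) ≤ K * N x := by
  obtain ⟨B, hB, hcoord⟩ := coords he
  obtain ⟨n, hn, hblock⟩ := K7.primal_block (E := E) s C hs hC K hK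
    (fun θ R h1 h2 h3 L h4 => gluskin θ R h1 h2 h3 L h4)
    (fun n m α hα T => mixing_or_scalar n m α hα T)
    (fun {n k} v K hK z hz => K5.mem_hullR_of_le v K hK z hz)
    (fun {n k} hn hk v hv hv2 K hK U hU V hV => K3.trace_cotype s C hs hC hcot hn v hv2 K hK U hU V
      hV _ (by
        have : 0 ≤ Real.log (2 * k * (n : ℝ) ^ 2) := by
          apply Real.log_nonneg
          have h1 : (1 : ℝ) ≤ k := by exact_mod_cast hk
          have h2 : (1 : ℝ) ≤ n := by exact_mod_cast hn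
          nlinarith [mul_le_mul h1 (one_le_pow₀ h2 (n := 2)) (by norm_num) (by positivity)]
        linarith)
      (K2.max_signs hn hk v hv (fun v hv a ha => K1.chernoff_count hn v hv a ha)))
    (fun n c K h1 h2 h3 T h4 h5 h6 h7 h8 h9 => K6.no_path2 n c K h1 h2 h3 T h4 h5 h6 h7 h8 h9)
  obtain ⟨k, v, hk, hv, hv2, hmain⟩ := hblock n le_rfl
  obtain ⟨Φ, J, hΦJ, hJΦ⟩ := hcoord n
  have : Nonempty (Fin k) := ⟨⟨0, hk⟩⟩
  let L1 : E →ₗ[ℝ] (Fin k → ℝ) := LinearMap.pi fun i => ((innerSL ℝ (v i)).comp Φ : E →L[ℝ] ℝ)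
  let L2 : E →ₗ[ℝ] E := LinearMap.id - J ∘ₗ (Φ : E →ₗ[ℝ] Eu n)
  let N : Seminorm ℝ E := (normSeminorm ℝ (Fin k → ℝ)).comp L1 ⊔ (normSeminorm ℝ E).comp L2
  have hN : ∀ x, N x = max ‖L1 x‖ ‖x - J (Φ x)‖ := fun x => rfl
  have hL1 : ∀ x i, L1 x i = inner ℝ (v i) (Φ x) := fun x i => rfl
  have hle : ∀ x M, 0 ≤ M → (N x ≤ M ↔ (∀ i, |(inner ℝ (v i) (Φ x) : ℝ)| ≤ M) ∧
      ‖x - J (Φ x)‖ ≤ M) := by
    intro x M hM
    rw [hN, max_le_iff, pi_norm_le_iff_of_nonneg hM]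
    simp only [hL1, Real.norm_eq_abs]
  have hNn : ∀ x, 0 ≤ N x := fun x => apply_nonneg N x
  -- lower bound
  have hlow : ∀ x, ‖x‖ ≤ (‖J.toContinuousLinearMap‖ + 1) * N x := by
    intro x
    have h1 := ((hle x (N x) (hNn x)).1 le_rfl)
    have h2 : ‖Φ x‖ ≤ N x := by
      have h3 : ∀ l : Fin n, |Φ x l| * √(n : ℝ) ≤ N x := by
        intro l
        obtain ⟨i, hi⟩ := hv2 l
        have h4 := h1.1 i
        rw [hi, inner_smul_left, EuclideanSpace.inner_single_left] at h4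
        simp only [conj_trivial, one_mul, abs_mul, abs_of_nonneg (Real.sqrt_nonneg _)] at h4
        linarith [mul_comm (|Φ x l|) (√(n : ℝ))]
      rw [EuclideanSpace.norm_eq]
      apply Real.sqrt_le_iff.mpr ⟨hNn x, ?_⟩
      have hn0 : (0 : ℝ) < n := by exact_mod_cast hn
      calc ∑ i, ‖Φ x i‖ ^ 2 ≤ ∑ _i : Fin n, (N x) ^ 2 / n := by
            apply Finset.sum_le_sum
            intro l _
            rw [le_div_iff₀ hn0, Real.norm_eq_abs]
            have h5 := h3 l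
            have h6 : (|Φ x l| * √(n : ℝ)) ^ 2 ≤ (N x) ^ 2 :=
              pow_le_pow_left₀ (by positivity) h5 2
            rw [mul_pow, Real.sq_sqrt hn0.le] at h6
            exact h6
        _ = N x ^ 2 := by
            rw [Finset.sum_const, Finset.card_univ, Fintype.card_fin, nsmul_eq_mul]
            field_simp
    calc ‖x‖ = ‖J (Φ x) + (x - J (Φ x))‖ := by congr 1; abel
      _ ≤ ‖J (Φ x)‖ + ‖x - J (Φ x)‖ := norm_add_le _ _
      _ ≤ ‖J.toContinuousLinearMap‖ * ‖Φ x‖ + N x :=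
          add_le_add (J.toContinuousLinearMap.le_opNorm (Φ x)) h1.2
      _ ≤ ‖J.toContinuousLinearMap‖ * N x + N x := by
          gcongr
      _ = (‖J.toContinuousLinearMap‖ + 1) * N x := by ring
  have hup : ∀ x, N x ≤ (√(n : ℝ) * ‖Φ‖ + 1 + B) * ‖x‖ := by
    intro x
    rw [hle x _ (by positivity)]
    have h0 : 0 ≤ ‖x‖ := norm_nonneg x
    refine ⟨fun i => ?_, ?_⟩
    · calc |(inner ℝ (v i) (Φ x) : ℝ)| ≤ ‖v i‖ * ‖Φ x‖ := abs_real_inner_le_norm _ _
        _ ≤ √(n : ℝ) * (‖Φ‖ * ‖x‖) := by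
            apply mul_le_mul (hv i) (Φ.le_opNorm x) (norm_nonneg _) (Real.sqrt_nonneg _)
        _ ≤ _ := by nlinarith [mul_nonneg hB h0]
    · calc ‖x - J (Φ x)‖ ≤ ‖x‖ + ‖J (Φ x)‖ := norm_sub_le _ _
        _ ≤ ‖x‖ + B * ‖x‖ := by gcongr; exact hJΦ x
        _ ≤ _ := by
            have : 0 ≤ √(n : ℝ) * ‖Φ‖ * ‖x‖ := by positivity
            nlinarith
  refine ⟨N, (‖J.toContinuousLinearMap‖ + 1)⁻¹, √(n : ℝ) * ‖Φ‖ + 1 + B, by positivity,
    by positivity, fun x => ⟨?_, hup x⟩, ?_⟩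
  · rw [inv_mul_le_iff₀ (by positivity)]; exact hlow x
  · intro f hf hbd
    obtain ⟨h1, h2, h3, h4⟩ := basis_chain hf
    refine hmain Φ J hΦJ (fun m => S hf m) h1 h2 h3 h4 ?_
    intro m x M hM hx1 hx2
    have h5 : N x ≤ M := (hle x M hM).2 ⟨hx1, hx2⟩
    have h6 : N (S hf m x) ≤ K * M :=
      (hbd m x).trans (mul_le_mul_of_nonneg_left h5 (by linarith))
    exact (hle _ _ (by positivity)).1 h6

/-- the dual case -/
theorem dual_norm {E : Type*} [NormedAddCommGroup E] [NormedSpace ℝ E] [CompleteSpace E]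
    {e : ℕ → E} (he : IsBasis ℝ e) (s C : ℝ) (hs : 2 ≤ s) (hC : 0 ≤ C)
    (hcot : HasCotype s C (E →L[ℝ] ℝ))
    (K : ℝ) (hK : 1 ≤ K) : ∃ (N : Seminorm ℝ E) (c D : ℝ), 0 < c ∧ 0 < D ∧
      (∀ x, c * ‖x‖ ≤ N x ∧ N x ≤ D * ‖x‖) ∧
      ∀ f : ℕ → E, ∀ hf : IsBasis ℝ f, ¬ ∀ m x, N (S hf m x) ≤ K * N x := by
  obtain ⟨B, hB, hcoord⟩ := coords he
  obtain ⟨n, hn, hblock⟩ := K8.dual_block (E := E) s C hs hC K B hK hB
    (fun θ R h1 h2 h3 L h4 => gluskin θ R h1 h2 h3 L h4)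
    (fun n m α hα T => mixing_or_scalar n m α hα T)
    (fun {n k} hn hk v hv hv2 K hK U hU W hW => K4.trace_cotype_dual s C hs hC hcot hn v hv2 K hK U
      hU W hW _ (by
        have : 0 ≤ Real.log (2 * k * (n : ℝ) ^ 2) := by
          apply Real.log_nonneg
          have h1 : (1 : ℝ) ≤ k := by exact_mod_cast hk
          have h2 : (1 : ℝ) ≤ n := by exact_mod_cast hn
          nlinarith [mul_le_mul h1 (one_le_pow₀ h2 (n := 2)) (by norm_num) (by positivity)]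
        linarith)
      (K2.max_signs hn hk v hv (fun v hv a ha => K1.chernoff_count hn v hv a ha)))
    (fun n c K h1 h2 h3 T h4 h5 h6 h7 h8 h9 => K6.no_path2 n c K h1 h2 h3 T h4 h5 h6 h7 h8 h9)
  obtain ⟨k, v, hk, hv, hv2, hmain⟩ := hblock n le_rfl
  obtain ⟨Φ, J, hΦJ, hJΦ⟩ := hcoord n
  have : Nonempty (Fin k) := ⟨⟨0, hk⟩⟩
  have hn0 : (0 : ℝ) < n := by exact_mod_cast hn
  -- the polar set
  let P : Set (Eu n) := {x | ∀ i, |(inner ℝ (v i) x : ℝ)| ≤ 1}
  have h0P : (0 : Eu n) ∈ P := fun i => by simp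
  have : Nonempty P := ⟨⟨0, h0P⟩⟩
  have hPn : ∀ x M, 0 ≤ M → (∀ i, |(inner ℝ (v i) x : ℝ)| ≤ M) → ‖x‖ ≤ M := by
    intro x M hM hx
    have h3 : ∀ l : Fin n, |x l| * √(n : ℝ) ≤ M := by
      intro l
      obtain ⟨i, hi⟩ := hv2 l
      have h4 := hx i
      rw [hi, inner_smul_left, EuclideanSpace.inner_single_left] at h4
      simp only [conj_trivial, one_mul, abs_mul, abs_of_nonneg (Real.sqrt_nonneg _)] at h4
      linarith [mul_comm (|x l|) (√(n : ℝ))]
    rw [EuclideanSpace.norm_eq]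
    apply Real.sqrt_le_iff.mpr ⟨hM, ?_⟩
    calc ∑ i, ‖x i‖ ^ 2 ≤ ∑ _i : Fin n, M ^ 2 / n := by
          apply Finset.sum_le_sum
          intro l _
          rw [le_div_iff₀ hn0, Real.norm_eq_abs]
          have h6 : (|x l| * √(n : ℝ)) ^ 2 ≤ M ^ 2 := pow_le_pow_left₀ (by positivity) (h3 l) 2
          rw [mul_pow, Real.sq_sqrt hn0.le] at h6
          exact h6
      _ = M ^ 2 := by
          rw [Finset.sum_const, Finset.card_univ, Fintype.card_fin, nsmul_eq_mul]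
          field_simp
  have hbdd : ∀ z : Eu n, BddAbove (Set.range fun x : P => |(inner ℝ z x.1 : ℝ)|) := by
    intro z
    refine ⟨‖z‖, ?_⟩
    rintro _ ⟨x, rfl⟩
    calc |(inner ℝ z x.1 : ℝ)| ≤ ‖z‖ * ‖x.1‖ := abs_real_inner_le_norm _ _
      _ ≤ ‖z‖ * 1 := by gcongr; exact hPn x.1 1 zero_le_one x.2
      _ = ‖z‖ := mul_one _
  let q : Seminorm ℝ (Eu n) := Seminorm.of (fun z => ⨆ x : P, |(inner ℝ z x.1 : ℝ)|)
    (fun z w => by
      apply ciSup_le
      intro x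
      rw [inner_add_left]
      calc |(inner ℝ z x.1 : ℝ) + inner ℝ w x.1| ≤ |(inner ℝ z x.1 : ℝ)| + |(inner ℝ w x.1 : ℝ)| :=
            abs_add_le _ _
        _ ≤ _ := add_le_add (le_ciSup (hbdd z) x) (le_ciSup (hbdd w) x))
    (fun a z => by
      simp only [inner_smul_left, conj_trivial, abs_mul]
      rw [Real.norm_eq_abs, Real.mul_iSup_of_nonneg (abs_nonneg a)])
  have hq : ∀ z, q z = ⨆ x : P, |(inner ℝ z x.1 : ℝ)| := fun z => rfl
  have hqmem : ∀ z M, 0 ≤ M → (q z ≤ M ↔ z ∈ hullR M v) := by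
    intro z M hM
    constructor
    · intro hz
      refine K5.mem_hullR_of_le v M hM z ?_
      intro x a ha hx
      rcases ha.eq_or_lt with h0 | h0
      · subst h0
        have : ‖x‖ ≤ 0 := hPn x 0 le_rfl hx
        have hx0 : x = 0 := norm_le_zero_iff.1 this
        subst hx0; simp
      · have hxP : a⁻¹ • x ∈ P := by
          intro i
          rw [inner_smul_right, abs_mul, abs_of_pos (inv_pos.2 h0), inv_mul_le_iff₀ h0, mul_one]
          exact hx i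
        have h5 := le_ciSup (hbdd z) ⟨_, hxP⟩
        have h6 : |(inner ℝ z (a⁻¹ • x) : ℝ)| ≤ M := h5.trans hz
        rw [inner_smul_right, abs_mul, abs_of_pos (inv_pos.2 h0), inv_mul_le_iff₀ h0] at h6
        linarith [mul_comm a M]
    · rintro ⟨c, hc, rfl⟩
      rw [hq]
      apply ciSup_le
      intro x
      rw [sum_inner]
      calc |∑ i, (inner ℝ (c i • v i) x.1 : ℝ)| ≤ ∑ i, |(inner ℝ (c i • v i) x.1 : ℝ)| :=
            Finset.abs_sum_le_sum_abs _ _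
        _ ≤ ∑ i, |c i| := by
            apply Finset.sum_le_sum
            intro i _
            rw [inner_smul_left, conj_trivial, abs_mul]
            calc |c i| * |(inner ℝ (v i) x.1 : ℝ)| ≤ |c i| * 1 := by
                  gcongr; exact x.2 i
              _ = |c i| := mul_one _
        _ ≤ M := hc
  let L2 : E →ₗ[ℝ] E := LinearMap.id - J ∘ₗ (Φ : E →ₗ[ℝ] Eu n)
  let N : Seminorm ℝ E := q.comp (Φ : E →ₗ[ℝ] Eu n) ⊔ (normSeminorm ℝ E).comp L2
  have hN : ∀ x, N x = max (q (Φ x)) ‖x - J (Φ x)‖ := fun x => rfl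
  have hle : ∀ x M, 0 ≤ M → (N x ≤ M ↔ Φ x ∈ hullR M v ∧ ‖x - J (Φ x)‖ ≤ M) := by
    intro x M hM
    rw [hN, max_le_iff, hqmem _ _ hM]
  have hNn : ∀ x, 0 ≤ N x := fun x => apply_nonneg N x
  have hqz : ∀ z, q z ≤ ‖z‖ := by
    intro z
    rw [hq]
    apply ciSup_le
    intro x
    calc |(inner ℝ z x.1 : ℝ)| ≤ ‖z‖ * ‖x.1‖ := abs_real_inner_le_norm _ _
      _ ≤ ‖z‖ * 1 := by gcongr; exact hPn x.1 1 zero_le_one x.2
      _ = ‖z‖ := mul_one _
  have hzq : ∀ z, ‖z‖ ≤ √(n : ℝ) * q z := by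
    intro z
    obtain ⟨c, hc, hz⟩ := (hqmem z (q z) (apply_nonneg q z)).1 le_rfl
    rw [hz] 
    calc ‖∑ i, c i • v i‖ ≤ ∑ i, ‖c i • v i‖ := norm_sum_le _ _
      _ ≤ ∑ i, |c i| * √(n : ℝ) := by
          apply Finset.sum_le_sum
          intro i _
          rw [norm_smul, Real.norm_eq_abs]
          gcongr
          exact hv i
      _ = (∑ i, |c i|) * √(n : ℝ) := by rw [Finset.sum_mul]
      _ ≤ q z * √(n : ℝ) := by gcongr
      _ = √(n : ℝ) * q (∑ i, c i • v i) := by rw [← hz]; ring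
  have hlow : ∀ x, ‖x‖ ≤ (‖J.toContinuousLinearMap‖ * √(n : ℝ) + 1) * N x := by
    intro x
    have h1 : q (Φ x) ≤ N x := le_max_left _ _
    have h2 : ‖x - J (Φ x)‖ ≤ N x := le_max_right _ _
    calc ‖x‖ = ‖J (Φ x) + (x - J (Φ x))‖ := by congr 1; abel
      _ ≤ ‖J (Φ x)‖ + ‖x - J (Φ x)‖ := norm_add_le _ _
      _ ≤ ‖J.toContinuousLinearMap‖ * ‖Φ x‖ + N x :=
          add_le_add (J.toContinuousLinearMap.le_opNorm (Φ x)) h2
      _ ≤ ‖J.toContinuousLinearMap‖ * (√(n : ℝ) * N x) + N x := by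
          gcongr
          exact (hzq _).trans (by gcongr)
      _ = (‖J.toContinuousLinearMap‖ * √(n : ℝ) + 1) * N x := by ring
  have hup : ∀ x, N x ≤ (‖Φ‖ + 1 + B) * ‖x‖ := by
    intro x
    have h0 : 0 ≤ ‖x‖ := norm_nonneg x
    rw [hN, max_le_iff]
    refine ⟨?_, ?_⟩
    · calc q (Φ x) ≤ ‖Φ x‖ := hqz _
        _ ≤ ‖Φ‖ * ‖x‖ := Φ.le_opNorm x
        _ ≤ _ := by nlinarith [mul_nonneg hB h0]
    · calc ‖x - J (Φ x)‖ ≤ ‖x‖ + ‖J (Φ x)‖ := norm_sub_le _ _
        _ ≤ ‖x‖ + B * ‖x‖ := by gcongr; exact hJΦ x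
        _ ≤ _ := by
            have : 0 ≤ ‖Φ‖ * ‖x‖ := by positivity
            nlinarith
  refine ⟨N, (‖J.toContinuousLinearMap‖ * √(n : ℝ) + 1)⁻¹, ‖Φ‖ + 1 + B, by positivity,
    by positivity, fun x => ⟨?_, hup x⟩, ?_⟩
  · rw [inv_mul_le_iff₀ (by positivity)]; exact hlow x
  · intro f hf hbd
    obtain ⟨h1, h2, h3, h4⟩ := basis_chain hf
    refine hmain Φ J hΦJ hJΦ (fun m => S hf m) h1 h2 h3 h4 ?_
    intro m x M hM hx1 hx2
    have h5 : N x ≤ M := (hle x M hM).2 ⟨hx1, hx2⟩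
    have h6 : N (S hf m x) ≤ K * M :=
      (hbd m x).trans (mul_le_mul_of_nonneg_left h5 (by linarith))
    exact (hle _ _ (by positivity)).1 h6

end Pool.Agent.Helper130.JB
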